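import Pool.Agent.Lib.MP_5566a7_lc.Defs

/-!
Classical facts on numberings, used for MP_5566a7_lc.
-/

namespace Pool.Agent.MP5566

open Nat.Partrec Filter

theorem search {P : ℕ → ℕ → Prop} (hP : ComputablePred fun p : ℕ × ℕ => P p.1 p.2)
    (h : ∀ x, ∃ w, P x w) : ∃ f : ℕ → ℕ, Computable f ∧ ∀ x, P x (f x) := by
  classical
  exact ⟨_, Computable.find hP h, fun x => Nat.find_spec (h x)⟩

theorem re_stage {α : Type} [Primcodable α] {p : α → Prop} (h : REPred p) :
    ∃ c : Code, ∀ a, p a ↔ ∃ s, (Code.evaln s c (Encodable.encode a)).isSome = true := by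
  obtain ⟨c, hc⟩ := Code.exists_code.1 h
  refine ⟨c, fun a => ?_⟩
  have h1 : p a ↔ (Code.eval c (Encodable.encode a)).Dom := by
    rw [hc]
    simp [Part.assert]
  rw [h1, Part.dom_iff_mem]
  constructor
  · rintro ⟨y, hy⟩
    obtain ⟨s, hs⟩ := Code.evaln_complete.1 hy
    exact ⟨s, Option.isSome_iff_exists.2 ⟨y, hs⟩⟩
  · rintro ⟨s, hs⟩
    obtain ⟨y, hy⟩ := Option.isSome_iff_exists.1 hs
    exact ⟨y, Code.evaln_sound hy⟩

theorem re_of_stage {α : Type} [Primcodable α] {p : α → ℕ → Prop}
    (hp : ComputablePred fun q : α × ℕ => p q.1 q.2) : REPred fun a => ∃ s, p a s := by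
  classical
  have h : Partrec (fun x ↦ Nat.rfind fun n => Part.some (decide (p x n))) :=
    Partrec.rfind hp.decide.partrec
  refine h.dom_re.of_eq fun a => ?_
  rw [Nat.rfind_dom]
  simp

theorem finite_patch (N : ℕ) {f : ℕ → ℕ} (hf : Computable f) (g : ℕ → ℕ) :
    Computable fun x => if x < N then g x else f x := by
  have h1 : Computable fun x => ((List.range N).map g).getD x 0 :=
    ((Primrec.list_getD 0).comp (Primrec.const _) Primrec.id).to_comp
  have h2 := ComputablePred.ite h1 hf
    (PrimrecPred.computablePred (Primrec.nat_lt.comp Primrec.id (Primrec.const N)))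
  refine h2.of_eq fun x => ?_
  simp only [id]
  split_ifs with h3
  · rw [List.getD_eq_getElem?_getD, List.getElem?_map, List.getElem?_range h3]
    rfl
  · rfl

theorem red_of_search {β α : ℕ → Set ℕ} (hr : ∀ k, ∃ m, β k = α m) {P : ℕ → ℕ → Prop}
    (hP : ComputablePred fun p : ℕ × ℕ => P p.1 p.2) {ans : ℕ → ℕ} (hans : Computable ans)
    (N : ℕ) (h1 : ∀ k, N ≤ k → ∃ w, P k w) (h2 : ∀ k w, N ≤ k → P k w → β k = α (ans w)) :
    Reducible β α := by
  classical
  have h3 : ComputablePred fun p : ℕ × ℕ => ¬ (¬ p.1 < N ∧ ¬ P p.1 p.2) := by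
    have h4 : ComputablePred fun p : ℕ × ℕ => ¬ p.1 < N :=
      (PrimrecPred.computablePred (Primrec.nat_lt.comp Primrec.fst (Primrec.const N))).not
    have h5 := hP.not
    refine ComputablePred.not ?_
    refine Computable.computablePred ?_
    exact ((Primrec.and.to_comp).comp h4.decide h5.decide).of_eq fun p => by simp
  obtain ⟨f, hf, h4⟩ := search (P := fun k w => ¬ (¬ k < N ∧ ¬ P k w)) h3 (by
    intro x
    by_cases h4 : x < N
    · exact ⟨0, fun h5 => h5.1 h4⟩
    · obtain ⟨w, hw⟩ := h1 x (not_lt.1 h4)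
      exact ⟨w, fun h5 => h5.2 hw⟩)
  choose g hg using hr
  refine ⟨_, finite_patch N (hans.comp hf) g, fun k => ?_⟩
  split_ifs with h5
  · exact hg k
  · refine h2 k _ (not_lt.1 h5) ?_
    by_contra h6
    exact h4 k ⟨h5, h6⟩

/-- positive numberings are minimal -/
theorem positive_min {α ν : ℕ → Set ℕ} (h : IsPositive ν) (hr : ∀ k, ∃ m, ν k = α m)
    (h1 : Reducible α ν) : Reducible ν α := by
  obtain ⟨f, hf, hf'⟩ := h1
  obtain ⟨c, hc⟩ := re_stage h
  -- search for `⟨x, s⟩` such that `ν k = ν (f x)` is seen at stage `s`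
  refine red_of_search (P := fun k w =>
    (Code.evaln w.unpair.2 c (Encodable.encode (k, f w.unpair.1))).isSome = true) hr ?_
    (ans := fun w => w.unpair.1) (Computable.fst.comp Computable.unpair) 0 ?_ ?_
  · have h2 : Computable fun p : ℕ × ℕ =>
        (Code.evaln p.2.unpair.2 c (Encodable.encode (p.1, f p.2.unpair.1))).isSome := by
      refine Primrec.option_isSome.to_comp.comp (Code.primrec_evaln.to_comp.comp
        (((Computable.snd.comp (Computable.unpair.comp Computable.snd)).pair
          (Computable.const c)).pair (Computable.encode.comp (Computable.fst.pair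
            (hf.comp (Computable.fst.comp (Computable.unpair.comp Computable.snd)))))))
    refine Computable.computablePred (h2.of_eq fun p => ?_)
    simp
  · intro k _
    obtain ⟨x, hx⟩ := hr k
    rw [hf'] at hx
    obtain ⟨s, hs⟩ := (hc (k, f x)).1 hx
    refine ⟨Nat.pair x s, ?_⟩
    simpa using hs
  · intro k w _ h2
    have h3 := (hc (k, f w.unpair.1)).2 ⟨_, h2⟩
    rw [hf']
    exact h3

theorem positive_of_red {μ α : ℕ → Set ℕ} (h : IsPositive α) (h1 : Reducible μ α) :
    IsPositive μ := by
  obtain ⟨f, hf, hf'⟩ := h1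
  have h2 : Computable fun p : ℕ × ℕ => (f p.1, f p.2) :=
    (hf.comp Computable.fst).pair (hf.comp Computable.snd)
  have h3 : REPred fun p : ℕ × ℕ => α (f p.1) = α (f p.2) :=
    Partrec.comp (f := fun a : ℕ × ℕ => Part.assert (α a.1 = α a.2) fun _ => Part.some ()) h h2
  exact h3.of_eq fun p => by rw [hf', hf']

theorem nce_of_counter {n : ℕ} {X : Set ℕ} (φ : ℕ → ℕ → ℕ) (hφ : Computable₂ φ)
    (h0 : ∀ z, φ z 0 = 0) (hm : ∀ z s s', s ≤ s' → φ z s ≤ φ z s') (hn : ∀ z s, φ z s ≤ n)
    (hX : ∀ z, z ∈ X ↔ ∀ᶠ s in atTop, φ z s % 2 = 1) : IsNCE n X := by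
  refine ⟨fun z s => decide (φ z s % 2 = 1), ?_, ?_, ?_, ?_⟩
  · have h1 : Computable₂ fun z s => φ z s % 2 :=
      Primrec.nat_mod.to_comp.comp hφ (Computable.const 2)
    exact (Primrec.eq (α := ℕ)).decide.to_comp.comp h1 (Computable.const 1)
  · intro z
    simp [h0]
  · intro z
    have h1 : {s | decide (φ z (s + 1) % 2 = 1) ≠ decide (φ z s % 2 = 1)}.encard ≤
        (Finset.range n : Set ℕ).encard := by
      refine Set.encard_le_encard_of_injOn (f := fun s => φ z s) ?_ ?_
      · intro s hs
        have h2 : φ z s ≠ φ z (s + 1) := by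
          intro h2
          apply hs
          rw [h2]
        have h3 := hm z s (s + 1) (Nat.le_succ s)
        have h4 := hn z (s + 1)
        simp only [Finset.coe_range, Set.mem_Iio]
        omega
      · intro s hs s' hs' h2
        dsimp only at h2
        have key : ∀ s s', s < s' →
            decide (φ z (s + 1) % 2 = 1) ≠ decide (φ z s % 2 = 1) → φ z s < φ z s' := by
          intro s s' h3 h4
          have h5 : φ z s ≠ φ z (s + 1) := by
            intro h2
            apply h4
            rw [h2]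
          have h6 := hm z s (s + 1) (Nat.le_succ s)
          have h7 := hm z (s + 1) s' h3
          omega
        rcases lt_trichotomy s s' with h3 | h3 | h3
        · have := key s s' h3 hs
          omega
        · exact h3
        · have := key s' s h3 hs'
          omega
    refine h1.trans ?_
    rw [Set.encard_coe_eq_coe_finsetCard, Finset.card_range]
  · intro z
    rw [hX, eventually_atTop]
    simp

theorem nce_section {n : ℕ} {α : ℕ → Set ℕ} (h : IsNCE n {w | w.unpair.1 ∈ α w.unpair.2})
    (k : ℕ) : IsNCE n (α k) := by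
  obtain ⟨f, h1, h2, h3, h4⟩ := h
  refine ⟨fun z s => f (Nat.pair z k) s, ?_, fun z => h2 _, fun z => h3 _, fun z => ?_⟩
  · exact h1.comp (Primrec₂.natPair.to_comp.comp Computable.fst (Computable.const k))
      Computable.snd
  · rw [← h4]
    simp

/-- the abstract form of the main theorem -/
theorem main_of {n : ℕ} {A : Set (Set ℕ)} (ν μ : ErshovNumbering n A)
    (h1 : IsPositive ν.toFun) (h2 : ¬ IsPositive μ.toFun) (h3 : ¬ ν ≤ μ)
    (h4 : ∀ α : ErshovNumbering n A, α ≤ ν ∨ μ ≤ α) :
    (∀ X ∈ A, IsNCE n X) ∧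
    (∃ ν : ErshovNumbering n A, IsPositive ν.toFun ∧
      (∀ β : ErshovNumbering n A, IsPositive β.toFun → β ≤ ν ∧ ν ≤ β) ∧
      ¬ ∀ β : ErshovNumbering n A, ν ≤ β) ∧
    {c : Rogers n A | IsMin c}.ncard = 2 := by
  have hr : ∀ α β : ErshovNumbering n A, ∀ k, ∃ m, α.toFun k = β.toFun m := by
    intro α β k
    have h5 : α.toFun k ∈ Set.range β.toFun := by
      rw [β.range_eq.trans α.range_eq.symm]
      exact ⟨k, rfl⟩
    obtain ⟨m, hm⟩ := h5
    exact ⟨m, hm.symm⟩
  have hmin : ∀ α β : ErshovNumbering n A, IsPositive β.toFun → α ≤ β → β ≤ α :=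
    fun α β h5 h6 => positive_min h5 (hr β α) h6
  have hν : IsMin ν := fun α h5 => hmin α ν h1 h5
  have hμ : IsMin μ := by
    intro α h5
    rcases h4 α with h6 | h6
    · exact (h3 ((hν h6).trans h5)).elim
    · exact h6
  refine ⟨?_, ⟨ν, h1, ?_, fun h5 => h3 (h5 μ)⟩, ?_⟩
  · intro X hX
    rw [← ν.range_eq] at hX
    obtain ⟨k, rfl⟩ := hX
    exact nce_section ν.computable k
  · intro β h5
    rcases h4 β with h6 | h6
    · exact ⟨h6, hmin β ν h1 h6⟩
    · exact (h2 (positive_of_red h5 h6)).elim
  · have hmk : ∀ α : ErshovNumbering n A,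
        IsMin (toAntisymmetrization (· ≤ ·) α : Rogers n A) ↔ IsMin α := by
      intro α
      constructor
      · intro h5 β h6
        have h7 : (toAntisymmetrization (· ≤ ·) β : Rogers n A) ≤
            toAntisymmetrization (· ≤ ·) α := toAntisymmetrization_le_toAntisymmetrization_iff.2 h6
        exact toAntisymmetrization_le_toAntisymmetrization_iff.1 (h5 h7)
      · intro h5 c
        induction c using Antisymmetrization.ind with
        | _ β =>
          intro h6
          exact toAntisymmetrization_le_toAntisymmetrization_iff.2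
            (h5 (toAntisymmetrization_le_toAntisymmetrization_iff.1 h6))
    have h5 : {c : Rogers n A | IsMin c} =
        {toAntisymmetrization (· ≤ ·) ν, toAntisymmetrization (· ≤ ·) μ} := by
      ext c
      induction c using Antisymmetrization.ind with
      | _ α =>
        simp only [Set.mem_ofPred_eq, Set.mem_insert_iff, Set.mem_singleton_iff]
        rw [hmk]
        constructor
        · intro h6
          rcases h4 α with h7 | h7
          · left
            exact le_antisymm (toAntisymmetrization_le_toAntisymmetrization_iff.2 h7)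
              (toAntisymmetrization_le_toAntisymmetrization_iff.2 (hν h7))
          · right
            exact le_antisymm (toAntisymmetrization_le_toAntisymmetrization_iff.2 (h6 h7))
              (toAntisymmetrization_le_toAntisymmetrization_iff.2 h7)
        · rintro (h6 | h6)
          · rw [← hmk, h6, hmk]
            exact hν
          · rw [← hmk, h6, hmk]
            exact hμ
    rw [h5, Set.ncard_pair]
    intro h6
    exact h3 (toAntisymmetrization_le_toAntisymmetrization_iff.1 h6.le)

end Pool.Agent.MP5566
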