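import Pool.Agent.Lib.MP_5566a7_lc.Prim

/-!
The computable construction of the run (MP_5566a7_lc).
-/

namespace Pool.Agent.MP5566

open Relation Nat.Partrec

theorem fg_congr {P Q : ℕ → Prop} {i1 : DecidablePred P} {i2 : DecidablePred Q} {n : ℕ}
    (h : ∀ k, k ≤ n → (P k ↔ Q k)) : Nat.findGreatest P n = Nat.findGreatest Q n := by
  induction n with
  | zero => rfl
  | succ n ih =>
    rw [Nat.findGreatest_succ, Nat.findGreatest_succ, ih fun k hk => h k (hk.trans (Nat.le_succ n))]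
    by_cases h1 : P (n + 1)
    · rw [if_pos h1, if_pos ((h _ le_rfl).1 h1)]
    · rw [if_neg h1, if_neg (fun h2 => h1 ((h _ le_rfl).2 h2))]

namespace Sq

variable (n : ℕ) (C : ℕ → ℕ → ℕ → ℕ → ℕ)

/-- the diagonalisation requirement of `t` acts at stage `s` -/
def wD (B : Sq) (s t : ℕ) : Prop :=
  (B.G t % 2 = 0 ∧ Code.evaln s (Denumerable.ofNat Code (B.G t / 2 - 1)) t = some (2 * B.J t)) ∨
  (B.G t % 2 ≠ 0 ∧
    (Code.evaln s (Denumerable.ofNat Code (B.G t / 2))
      (Nat.pair (2 * B.J t) (2 * B.K t))).isSome = true)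

/-- group `g` is occupied at stage `s` -/
def occ (B : Sq) (s g : ℕ) : Prop := ∃ t, t < s ∧ B.live s t ∧ B.G t = g

/-- group `g` wants to act at stage `s` -/
def wnt (B : Sq) (s g : ℕ) : Prop :=
  ∃ t, t < s ∧ B.live s t ∧ B.G t = g ∧ ((B.F t = false ∧ B.wD s t) ∨ B.wU n C s t)

open Classical in
/-- the group which acts at stage `s` -/
noncomputable def ngr (B : Sq) (s : ℕ) : ℕ :=
  Nat.findGreatest (fun g => ∀ g', g' < g → ¬ (¬ B.occ s g' ∨ B.wnt n C s g')) s

open Classical in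
/-- the live block of group `g` -/
noncomputable def blg (B : Sq) (s g : ℕ) : ℕ :=
  Nat.findGreatest (fun t => t < s ∧ B.live s t ∧ B.G t = g) s

open Classical in
/-- the block from which `t` takes over a lineage -/
noncomputable def tgt (B : Sq) (s t : ℕ) : ℕ :=
  Nat.findGreatest (fun t' => t' < s ∧ B.wU' n C s t t') s

open Classical in
/-- the next block, in group `g`, coming from `t` -/
noncomputable def nxa (B : Sq) (s g t : ℕ) : ℕ × ℕ × ℕ × Bool :=
  if ¬ B.occ s g then (g, 2 * s, (if g % 2 = 0 then 2 * s else 2 * s + 1), false)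
  else if B.F t = false ∧ B.wD s t then
    (g, B.best n C s g t, B.best n C s g t, true)
  else (g, B.best n C s g (B.tgt n C s t),
    (if g % 2 = 0 then B.best n C s g (B.tgt n C s t) else B.best n C s g t), false)

/-- the next block -/
noncomputable def nxt (B : Sq) (s : ℕ) : ℕ × ℕ × ℕ × Bool :=
  B.nxa n C s (B.ngr n C s) (B.blg s (B.ngr n C s))

/-- `B` follows the construction -/
def Follows (B : Sq) : Prop := ∀ s, (B.G s, B.J s, B.K s, B.F s) = B.nxt n C s

variable {n C} {B : Sq}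

theorem nxt_fst (s : ℕ) : (B.nxt n C s).1 = B.ngr n C s := by
  unfold nxt nxa
  split_ifs <;> rfl

theorem Follows.G_eq (h : B.Follows n C) (s : ℕ) : B.G s = B.ngr n C s := by
  have h1 := congrArg Prod.fst (h s)
  rwa [nxt_fst] at h1

theorem Follows.G_le (h : B.Follows n C) (s : ℕ) : B.G s ≤ s := by
  classical
  rw [h.G_eq]
  exact Nat.findGreatest_le _

theorem ngr_min {s g : ℕ} (h : g < B.ngr n C s) : B.occ s g ∧ ¬ B.wnt n C s g := by
  classical
  have h1 := Nat.findGreatest_spec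
    (P := fun g => ∀ g', g' < g → ¬ (¬ B.occ s g' ∨ B.wnt n C s g')) (Nat.zero_le s)
    (fun g' hg' => absurd hg' (Nat.not_lt_zero _)) g
  have h2 := h1 (by
    unfold ngr at h
    convert h)
  push Not at h2
  exact h2

theorem ngr_act (h : B.Follows n C) (s : ℕ) :
    ¬ B.occ s (B.ngr n C s) ∨ B.wnt n C s (B.ngr n C s) := by
  classical
  by_cases h1 : B.ngr n C s < s
  · have h2 : ¬ ∀ g', g' < B.ngr n C s + 1 → ¬ (¬ B.occ s g' ∨ B.wnt n C s g') := by
      refine Nat.findGreatest_is_greatest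
        (P := fun g => ∀ g', g' < g → ¬ (¬ B.occ s g' ∨ B.wnt n C s g')) (n := s) ?_ h1
      unfold ngr
      exact Nat.lt_succ_self _
    rw [not_forall] at h2
    obtain ⟨g', h2⟩ := h2
    rw [Classical.not_imp, not_not] at h2
    obtain ⟨h3, h4⟩ := h2
    rcases Nat.lt_succ_iff_lt_or_eq.1 h3 with h5 | h5
    · obtain ⟨h6, h7⟩ := ngr_min h5
      rcases h4 with h4 | h4
      · exact (h4 h6).elim
      · exact (h7 h4).elim
    · rwa [h5] at h4
  · left
    rintro ⟨t, h2, _, h3⟩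
    have := h.G_le t
    omega

theorem Follows.run (h : B.Follows n C) : B.Run n C B.wD where
  r1 := by
    intro s g h1
    rw [h.G_eq] at h1
    obtain ⟨⟨t, h2, h3, h4⟩, h5⟩ := ngr_min h1
    refine ⟨t, h3, h4, fun h6 => h5 ⟨t, h2, h3, h4, Or.inl h6⟩,
      fun h6 => h5 ⟨t, h2, h3, h4, Or.inr h6⟩⟩
  r2 := by
    classical
    intro s
    have h1 := h s
    have hG := h.G_eq s
    unfold nxt nxa at h1
    by_cases h2 : B.occ s (B.ngr n C s)
    · rw [if_neg (not_not.2 h2)] at h1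
      right
      have h3 : B.live s (B.blg s (B.ngr n C s)) ∧
          B.G (B.blg s (B.ngr n C s)) = B.ngr n C s := by
        obtain ⟨t, h4, h5, h6⟩ := h2
        exact (Nat.findGreatest_spec
          (P := fun t => t < s ∧ B.live s t ∧ B.G t = B.ngr n C s) h4.le ⟨h4, h5, h6⟩).2
      generalize B.blg s (B.ngr n C s) = t at h1 h3
      obtain ⟨h3, h4⟩ := h3
      rw [← hG] at h1 h4
      by_cases h5 : B.F t = false ∧ B.wD s t
      · rw [if_pos h5] at h1
        left
        simp only [Prod.mk.injEq] at h1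
        exact ⟨t, h3, h4, h5.1, h5.2, h1.2.1, h1.2.2.1, h1.2.2.2⟩
      · rw [if_neg h5] at h1
        right
        have h6 : B.wU n C s t := by
          rcases ngr_act h s with h6 | ⟨t', _, h7, h8, h9⟩
          · exact (h6 h2).elim
          · have h10 := h7.G_inj h3 (by rw [h8, h4, hG])
            rw [h10] at h9
            rcases h9 with h9 | h9
            · exact (h5 h9).elim
            · exact h9
        have h7 : B.wU' n C s t (B.tgt n C s t) := by
          obtain ⟨t', h8⟩ := h6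
          exact (Nat.findGreatest_spec (P := fun t' => t' < s ∧ B.wU' n C s t t') h8.1.1.le
            ⟨h8.1.1, h8⟩).2
        simp only [Prod.mk.injEq] at h1
        exact ⟨t, _, h3, h4, h7, h1.2.1, h1.2.2.1, h1.2.2.2⟩
    · rw [if_pos h2, ← hG] at h1
      left
      simp only [Prod.mk.injEq] at h1
      refine ⟨fun t h3 h4 => h2 ⟨t, h3.1, h3, by rw [h4, hG]⟩, h1.2.1, h1.2.2.1, h1.2.2.2⟩

section locality

/-- the sequences agree below `N` -/
def Ag (B B' : Sq) (N : ℕ) : Prop :=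
  ∀ t, t < N → B.G t = B'.G t ∧ B.J t = B'.J t ∧ B.K t = B'.K t ∧ B.F t = B'.F t

variable {B' : Sq} {N : ℕ} (hA : Ag B B' N)
include hA

theorem ag_live {s t : ℕ} (hs : s ≤ N) : B.live s t ↔ B'.live s t := by
  unfold live
  constructor
  · rintro ⟨h1, h2⟩
    refine ⟨h1, fun t' h3 h4 => ?_⟩
    rw [← (hA t (by omega)).1, ← (hA t' (by omega)).1]
    exact h2 t' h3 h4
  · rintro ⟨h1, h2⟩
    refine ⟨h1, fun t' h3 h4 => ?_⟩
    rw [(hA t (by omega)).1, (hA t' (by omega)).1]
    exact h2 t' h3 h4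

theorem ag_mem {l t : ℕ} (ht : t < N) : B.mem l t ↔ B'.mem l t := by
  unfold mem
  rw [(hA t ht).2.1, (hA t ht).2.2.1]

theorem ag_chl {l t c : ℕ} (hc : c < N) : B.chl l t c ↔ B'.chl l t c := by
  unfold chl
  rw [ag_live hA hc.le, ag_mem hA hc]
  constructor
  · rintro ⟨h1, h2, h3⟩
    exact ⟨h1, (ag_mem hA (h1.1.trans hc)).1 h2, h3⟩
  · rintro ⟨h1, h2, h3⟩
    exact ⟨h1, (ag_mem hA (h1.1.trans hc)).2 h2, h3⟩

theorem ag_ls {s b : ℕ} (hs : s ≤ N) : B.ls s b = B'.ls s b := by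
  unfold ls
  exact fg_congr fun k hk => ag_live hA (hk.trans hs)

theorem ag_bt {s l e : ℕ} (hs : s ≤ N) : B.bt n C s l e ↔ B'.bt n C s l e := by
  unfold bt bond rg
  constructor
  · rintro ⟨x, h1, b, h2, c, h3, h4, h5, h6⟩
    refine ⟨x, h1, b, h2, c, h3, (ag_chl hA (by omega)).1 h4, ?_, h6⟩
    rwa [← ag_ls hA hs]
  · rintro ⟨x, h1, b, h2, c, h3, h4, h5, h6⟩
    refine ⟨x, h1, b, h2, c, h3, (ag_chl hA (by omega)).2 h4, ?_, h6⟩
    rwa [ag_ls hA hs]

theorem ag_sc {s l g : ℕ} (hs : s ≤ N) : B.sc n C s l g = B'.sc n C s l g := by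
  induction g with
  | zero => rfl
  | succ g ih =>
    rw [sc, sc, ih]
    by_cases h1 : B.bt n C s l g
    · rw [if_pos h1, if_pos ((ag_bt hA hs).1 h1)]
    · rw [if_neg h1, if_neg (fun h2 => h1 ((ag_bt hA hs).2 h2))]

theorem ag_best {s g t : ℕ} (hs : s ≤ N) (ht : t < N) :
    B.best n C s g t = B'.best n C s g t := by
  unfold best
  rw [ag_sc hA hs, ag_sc hA hs, (hA t ht).2.1, (hA t ht).2.2.1]

theorem ag_wU' {s t t' : ℕ} (hs : s ≤ N) (ht : t < N) :
    B.wU' n C s t t' ↔ B'.wU' n C s t t' := by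
  by_cases h1 : t' < s
  · have h2 := hA t ht
    have h3 := hA t' (by omega)
    unfold wU' lo hi
    rw [ag_live hA hs, ag_sc hA hs, ag_sc hA hs, ag_sc hA hs, ag_sc hA hs, h2.1, h2.2.1, h2.2.2.1,
      h3.1, h3.2.1, h3.2.2.1]
  · constructor
    · intro h2
      exact (h1 h2.1.1).elim
    · intro h2
      exact (h1 h2.1.1).elim

theorem ag_wU {s t : ℕ} (hs : s ≤ N) (ht : t < N) : B.wU n C s t ↔ B'.wU n C s t := by
  unfold wU
  constructor
  · rintro ⟨t', h⟩
    exact ⟨t', (ag_wU' hA hs ht).1 h⟩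
  · rintro ⟨t', h⟩
    exact ⟨t', (ag_wU' hA hs ht).2 h⟩

theorem ag_wD {s t : ℕ} (ht : t < N) : B.wD s t ↔ B'.wD s t := by
  unfold wD
  rw [(hA t ht).1, (hA t ht).2.1, (hA t ht).2.2.1]

theorem ag_occ {s g : ℕ} (hs : s ≤ N) : B.occ s g ↔ B'.occ s g := by
  unfold occ
  constructor
  · rintro ⟨t, h1, h2, h3⟩
    refine ⟨t, h1, (ag_live hA hs).1 h2, ?_⟩
    rw [← (hA t (by omega)).1]; exact h3
  · rintro ⟨t, h1, h2, h3⟩
    refine ⟨t, h1, (ag_live hA hs).2 h2, ?_⟩
    rw [(hA t (by omega)).1]; exact h3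

theorem ag_wnt {s g : ℕ} (hs : s ≤ N) : B.wnt n C s g ↔ B'.wnt n C s g := by
  unfold wnt
  constructor
  · rintro ⟨t, h1, h2, h3, h4⟩
    refine ⟨t, h1, (ag_live hA hs).1 h2, ?_, ?_⟩
    · rw [← (hA t (by omega)).1]; exact h3
    · rw [← ag_wD hA (by omega), ← ag_wU hA hs (by omega), ← (hA t (by omega)).2.2.2]
      exact h4
  · rintro ⟨t, h1, h2, h3, h4⟩
    refine ⟨t, h1, (ag_live hA hs).2 h2, ?_, ?_⟩
    · rw [(hA t (by omega)).1]; exact h3
    · rw [ag_wD hA (by omega), ag_wU hA hs (by omega), (hA t (by omega)).2.2.2]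
      exact h4

theorem ag_ngr {s : ℕ} (hs : s ≤ N) : B.ngr n C s = B'.ngr n C s := by
  unfold ngr
  refine fg_congr fun k _ => ?_
  constructor
  · intro h1 g' h2
    rw [← ag_occ hA hs, ← ag_wnt hA hs]
    exact h1 g' h2
  · intro h1 g' h2
    rw [ag_occ hA hs, ag_wnt hA hs]
    exact h1 g' h2

theorem ag_blg {s g : ℕ} (hs : s ≤ N) : B.blg s g = B'.blg s g := by
  unfold blg
  refine fg_congr fun k _ => ?_
  constructor
  · rintro ⟨h1, h2, h3⟩
    exact ⟨h1, (ag_live hA hs).1 h2, by rw [← (hA k (by omega)).1]; exact h3⟩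
  · rintro ⟨h1, h2, h3⟩
    exact ⟨h1, (ag_live hA hs).2 h2, by rw [(hA k (by omega)).1]; exact h3⟩

theorem ag_tgt {s t : ℕ} (hs : s ≤ N) (ht : t < N) : B.tgt n C s t = B'.tgt n C s t := by
  unfold tgt
  refine fg_congr fun k _ => ?_
  rw [ag_wU' hA hs ht]

end locality

theorem blg_lt {s g : ℕ} (h : B.occ s g) : B.blg s g < s := by
  classical
  obtain ⟨t, h4, h5, h6⟩ := h
  exact (Nat.findGreatest_spec
    (P := fun t => t < s ∧ B.live s t ∧ B.G t = g) h4.le ⟨h4, h5, h6⟩).1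

theorem tgt_lt {s t : ℕ} (hs : 0 < s) : B.tgt n C s t < s := by
  classical
  unfold tgt
  rcases Nat.eq_zero_or_pos (Nat.findGreatest (fun t' => t' < s ∧ B.wU' n C s t t') s) with h | h
  · rw [h]; exact hs
  · have := Nat.findGreatest_of_ne_zero
      (P := fun t' => t' < s ∧ B.wU' n C s t t') (n := s) rfl h.ne'
    exact this.1

theorem ag_nxt {B' : Sq} {s : ℕ} (hA : Ag B B' s) : B.nxt n C s = B'.nxt n C s := by
  unfold nxt
  rw [ag_ngr hA le_rfl, ag_blg hA le_rfl]
  generalize hg : B'.ngr n C s = g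
  have h1 : B'.occ s g → B'.blg s g < s := blg_lt
  generalize ht : B'.blg s g = t at h1
  unfold nxa
  by_cases h2 : B'.occ s g
  · rw [if_neg (not_not.2 h2), if_neg (not_not.2 ((ag_occ hA le_rfl).2 h2))]
    have h3 := h1 h2
    have h4 : 0 < s := by omega
    rw [ag_tgt hA le_rfl h3, ag_best hA le_rfl h3, ag_best hA le_rfl (tgt_lt h4)]
    by_cases h5 : B'.F t = false ∧ B'.wD s t
    · rw [if_pos h5, if_pos]
      rw [(hA t h3).2.2.2, ag_wD hA h3]
      exact h5
    · rw [if_neg h5, if_neg]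
      rw [(hA t h3).2.2.2, ag_wD hA h3]
      exact h5
  · rw [if_pos h2, if_pos (fun h3 => h2 ((ag_occ hA le_rfl).1 h3))]

end Sq

/-- decoding a list of blocks -/
def ofL (h : List (ℕ × ℕ × ℕ × Bool)) : Sq where
  G t := (h.getD t (0, 0, 0, false)).1
  J t := (h.getD t (0, 0, 0, false)).2.1
  K t := (h.getD t (0, 0, 0, false)).2.2.1
  F t := (h.getD t (0, 0, 0, false)).2.2.2

variable (n : ℕ) (C : ℕ → ℕ → ℕ → ℕ → ℕ)

/-- the history of the construction -/
noncomputable def hist : ℕ → List (ℕ × ℕ × ℕ × Bool)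
  | 0 => []
  | s + 1 => hist s ++ [(ofL (hist s)).nxt n C (hist s).length]

/-- the block created at stage `s` -/
noncomputable def blk (s : ℕ) : ℕ × ℕ × ℕ × Bool := (ofL (hist n C s)).nxt n C s

/-- the sequence of the construction -/
noncomputable def sq : Sq where
  G t := (blk n C t).1
  J t := (blk n C t).2.1
  K t := (blk n C t).2.2.1
  F t := (blk n C t).2.2.2

theorem hist_eq (s : ℕ) : hist n C s = (List.range s).map (blk n C) := by
  induction s with
  | zero => rfl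
  | succ s ih =>
    rw [hist, List.range_succ, List.map_append, ← ih]
    have h1 : (hist n C s).length = s := by rw [ih]; simp
    rw [h1]
    rfl

theorem sq_ag (s : ℕ) : Sq.Ag (sq n C) (ofL (hist n C s)) s := by
  intro t ht
  have h1 : (hist n C s).getD t (0, 0, 0, false) = blk n C t := by
    rw [hist_eq, List.getD_eq_getElem?_getD, List.getElem?_map, List.getElem?_range ht]
    rfl
  refine ⟨?_, ?_, ?_, ?_⟩ <;> simp only [ofL, sq, h1]

theorem sq_follows : (sq n C).Follows n C := by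
  intro s
  rw [Sq.ag_nxt (sq_ag n C s)]
  rfl

theorem sq_run : (sq n C).Run n C (sq n C).wD := (sq_follows n C).run

end Pool.Agent.MP5566
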