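import Pool.Agent.Lib.MP_5566a7_lc.Root

/-!
Counters of the markers (MP_5566a7_lc).  `C e x z s` is the number of changes which the
`e`-th opponent has made on `z ∈ α_e(x)` by stage `s`.
-/

namespace Pool.Agent.MP5566

open Relation

/-- properties of the change counter of the opponents -/
structure Cnt (n : ℕ) (C : ℕ → ℕ → ℕ → ℕ → ℕ) : Prop where
  le : ∀ e x z s, C e x z s ≤ n
  mono : ∀ e x z s s', s ≤ s' → C e x z s ≤ C e x z s'
  zero : ∀ e x z, C e x z 0 = 0
  bd : ∀ e x z s, 0 < C e x z s → x < s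

/-- the marker with type `i`, column `e`, block `b` and argument `x` -/
def mkr (i e b x : ℕ) : ℕ := Nat.pair (Nat.pair i e) (Nat.pair b x)

/-- type of a marker -/
def zi (z : ℕ) : ℕ := z.unpair.1.unpair.1
/-- column of a marker -/
def ze (z : ℕ) : ℕ := z.unpair.1.unpair.2
/-- block of a marker -/
def zb (z : ℕ) : ℕ := z.unpair.2.unpair.1
/-- argument of a marker -/
def zx (z : ℕ) : ℕ := z.unpair.2.unpair.2

@[simp] theorem zi_mkr (i e b x : ℕ) : zi (mkr i e b x) = i := by simp [zi, mkr]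
@[simp] theorem ze_mkr (i e b x : ℕ) : ze (mkr i e b x) = e := by simp [ze, mkr]
@[simp] theorem zb_mkr (i e b x : ℕ) : zb (mkr i e b x) = b := by simp [zb, mkr]
@[simp] theorem zx_mkr (i e b x : ℕ) : zx (mkr i e b x) = x := by simp [zx, mkr]
theorem mkr_z (z : ℕ) : mkr (zi z) (ze z) (zb z) (zx z) = z := by simp [mkr, zi, ze, zb, zx]

open Classical in
/-- counter of a marker which should lie in the sets satisfying `P`, when the opponent has made
`k` changes -/
noncomputable def cP (n : ℕ) (P : Prop) (k : ℕ) : ℕ :=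
  if P then min (k + 1) n else if k = n ∧ n % 2 = 0 then 1 else 0

theorem cP_le {n : ℕ} (hn : 2 ≤ n) (P : Prop) (k : ℕ) : cP n P k ≤ n := by
  unfold cP; split_ifs <;> omega

theorem cP_mono {n : ℕ} (hn : 2 ≤ n) {P P' : Prop} {k k' : ℕ} (h : P → P') (h1 : k ≤ k')
    (h2 : k' ≤ n) : cP n P k ≤ cP n P' k' := by
  unfold cP
  by_cases hP : P
  · rw [if_pos hP, if_pos (h hP)]; omega
  · rw [if_neg hP]
    split_ifs <;> omega

namespace Sq

variable (B : Sq)

open Classical in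
/-- the last stage by `s` at which `b` is live -/
noncomputable def ls (s b : ℕ) : ℕ := Nat.findGreatest (fun s1 => B.live s1 b) s

open Classical in
/-- the last block before `s` containing `l` -/
noncomputable def loc (s l : ℕ) : ℕ := Nat.findGreatest (fun t => t < s ∧ B.mem l t) s

/-- by stage `s`, while `b` was live, opponent `e` has exhausted its changes on the markers
for `(b,x)` -/
def rg (n : ℕ) (C : ℕ → ℕ → ℕ → ℕ → ℕ) (s e b x : ℕ) : Prop :=
  C e x (mkr 2 e b x) (B.ls s b) = n ∧ C e x (mkr 0 e b x) (B.ls s b) = n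

open Classical in
/-- counter of the markers of type 2 -/
noncomputable def cM (n : ℕ) (C : ℕ → ℕ → ℕ → ℕ → ℕ) (s r e b x : ℕ) : ℕ :=
  if ¬ B.De s b r then 0
  else if ¬ B.rg n C s e b x then min (C e x (mkr 2 e b x) (B.ls s b) + 1) n
  else if B.rt s b = r then n
  else if B.XL s b ∧ B.live s r then n - 2
  else n - 1

open Classical in
/-- counter of the marker `z` in the set of the root `r` at stage `s` -/
noncomputable def ctr (n : ℕ) (C : ℕ → ℕ → ℕ → ℕ → ℕ) (s r z : ℕ) : ℕ :=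
  if zi z = 0 then cP n (B.De s (zb z) r) (C (ze z) (zx z) z s)
  else if zi z = 1 then cP n (B.exd s (zb z) ∧ B.rt s (zb z) = r) (C (ze z) (zx z) z s)
  else if zi z = 2 then B.cM n C s r (ze z) (zb z) (zx z)
  else 0

/-- `l` is a lineage that is really used -/
def real (l : ℕ) : Prop := B.mem l (l / 2)

variable {B}

open Classical in
theorem ls_le (s b : ℕ) : B.ls s b ≤ s := Nat.findGreatest_le _

open Classical in
theorem le_ls {s s1 b : ℕ} (h : B.live s1 b) (h1 : s1 ≤ s) : s1 ≤ B.ls s b :=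
  Nat.le_findGreatest h1 h

theorem live_ls {s b : ℕ} (h : 0 < B.ls s b) : B.live (B.ls s b) b := by
  classical
  exact Nat.findGreatest_of_ne_zero (P := fun s1 => B.live s1 b) (n := s) rfl h.ne'

theorem ls_mono {s s' b : ℕ} (h : s ≤ s') : B.ls s b ≤ B.ls s' b := by
  rcases Nat.eq_zero_or_pos (B.ls s b) with h1 | h1
  · omega
  · exact le_ls (live_ls h1) ((ls_le s b).trans h)

theorem ls_of_live {s b : ℕ} (h : B.live s b) : B.ls s b = s :=
  le_antisymm (ls_le s b) (le_ls h le_rfl)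

theorem lt_ls {s b : ℕ} (h : b < s) : b < B.ls s b :=
  le_ls (live_self b) h

theorem ls_new {s s' b : ℕ} (h : B.ls s b ≠ B.ls s' b) (h1 : s ≤ s') :
    ∃ s2, s < s2 ∧ s2 ≤ s' ∧ B.live s2 b := by
  have h2 : B.ls s b < B.ls s' b := lt_of_le_of_ne (ls_mono h1) h
  have h3 : B.live (B.ls s' b) b := live_ls (by omega)
  refine ⟨B.ls s' b, ?_, ls_le s' b, h3⟩
  by_contra h4
  push Not at h4
  have := le_ls h3 h4
  omega

theorem rg_mono {n : ℕ} {C : ℕ → ℕ → ℕ → ℕ → ℕ} (hC : Cnt n C) {s s' e b x : ℕ} (h : s ≤ s')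
    (h1 : B.rg n C s e b x) : B.rg n C s' e b x := by
  obtain ⟨h2, h3⟩ := h1
  have h4 := hC.mono e x (mkr 2 e b x) _ _ (ls_mono (B := B) (b := b) h)
  have h5 := hC.mono e x (mkr 0 e b x) _ _ (ls_mono (B := B) (b := b) h)
  have h6 := hC.le e x (mkr 2 e b x) (B.ls s' b)
  have h7 := hC.le e x (mkr 0 e b x) (B.ls s' b)
  exact ⟨by omega, by omega⟩

open Classical in
theorem loc_le (s l : ℕ) : B.loc s l ≤ s := Nat.findGreatest_le _

open Classical in
theorem le_loc {s l t : ℕ} (h : t < s) (h1 : B.mem l t) : t ≤ B.loc s l :=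
  Nat.le_findGreatest h.le ⟨h, h1⟩

theorem loc_spec {s l t : ℕ} (h : t < s) (h1 : B.mem l t) :
    B.loc s l < s ∧ B.mem l (B.loc s l) := by
  classical
  unfold loc
  exact Nat.findGreatest_spec (P := fun t => t < s ∧ B.mem l t) h.le ⟨h, h1⟩

theorem loc_mono {s s' l : ℕ} (h : s ≤ s') : B.loc s l ≤ B.loc s' l := by
  by_cases h1 : ∃ t, t < s ∧ B.mem l t
  · obtain ⟨t, h2, h3⟩ := h1
    obtain ⟨h4, h5⟩ := loc_spec h2 h3
    exact le_loc (h4.trans_le h) h5
  · have : B.loc s l = 0 := by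
      classical
      unfold loc
      rw [Nat.findGreatest_eq_zero_iff]
      intro k _ _ h4
      exact h1 ⟨k, h4⟩
    omega

end Sq

namespace Org

open Sq

variable {B : Sq}

theorem loc_of_live (h : Org B) {s l t : ℕ} (h1 : B.live s t) (h2 : B.mem l t) :
    B.loc s l = t := by
  obtain ⟨h3, h4⟩ := loc_spec h1.1 h2
  have h5 := le_loc h1.1 h2
  rcases h5.eq_or_lt with h6 | h6
  · exact h6.symm
  · exact (h.no_mem_of_live h1 h2 h6 h3 h4).elim

theorem loc_dead (h : Org B) {s s' l : ℕ} (h1 : ¬ B.ll s l) (h2 : B.real l) (h3 : l / 2 < s)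
    (h4 : s ≤ s') : B.loc s' l = B.loc s l := by
  obtain ⟨h5, h6⟩ := loc_spec (h3.trans_le h4) h2
  have h7 := loc_mono (B := B) (l := l) h4
  rcases h7.eq_or_lt with h8 | h8
  · exact h8.symm
  · exfalso
    have h9 : s ≤ B.loc s' l := by
      by_contra h10
      push Not at h10
      have := le_loc h10 h6
      omega
    obtain ⟨t, h10, _, h11⟩ := h.org' h6 (h3.trans_le h9)
    exact h1 (h.ll_down ⟨t, h10, h11⟩ h3 h9)

theorem loc_live (h : Org B) {s l : ℕ} (h1 : B.ll s l) : B.live s (B.loc s l) := by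
  obtain ⟨t, h2, h3⟩ := h1
  rw [h.loc_of_live h2 h3]
  exact h2

theorem Chd_ls (h : Org B) {s b c : ℕ} (h1 : B.Chd b c) : B.ls s b ≤ c := by
  rcases Nat.eq_zero_or_pos (B.ls s b) with h2 | h2
  · omega
  · by_contra h3
    push Not at h3
    exact h.not_live_of_Chd h1 h3 (live_ls h2)

theorem XL_of_chain {s l b t : ℕ} (h1 : ReflTransGen (B.chl l) b t) (h2 : b ≠ t)
    (h3 : t < s) (h4 : B.ll s l) : B.XL s b := by
  rcases ReflTransGen.cases_head h1 with h5 | ⟨c, h5, h6⟩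
  · exact (h2 h5).elim
  · exact ⟨c, (Desc_le (chain_Desc h6)).trans_lt h3, l, h5, h4⟩

variable {n : ℕ} {C : ℕ → ℕ → ℕ → ℕ → ℕ}

/-- when the exhaustion of `(b,x)` happens between `s` and `s'`, `b` has no proper descendant
at stage `s` -/
theorem rg_new (h : Org B) {s s' e b x r : ℕ} (h1 : s ≤ s') (h2 : ¬ B.rg n C s e b x)
    (h3 : B.rg n C s' e b x) (h4 : B.De s b r) : r = b ∧ B.live s b := by
  have h5 : B.ls s b ≠ B.ls s' b := by
    intro h5
    apply h2
    unfold rg at *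
    rw [h5]
    exact h3
  obtain ⟨s2, h6, h7, h8⟩ := ls_new h5 h1
  have h9 := h.eq_of_De_live h4 h8 h6.le
  subst h9
  exact ⟨rfl, h8.down h4.1 h6.le⟩

theorem ctr_zero (hC : Cnt n C) (hn : 2 ≤ n) (r z : ℕ) : B.ctr n C 0 r z = 0 := by
  have h1 : ∀ b r, ¬ B.De 0 b r := fun b r h2 => Nat.not_lt_zero _ h2.1
  have h2 : ∀ b, ¬ B.exd 0 b := fun b ⟨c, h2, _⟩ => Nat.not_lt_zero _ h2
  unfold ctr cP cM
  simp only [h1, h2, hC.zero, not_false_eq_true, if_true, if_false, false_and]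
  split_ifs <;> omega

theorem ctr_le (hn : 2 ≤ n) (s r z : ℕ) : B.ctr n C s r z ≤ n := by
  unfold ctr cM
  split_ifs <;> first | exact cP_le hn _ _ | omega

/-- the counters along a path of locations are monotone -/
theorem ctr_mono_aux (hC : Cnt n C) (hn : 2 ≤ n) {s s' r r' z : ℕ} (h1 : s ≤ s')
    (h2 : ∀ b, B.De s b r → B.De s' b r')
    (h3 : ∀ b, B.exd s b → B.rt s b = r → B.rt s' b = r')
    (h4 : zi z = 2 → B.De s (zb z) r → B.rg n C s' (ze z) (zb z) (zx z) →
      ¬ B.rg n C s (ze z) (zb z) (zx z) → B.rt s' (zb z) = r')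
    (h5 : zi z = 2 → B.De s (zb z) r → B.rg n C s (ze z) (zb z) (zx z) →
      B.rt s (zb z) = r → B.rt s' (zb z) = r')
    (h6 : zi z = 2 → B.De s (zb z) r → B.rg n C s (ze z) (zb z) (zx z) →
      B.rt s' (zb z) ≠ r' → B.XL s' (zb z) → B.live s' r' → B.XL s (zb z) ∧ B.live s r) :
    B.ctr n C s r z ≤ B.ctr n C s' r' z := by
  unfold ctr
  have hk := hC.mono (ze z) (zx z) z s s' h1
  have hk' := hC.le (ze z) (zx z) z s'
  by_cases hz0 : zi z = 0
  · rw [if_pos hz0, if_pos hz0]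
    exact cP_mono hn (h2 _) hk hk'
  rw [if_neg hz0, if_neg hz0]
  by_cases hz1 : zi z = 1
  · rw [if_pos hz1, if_pos hz1]
    exact cP_mono hn (fun h7 => ⟨h7.1.mono h1, h3 _ h7.1 h7.2⟩) hk hk'
  rw [if_neg hz1, if_neg hz1]
  by_cases hz2 : zi z = 2
  swap
  · rw [if_neg hz2]; exact Nat.zero_le _
  rw [if_pos hz2, if_pos hz2]
  unfold cM
  by_cases hD : B.De s (zb z) r
  swap
  · rw [if_pos hD]; exact Nat.zero_le _
  have hD' := h2 _ hD
  rw [if_neg (not_not.2 hD), if_neg (not_not.2 hD')]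
  by_cases hr' : B.rg n C s' (ze z) (zb z) (zx z)
  · rw [if_neg (c := ¬ B.rg n C s' (ze z) (zb z) (zx z)) (not_not.2 hr')]
    by_cases hr : B.rg n C s (ze z) (zb z) (zx z)
    · rw [if_neg (c := ¬ B.rg n C s (ze z) (zb z) (zx z)) (not_not.2 hr)]
      by_cases h7 : B.rt s (zb z) = r
      · rw [if_pos h7, if_pos (h5 hz2 hD hr h7)]
      · rw [if_neg h7]
        by_cases h8 : B.rt s' (zb z) = r'
        · rw [if_pos h8]; split_ifs <;> omega
        · rw [if_neg h8]
          by_cases h9 : B.XL s' (zb z) ∧ B.live s' r'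
          · rw [if_pos h9, if_pos (h6 hz2 hD hr h8 h9.1 h9.2)]
          · rw [if_neg h9]; split_ifs <;> omega
    · rw [if_pos hr, if_pos (h4 hz2 hD hr' hr)]
      omega
  · have hr : ¬ B.rg n C s (ze z) (zb z) (zx z) := fun hr => hr' (rg_mono hC h1 hr)
    rw [if_pos hr, if_pos hr']
    have := hC.mono (ze z) (zx z) (mkr 2 (ze z) (zb z) (zx z)) _ _
      (ls_mono (B := B) (b := zb z) h1)
    omega

/-- the counters of `ν` are monotone -/
theorem ctr_mono_nu (h : Org B) (hC : Cnt n C) (hn : 2 ≤ n) {s s' : ℕ} (h1 : s ≤ s')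
    (c z : ℕ) : B.ctr n C s (B.rt s c) z ≤ B.ctr n C s' (B.rt s' c) z := by
  refine ctr_mono_aux hC hn h1 ?_ ?_ ?_ ?_ ?_
  · intro b h2
    have := h.De_mono (s' := s') h2 ReflTransGen.refl (h2.1.trans_le h1)
    rwa [h.rt_mono h1] at this
  · intro b _ h3
    exact h.rt_eq_mono h1 h3
  · intro _ h2 h3 h4
    obtain ⟨h5, h6⟩ := h.rg_new h1 h4 h3 h2
    exact h.rt_eq_mono h1 ((h.rt_of_live h6).trans h5.symm)
  · intro _ _ _ h3
    exact h.rt_eq_mono h1 h3
  · intro _ h2 _ h4 h5 h6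
    have h7 : c = B.rt s' c := h.eq_of_rt_live h6 rfl
    have h8 : c < s := (h.le_rt s c).trans_lt h2.1
    have h9 : B.live s c := by
      rw [← h7] at h6
      exact h6.down h8 h1
    have h10 : B.rt s c = c := h.rt_of_live h9
    refine ⟨?_, by rw [h10]; exact h9⟩
    have h11 : ReflTransGen B.Chd (zb z) c := by
      have := h2.2
      rwa [h10] at this
    rcases ReflTransGen.cases_head h11 with h12 | ⟨d, h12, h13⟩
    · rw [h12] at h4
      exact (h4 rfl).elim
    · exact h.XL_down h5 h1 h12 ((Desc_le h13).trans_lt h8)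

end Org

end Pool.Agent.MP5566
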