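import Mathlib

/-!
Definitions for the statement of MP_5566a7_lc: the Ershov hierarchy, numberings, reducibility,
positivity and the Rogers semilattice.
-/

namespace Pool.Agent.MP5566

/-- `X ⊆ ω` is `n`-c.e., i.e. `X ∈ Σ⁻¹ₙ`: there is a computable `f` with `f z 0 = false`, with
at most `n` changes on every `z`, and whose limit on `z` decides whether `z ∈ X`. -/
def IsNCE (n : ℕ) (X : Set ℕ) : Prop :=
  ∃ f : ℕ → ℕ → Bool, Computable₂ f ∧ (∀ z, f z 0 = false) ∧
    (∀ z, {s | f z (s + 1) ≠ f z s}.encard ≤ n) ∧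
    ∀ z, z ∈ X ↔ ∃ s₀, ∀ s, s₀ ≤ s → f z s = true

/-- `β ≤ α`: `β = α ∘ f` for some computable `f`. -/
def Reducible (β α : ℕ → Set ℕ) : Prop :=
  ∃ f : ℕ → ℕ, Computable f ∧ ∀ k, β k = α (f k)

/-- `α` is positive: `{⟨x, y⟩ : α x = α y}` is c.e. -/
def IsPositive (α : ℕ → Set ℕ) : Prop :=
  REPred fun p : ℕ × ℕ => α p.1 = α p.2

/-- A `Σ⁻¹ₙ`-computable numbering of the family `A`: a surjection `ω → A` such that
`{⟨x, k⟩ : x ∈ α k}` is `n`-c.e. -/
structure ErshovNumbering (n : ℕ) (A : Set (Set ℕ)) where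
  /-- the numbering -/
  toFun : ℕ → Set ℕ
  range_eq : Set.range toFun = A
  computable : IsNCE n {w | w.unpair.1 ∈ toFun w.unpair.2}

/-- The preorder of reducibility on the `Σ⁻¹ₙ`-computable numberings of `A`. -/
instance (n : ℕ) (A : Set (Set ℕ)) : Preorder (ErshovNumbering n A) where
  le β α := Reducible β.toFun α.toFun
  le_refl α := ⟨id, Computable.id, fun _ => rfl⟩
  le_trans α β γ h1 h2 := by
    obtain ⟨f, hf, h1⟩ := h1
    obtain ⟨g, hg, h2⟩ := h2
    exact ⟨fun k => g (f k), hg.comp hf, fun k => by rw [h1, h2]⟩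

/-- The Rogers semilattice `R⁻¹ₙ(A)`: equivalence classes of `Σ⁻¹ₙ`-computable numberings of
`A`, with the order induced by reducibility. -/
abbrev Rogers (n : ℕ) (A : Set (Set ℕ)) : Type :=
  Antisymmetrization (ErshovNumbering n A) (· ≤ ·)

end Pool.Agent.MP5566
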