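import Pool.Agent.Lib.MP_5566a7_lc.Mu

/-!
The limit of the construction (MP_5566a7_lc).
-/

namespace Pool.Agent.MP5566

open Relation Filter

theorem ev_const {u : ℕ → ℕ} (hm : ∀ s s', s ≤ s' → u s ≤ u s') {N : ℕ} (hb : ∀ s, u s ≤ N) :
    ∃ v, ∀ᶠ s in atTop, u s = v := by
  induction N with
  | zero =>
    exact ⟨0, Eventually.of_forall fun s => Nat.le_zero.1 (hb s)⟩
  | succ N ih =>
    by_cases h : ∃ s, u s = N + 1
    · obtain ⟨s, hs⟩ := h
      refine ⟨N + 1, eventually_atTop.2 ⟨s, fun s' hs' => ?_⟩⟩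
      have := hm s s' hs'
      have := hb s'
      omega
    · push Not at h
      exact ih fun s => Nat.lt_succ_iff.1 (lt_of_le_of_ne (hb s) (h s))

namespace Sq

variable (B : Sq)

/-- `t` is never removed -/
def FL (t : ℕ) : Prop := ∀ t', t < t' → B.G t < B.G t'

/-- the set of the index path `i` -/
def ctn (n : ℕ) (C : ℕ → ℕ → ℕ → ℕ → ℕ) (i : ℕ → ℕ) : Set ℕ :=
  {z | ∀ᶠ s in atTop, B.ctr n C s (B.rt s (i s)) z % 2 = 1}

/-- the numbering `ν` -/
def nu (n : ℕ) (C : ℕ → ℕ → ℕ → ℕ → ℕ) (c : ℕ) : Set ℕ := B.ctn n C fun _ => c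

open Classical in
/-- the path of locations of the index `m` of `μ` -/
noncomputable def pth (m s : ℕ) : ℕ :=
  if m % 2 = 1 then (if B.exd (m / 2).unpair.2 (m / 2).unpair.1 then (m / 2).unpair.1 else 0)
  else if B.real (m / 2) then B.loc s (m / 2) else 0

/-- the numbering `μ` -/
def mu (n : ℕ) (C : ℕ → ℕ → ℕ → ℕ → ℕ) (m : ℕ) : Set ℕ := B.ctn n C (B.pth m)

/-- the opponent's set `α_e(x)` agrees with `ν(c)` -/
def Agree (n : ℕ) (C : ℕ → ℕ → ℕ → ℕ → ℕ) (e x c : ℕ) : Prop :=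
  ∀ z, ∀ᶠ s in atTop, B.ctr n C s (B.rt s c) z % 2 = C e x z s % 2

/-- `x` witnesses the bit of the lineage `l` at column `e` -/
def bond (n : ℕ) (C : ℕ → ℕ → ℕ → ℕ → ℕ) (s l e x : ℕ) : Prop :=
  ∃ b, b < s ∧ ∃ c, c < s ∧ B.chl l b c ∧ B.rg n C s e b x ∧ C e x (mkr 0 e c x) s = n

/-- the bit of the lineage `l` at column `e` -/
def bt (n : ℕ) (C : ℕ → ℕ → ℕ → ℕ → ℕ) (s l e : ℕ) : Prop :=
  ∃ x, x < s ∧ B.bond n C s l e x

variable {B} {n : ℕ} {C : ℕ → ℕ → ℕ → ℕ → ℕ}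

theorem FL.live {s t : ℕ} (h : B.FL t) (h1 : t < s) : B.live s t := ⟨h1, fun t' _ h2 => h t' h2⟩

theorem _root_.Pool.Agent.MP5566.Cnt.top (hC : Cnt n C) {e x z s s' : ℕ} (h : C e x z s = n)
    (h1 : s ≤ s') : C e x z s' = n := by
  have h5 := hC.mono e x z s s' h1
  have h6 := hC.le e x z s'
  omega

theorem bond_mono (hC : Cnt n C) {s s' l e x : ℕ} (h1 : s ≤ s') (h : B.bond n C s l e x) :
    B.bond n C s' l e x := by
  obtain ⟨b, hb, c, hc, h2, h3, h4⟩ := h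
  exact ⟨b, hb.trans_le h1, c, hc.trans_le h1, h2, rg_mono hC h1 h3, hC.top h4 h1⟩

theorem bt_mono (hC : Cnt n C) {s s' l e : ℕ} (h1 : s ≤ s') (h : B.bt n C s l e) :
    B.bt n C s' l e := by
  obtain ⟨x, hx, h2⟩ := h
  exact ⟨x, hx.trans_le h1, bond_mono hC h1 h2⟩

theorem ctn_congr {i j : ℕ → ℕ} (h : ∀ᶠ s in atTop, B.rt s (i s) = B.rt s (j s)) :
    B.ctn n C i = B.ctn n C j := by
  ext z
  constructor
  · intro h1
    filter_upwards [h, h1] with s h2 h3
    rwa [h2] at h3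
  · intro h1
    filter_upwards [h, h1] with s h2 h3
    rwa [← h2] at h3

theorem nu_congr {c c' : ℕ} (h : ∀ᶠ s in atTop, B.rt s c = B.rt s c') :
    B.nu n C c = B.nu n C c' := ctn_congr h

theorem mu_eq_nu {m t : ℕ} (h : ∀ᶠ s in atTop, B.pth m s = t) : B.mu n C m = B.nu n C t := by
  refine ctn_congr ?_
  filter_upwards [h] with s h1
  rw [h1]

end Sq

/-- Every group has a block which is never removed. -/
def Conv (B : Sq) : Prop := ∀ g, ∃ t, B.G t = g ∧ B.FL t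

namespace Org

open Sq

variable {B : Sq} {n : ℕ} {C : ℕ → ℕ → ℕ → ℕ → ℕ}

theorem FL_not_Chd (h : Org B) {t c : ℕ} (h1 : B.FL t) : ¬ B.Chd t c := by
  intro h2
  have := h1 c h2.lt
  have := h.Chd_G h2
  omega

theorem FL_Desc (h : Org B) {t c : ℕ} (h1 : B.FL t) (h2 : ReflTransGen B.Chd t c) : c = t := by
  rcases ReflTransGen.cases_head h2 with h3 | ⟨d, h3, _⟩
  · exact h3.symm
  · exact (h.FL_not_Chd h1 h3).elim

theorem Desc_bdd (h : Org B) (hT : Conv B) (b : ℕ) :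
    ∃ N, ∀ c, ReflTransGen B.Chd b c → c ≤ N := by
  obtain ⟨t, h1, h2⟩ := hT (B.G b)
  refine ⟨t, fun c h3 => ?_⟩
  by_contra h4
  push Not at h4
  have := h2 c h4
  have := h.Desc_G h3
  omega

theorem ev_rt (h : Org B) (hT : Conv B) (c : ℕ) : ∃ r, ∀ᶠ s in atTop, B.rt s c = r := by
  obtain ⟨N, hN⟩ := h.Desc_bdd hT c
  exact ev_const (fun s s' h1 => h.le_rt_mono h1 c) (fun s => hN _ (h.rt_Desc s c))

theorem ev_loc (h : Org B) (hT : Conv B) {l : ℕ} (hl : B.real l) :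
    ∃ t, B.mem l t ∧ ∀ᶠ s in atTop, B.loc s l = t := by
  obtain ⟨N, hN⟩ := h.Desc_bdd hT (l / 2)
  obtain ⟨t, ht⟩ := ev_const (u := fun s => B.loc s l) (fun s s' h1 => loc_mono h1) (N := N) (by
    intro s
    by_cases h1 : l / 2 < s
    · obtain ⟨h3, h4⟩ := loc_spec h1 hl
      exact hN _ (chain_Desc (h.chain hl h4 (le_loc h1 hl)))
    · have := hN _ ReflTransGen.refl
      have := loc_le (B := B) s l
      omega)
  refine ⟨t, ?_, ht⟩
  obtain ⟨s, h1, h2⟩ := (ht.and (eventually_gt_atTop (l / 2))).exists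
  rw [← h1]
  exact (loc_spec h2 hl).2

/-- a lineage which is not handed over stays -/
theorem loc_final (h : Org B) {l t s : ℕ} (h1 : B.mem l t) (h2 : ∀ c, ¬ B.chl l t c)
    (h3 : t < s) : B.loc s l = t := by
  obtain ⟨h4, h5⟩ := loc_spec h3 h1
  have h6 := h.chain h1 h5 (le_loc h3 h1)
  rcases ReflTransGen.cases_head h6 with h7 | ⟨d, h7, _⟩
  · exact h7.symm
  · exact (h2 d h7).elim

/-- liveness is eventually decided -/
theorem ev_live {r : ℕ} : (∀ᶠ s in atTop, B.live s r) ∨ (∀ᶠ s in atTop, ¬ B.live s r) := by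
  by_cases h : B.FL r
  · left
    filter_upwards [eventually_gt_atTop r] with s hs
    exact h.live hs
  · right
    unfold FL at h
    push Not at h
    obtain ⟨t', h1, h2⟩ := h
    filter_upwards [eventually_gt_atTop t'] with s hs h3
    have := h3.2 t' hs h1
    omega

theorem FL_of_ev {r : ℕ} (h : ∃ᶠ s in atTop, B.live s r) : B.FL r := by
  intro t' h1
  obtain ⟨s, h2, h3⟩ := (h.and_eventually (eventually_gt_atTop t')).exists
  exact h2.2 t' h3 h1

/-- a lineage which is live infinitely often has a final location -/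
theorem ll_final (h : Org B) (hT : Conv B) {l t : ℕ} (h0 : B.mem l t)
    (h1 : ∃ᶠ s in atTop, B.ll s l) : ∃ t', B.FL t' ∧ B.mem l t' ∧ t ≤ t' := by
  obtain ⟨N, hN⟩ := h.Desc_bdd hT t
  obtain ⟨t', ht'⟩ := ev_const (u := fun s => B.loc s l) (fun s s' h1 => loc_mono h1)
    (N := max N t) (by
    intro s
    by_cases h2 : t < s
    · obtain ⟨h3, h4⟩ := loc_spec h2 h0
      exact (hN _ (chain_Desc (h.chain h0 h4 (le_loc h2 h0)))).trans (le_max_left _ _)
    · have := loc_le (B := B) s l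
      have := le_max_right N t
      omega)
  refine ⟨t', FL_of_ev ((h1.and_eventually ht').mono fun s h2 => ?_), ?_⟩
  · rw [← h2.2]
    exact h.loc_live h2.1
  · obtain ⟨s, h2, h3⟩ := (ht'.and (eventually_gt_atTop t)).exists
    rw [← h2]
    exact ⟨(loc_spec h3 h0).2, le_loc h3 h0⟩

theorem ev_exd (b : ℕ) : (∀ᶠ s in atTop, B.exd s b) ∨ (∀ s, ¬ B.exd s b) := by
  by_cases h : ∃ s, B.exd s b
  · obtain ⟨s, hs⟩ := h
    left
    filter_upwards [eventually_ge_atTop s] with s' hs'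
    exact hs.mono hs'
  · push Not at h
    exact Or.inr h

theorem ev_ctr (h : Org B) (hC : Cnt n C) (hn : 2 ≤ n) (c z : ℕ) :
    ∃ v, ∀ᶠ s in atTop, B.ctr n C s (B.rt s c) z = v :=
  ev_const (fun _ _ h1 => h.ctr_mono_nu hC hn h1 c z) (fun _ => ctr_le hn _ _ _)

theorem ctr_mkr0 (s r e b x : ℕ) :
    B.ctr n C s r (mkr 0 e b x) = cP n (B.De s b r) (C e x (mkr 0 e b x) s) := by
  unfold ctr
  rw [if_pos (zi_mkr 0 e b x), zb_mkr, ze_mkr, zx_mkr]

theorem ctr_mkr1 (s r e b x : ℕ) :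
    B.ctr n C s r (mkr 1 e b x) = cP n (B.exd s b ∧ B.rt s b = r) (C e x (mkr 1 e b x) s) := by
  unfold ctr
  rw [if_neg (by rw [zi_mkr]; omega), if_pos (zi_mkr 1 e b x), zb_mkr, ze_mkr, zx_mkr]

theorem ctr_mkr2 (s r e b x : ℕ) :
    B.ctr n C s r (mkr 2 e b x) = B.cM n C s r e b x := by
  unfold ctr
  rw [if_neg (by rw [zi_mkr]; omega), if_neg (by rw [zi_mkr]; omega), if_pos (zi_mkr 2 e b x),
    zb_mkr, ze_mkr, zx_mkr]

section K

variable {e x c : ℕ}

theorem K_W (hC : Cnt n C) (hA : B.Agree n C e x c) (b : ℕ) :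
    ∀ᶠ s in atTop, (B.De s b (B.rt s c) ↔ C e x (mkr 0 e b x) s = n) := by
  filter_upwards [hA (mkr 0 e b x)] with s hs
  rw [ctr_mkr0, cP] at hs
  have := hC.le e x (mkr 0 e b x) s
  split_ifs at hs with h1 h2
  · exact ⟨fun _ => by omega, fun _ => h1⟩
  · exact ⟨fun h3 => (h1 h3).elim, fun h3 => by omega⟩
  · exact ⟨fun h3 => (h1 h3).elim, fun h3 => by omega⟩

theorem K_S (hC : Cnt n C) (hA : B.Agree n C e x c) (b : ℕ) :
    ∀ᶠ s in atTop, ((B.exd s b ∧ B.rt s b = B.rt s c) ↔ C e x (mkr 1 e b x) s = n) := by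
  filter_upwards [hA (mkr 1 e b x)] with s hs
  rw [ctr_mkr1, cP] at hs
  have := hC.le e x (mkr 1 e b x) s
  split_ifs at hs with h1 h2
  · exact ⟨fun _ => by omega, fun _ => h1⟩
  · exact ⟨fun h3 => (h1 h3).elim, fun h3 => by omega⟩
  · exact ⟨fun h3 => (h1 h3).elim, fun h3 => by omega⟩

/-- if `ν(c)` is the set of a block which is never removed then the opponent is exhausted -/
theorem K_M1 (hC : Cnt n C) (hA : B.Agree n C e x c) {r : ℕ} (hr : B.FL r)
    (hc : ∀ᶠ s in atTop, B.rt s c = r) : ∃ s, B.rg n C s e r x := by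
  obtain ⟨s, ⟨h1, h2⟩, h3, h4⟩ := (((hA (mkr 2 e r x)).and (K_W hC hA r)).and
    (hc.and (eventually_gt_atTop r))).exists
  have h5 := hr.live h4
  have h6 := ls_of_live h5
  have h7 : B.De s r (B.rt s c) := by
    rw [h3]
    exact ⟨h4, ReflTransGen.refl⟩
  have h8 := h2.1 h7
  by_contra h9
  push Not at h9
  have h10 := h9 s
  rw [ctr_mkr2, cM, if_neg (not_not.2 h7), if_pos h10, h6] at h1
  have h11 := hC.le e x (mkr 2 e r x) s
  have h12 : C e x (mkr 2 e r x) s = n := by omega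
  exact h10 ⟨by rw [h6]; exact h12, by rw [h6]; exact h8⟩

/-- if the opponent is exhausted on `(b,x)` then `α_e(x)` has two possible values -/
theorem K_M2 (hC : Cnt n C) (hn : 2 ≤ n) (hA : B.Agree n C e x c) {s0 b : ℕ}
    (h0 : B.rg n C s0 e b x) : ∀ᶠ s in atTop, B.De s b (B.rt s c) ∧
      (B.rt s b = B.rt s c ∨ (B.XL s b ∧ B.live s (B.rt s c))) := by
  filter_upwards [hA (mkr 2 e b x), K_W hC hA b, eventually_ge_atTop s0] with s h1 h2 h3
  have h4 := rg_mono hC h3 h0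
  have h5 : B.De s b (B.rt s c) := by
    rw [h2]
    have h6 := hC.mono e x (mkr 0 e b x) _ _ (ls_le (B := B) s b)
    have h7 := hC.le e x (mkr 0 e b x) s
    have h8 := h4.2
    omega
  refine ⟨h5, ?_⟩
  have h6 : C e x (mkr 2 e b x) s = n := by
    have h6 := hC.mono e x (mkr 2 e b x) _ _ (ls_le (B := B) s b)
    have h7 := hC.le e x (mkr 2 e b x) s
    have h8 := h4.1
    omega
  rw [h6, ctr_mkr2, cM, if_neg (not_not.2 h5), if_neg (not_not.2 h4)] at h1
  by_contra h9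
  push Not at h9
  rw [if_neg h9.1, if_neg (fun h10 => h9.2 h10.1 h10.2)] at h1
  omega

end K

end Org

end Pool.Agent.MP5566
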