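import Pool.Agent.Lib.MP_5566a7_lc.Opp

/-!
The main theorem (MP_5566a7_lc).
-/

namespace Pool.Agent.MP5566

open Nat.Partrec Filter Sq

section

variable {n : ℕ} {C : ℕ → ℕ → ℕ → ℕ → ℕ}

open Classical in
/-- the counter of the numbering `μ` -/
noncomputable def cmu (B : Sq) (n : ℕ) (C : ℕ → ℕ → ℕ → ℕ → ℕ) (m z s : ℕ) : ℕ :=
  if m % 2 = 0 ∧ B.real (m / 2) then B.ctl n C s (m / 2) z
  else B.ctr n C s (B.rt s (B.pth m s)) z

theorem nu_nce {B : Sq} (h : Org B) (hP : PSq fun _ : ℕ × ℕ => B) (hC : Cnt n C) (hc : PC C)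
    (hn : 2 ≤ n) : IsNCE n {w | w.unpair.1 ∈ B.nu n C w.unpair.2} := by
  refine nce_of_counter (fun w s => B.ctr n C s (B.rt s w.unpair.2) w.unpair.1) ?_ ?_ ?_ ?_ ?_
  · have h1 : Primrec fun p : ℕ × ℕ => p.1.unpair := Primrec.unpair.comp Primrec.fst
    exact (pr_ctr hP hc (fun _ => h) Primrec.snd
      (pr_rt hP Primrec.snd (Primrec.snd.comp h1)) (Primrec.fst.comp h1)).to_comp
  · intro z
    exact Org.ctr_zero hC hn _ _
  · intro z s s' hs
    exact h.ctr_mono_nu hC hn hs _ _
  · intro z s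
    exact Org.ctr_le hn _ _ _
  · intro z
    exact Iff.rfl

theorem mu_nce {B : Sq} (h : Org B) (hP : PSq fun _ : ℕ × ℕ => B) (hC : Cnt n C) (hc : PC C)
    (hn : 2 ≤ n) : IsNCE n {w | w.unpair.1 ∈ B.mu n C w.unpair.2} := by
  classical
  refine nce_of_counter (fun w s => cmu B n C w.unpair.2 w.unpair.1 s) ?_ ?_ ?_ ?_ ?_
  · have h1 : Primrec fun p : ℕ × ℕ => p.1.unpair := Primrec.unpair.comp Primrec.fst
    have hz := Primrec.fst.comp h1
    have hm := Primrec.snd.comp h1
    have hm2 := Primrec.nat_div.comp hm (Primrec.const 2)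
    have hmm := Primrec.nat_mod.comp hm (Primrec.const 2)
    have hreal := pr_mem hP hm2 (Primrec.nat_div.comp hm2 (Primrec.const 2))
    have hu : Primrec fun p : ℕ × ℕ => (p.1.unpair.2 / 2).unpair := Primrec.unpair.comp hm2
    have hs : Primrec fun p : ℕ × ℕ => p.2 := Primrec.snd
    have hpth : Primrec fun p : ℕ × ℕ => B.pth p.1.unpair.2 p.2 := by
      unfold Sq.pth
      refine Primrec.ite (Primrec.eq.comp hmm (Primrec.const 1))
        (Primrec.ite (pr_exd hP (Primrec.snd.comp hu) (Primrec.fst.comp hu))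
          (Primrec.fst.comp hu) (Primrec.const 0))
        (Primrec.ite hreal (pr_loc hP hs hm2) (Primrec.const 0))
    have h2 : Primrec fun p : ℕ × ℕ => cmu B n C p.1.unpair.2 p.1.unpair.1 p.2 := by
      unfold cmu
      refine Primrec.ite ((Primrec.eq.comp hmm (Primrec.const 0)).and hreal)
        (pr_ctl hP hc (fun _ => h) hs hm2 hz)
        (pr_ctr hP hc (fun _ => h) hs (pr_rt hP hs hpth) hz)
    exact h2.to_comp
  · intro w
    unfold cmu
    split_ifs
    · exact Org.ctl_zero _ _
    · exact Org.ctr_zero hC hn _ _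
  · intro w s s' hs
    unfold cmu
    by_cases h1 : w.unpair.2 % 2 = 0 ∧ B.real (w.unpair.2 / 2)
    · rw [if_pos h1, if_pos h1]
      exact h.ctl_mono hC hn hs h1.2 _
    · rw [if_neg h1, if_neg h1]
      have h2 : B.pth w.unpair.2 s' = B.pth w.unpair.2 s := by
        unfold Sq.pth
        by_cases h3 : w.unpair.2 % 2 = 1
        · rw [if_pos h3, if_pos h3]
        · have h4 : ¬ B.real (w.unpair.2 / 2) := fun h4 => h1 ⟨by omega, h4⟩
          rw [if_neg h3, if_neg h3, if_neg h4, if_neg h4]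
      rw [h2]
      exact h.ctr_mono_nu hC hn hs _ _
  · intro w s
    unfold cmu
    split_ifs
    · exact Org.ctl_le hn _ _ _
    · exact Org.ctr_le hn _ _ _
  · intro w
    change (∀ᶠ s in atTop, _) ↔ _
    unfold cmu
    by_cases h1 : w.unpair.2 % 2 = 0 ∧ B.real (w.unpair.2 / 2)
    · simp only [if_pos h1]
      have h2 : ∀ᶠ s in atTop, B.ctl n C s (w.unpair.2 / 2) w.unpair.1 % 2 =
          B.ctr n C s (B.rt s (B.pth w.unpair.2 s)) w.unpair.1 % 2 := by
        filter_upwards [eventually_gt_atTop (w.unpair.2 / 2 / 2)] with s hs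
        rw [h.ctl_parity hn h1.2 hs]
        unfold Sq.pth
        rw [if_neg (by omega), if_pos h1.2]
      constructor
      · intro h3
        filter_upwards [h2, h3] with s h4 h5
        rw [h4]
        exact h5
      · intro h3
        filter_upwards [h2, h3] with s h4 h5
        rw [← h4]
        exact h5
    · simp only [if_neg h1]

end

section

variable (n : ℕ) (hn : 2 ≤ n)

/-- the sequence of blocks -/
noncomputable def bs : Sq := sq n (cnt n)

theorem bs_run : (bs n).Run n (cnt n) (bs n).wD := sq_run n (cnt n)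
theorem bs_org : Org (bs n) := (bs_run n).toOrg
theorem bs_conv : Conv (bs n) := (bs_run n).conv (cnt_cnt n)

/-- the family -/
def fam : Set (Set ℕ) := Set.range ((bs n).nu n (cnt n))

include hn

/-- the positive numbering -/
noncomputable def NU : ErshovNumbering n (fam n) where
  toFun := (bs n).nu n (cnt n)
  range_eq := rfl
  computable := nu_nce (bs_org n) (psq_sq (pc_cnt n)) (cnt_cnt n) (pc_cnt n) hn

/-- the other minimal numbering -/
noncomputable def MU : ErshovNumbering n (fam n) where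
  toFun := (bs n).mu n (cnt n)
  range_eq := by
    ext X
    constructor
    · rintro ⟨m, rfl⟩
      obtain ⟨c, hc⟩ := (bs_org n).mu_range (bs_conv n) (n := n) (C := cnt n) m
      exact ⟨c, hc.symm⟩
    · rintro ⟨c, rfl⟩
      obtain ⟨m, hm⟩ := (bs_org n).nu_range (n := n) (C := cnt n) c
      exact ⟨m, hm.symm⟩
  computable := mu_nce (bs_org n) (psq_sq (pc_cnt n)) (cnt_cnt n) (pc_cnt n) hn

theorem nu_positive : IsPositive (NU n hn).toFun := by
  have h1 : ComputablePred fun q : (ℕ × ℕ) × ℕ => (bs n).rt q.2 q.1.1 = (bs n).rt q.2 q.1.2 := by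
    have hP : PSq fun _ : (ℕ × ℕ) × ℕ => bs n := psq_sq (pc_cnt n)
    exact PrimrecPred.computablePred (Primrec.eq.comp
      (pr_rt hP Primrec.snd (Primrec.fst.comp Primrec.fst))
      (pr_rt hP Primrec.snd (Primrec.snd.comp Primrec.fst)))
  refine (re_of_stage (p := fun (q : ℕ × ℕ) s => (bs n).rt s q.1 = (bs n).rt s q.2) h1).of_eq
    fun q => ?_
  exact ((bs_org n).nu_eq_iff (bs_conv n) hn (cnt_none n)).symm

theorem mu_not_positive : ¬ IsPositive (MU n hn).toFun := by
  intro h
  obtain ⟨c, hc⟩ := re_stage h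
  have hO := bs_org n
  have hT := bs_conv n
  have hR := bs_run n
  have hC := cnt_cnt n
  obtain ⟨t, ht, htF⟩ := hT (2 * Encodable.encode c + 1)
  have hodd : (bs n).G t % 2 ≠ 0 := by omega
  have hdiv : (bs n).G t / 2 = Encodable.encode c := by omega
  cases hF : (bs n).F t
  · have h1 : (bs n).mu n (cnt n) (2 * (bs n).J t) = (bs n).mu n (cnt n) (2 * (bs n).K t) := by
      rw [hO.mu_FL (Or.inl rfl) htF, hO.mu_FL (Or.inr rfl) htF]
    obtain ⟨s, hs⟩ := (hc (2 * (bs n).J t, 2 * (bs n).K t)).1 h1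
    have h2 : (bs n).wD (max s (t + 1)) t := by
      right
      refine ⟨hodd, ?_⟩
      rw [hdiv, Denumerable.ofNat_encode]
      exact evaln_isSome_mono (le_max_left _ _) hs
    exact (hR.no_want htF (s := max s (t + 1)) (by omega)).1 ⟨hF, h2⟩
  · obtain ⟨t0, h1, h2, h3, h4, h5, h6⟩ := hR.of_flag hF
    have hodd0 : (bs n).G t0 % 2 ≠ 0 := by omega
    rcases h4 with h4 | h4
    · exact hodd0 h4.1
    · have h7 : (bs n).mu n (cnt n) (2 * (bs n).J t0) =
          (bs n).mu n (cnt n) (2 * (bs n).K t0) := by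
        refine (hc (2 * (bs n).J t0, 2 * (bs n).K t0)).2 ⟨t, ?_⟩
        have h8 := h4.2
        rw [h2, hdiv, Denumerable.ofNat_encode] at h8
        exact h8
      have h8 := hR.odd hodd0 h3
      have h9 : (bs n).chl ((bs n).J t) t0 t := ⟨h1, h6, Or.inl rfl⟩
      have key : ∀ l, (bs n).mem l t0 → l ≠ (bs n).J t →
          (bs n).mu n (cnt n) (2 * l) = (bs n).nu n (cnt n) t0 := by
        intro l h10 h11
        refine hO.mu_of_final h10 fun c h12 => ?_
        have h13 := hO.Chd_uniq h9.Chd h12.Chd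
        rw [← h13] at h12
        rcases h12.2.2 with h14 | h14
        · exact h11 h14
        · rw [← h5] at h14
          exact h11 h14
      have h10 : (bs n).mu n (cnt n) (2 * (bs n).J t) = (bs n).nu n (cnt n) t :=
        hO.mu_FL (Or.inl rfl) htF
      have h11 := hO.nu_ne_of_child hT hn (cnt_none n) h9 htF
      rcases h6 with h6 | h6
      · rw [h6] at h10
        have h12 := key _ (Or.inr rfl) (fun h12 => h8 (by rw [← h6, h12]))
        exact h11 (by rw [← h12, ← h7, h10])
      · rw [h6] at h10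
        have h12 := key _ (Or.inl rfl) (fun h12 => h8 (by rw [h12, ← h6]))
        exact h11 (by rw [← h12, h7, h10])

theorem nu_not_le : ¬ Reducible (NU n hn).toFun (MU n hn).toFun := by
  rintro ⟨f, hf, hf'⟩
  have hO := bs_org n
  have hT := bs_conv n
  have hR := bs_run n
  have hC := cnt_cnt n
  have hf' : ∀ k, (bs n).nu n (cnt n) k = (bs n).mu n (cnt n) (f k) := hf'
  obtain ⟨c, hc⟩ := Code.exists_code.1 (Partrec.nat_iff.1 hf.partrec)
  have hev : ∀ k y, y ∈ Code.eval c k ↔ y = f k := by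
    intro k y
    rw [hc]
    simp
  obtain ⟨t, ht, htF⟩ := hT (2 * (Encodable.encode c + 1))
  have heven : (bs n).G t % 2 = 0 := by omega
  have hdiv : (bs n).G t / 2 - 1 = Encodable.encode c := by omega
  have ht0 : t ≠ 0 := by
    intro h1
    have h2 := (sq_follows n (cnt n)).G_le 0
    rw [h1] at ht
    change (bs n).G 0 ≤ 0 at h2
    omega
  cases hF : (bs n).F t
  · obtain ⟨l, h1, h2⟩ := hO.mu_eq_FL hT hn (cnt_none n) htF ht0 (hf' t).symm
    have h3 : l = (bs n).J t := by
      rcases h2 with h2 | h2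
      · exact h2
      · rw [h2, hR.even heven]
    rw [h3] at h1
    obtain ⟨s, hs⟩ := Code.evaln_complete.1 ((hev t (2 * (bs n).J t)).2 h1.symm)
    have h4 : (bs n).wD (max s (t + 1)) t := by
      left
      refine ⟨heven, ?_⟩
      rw [hdiv, Denumerable.ofNat_encode]
      exact Code.evaln_mono (le_max_left _ _) hs
    exact (hR.no_want htF (s := max s (t + 1)) (by omega)).1 ⟨hF, h4⟩
  · obtain ⟨t0, h1, h2, h3, h4, h5, h6⟩ := hR.of_flag hF
    have heven0 : (bs n).G t0 % 2 = 0 := by omega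
    rcases h4 with h4 | h4
    · have h7 : f t0 = 2 * (bs n).J t0 := by
        have h8 := h4.2
        rw [h2, hdiv, Denumerable.ofNat_encode] at h8
        exact ((hev t0 _).1 (Code.evaln_sound h8)).symm
      have h8 : (bs n).J t = (bs n).J t0 := by
        rcases h6 with h6 | h6
        · exact h6
        · rw [h6, hR.even heven0]
      have h9 : (bs n).chl ((bs n).J t) t0 t := ⟨h1, h6, Or.inl rfl⟩
      refine hO.nu_ne_of_child (n := n) (C := cnt n) hT hn (cnt_none n) h9 htF ?_
      rw [hf' t0, h7, ← h8]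
      exact hO.mu_FL (Or.inl rfl) htF
    · exact h4.1 heven0

theorem dichotomy (α : ErshovNumbering n (fam n)) :
    Reducible α.toFun (NU n hn).toFun ∨ Reducible (MU n hn).toFun α.toFun := by
  have hO := bs_org n
  have hT := bs_conv n
  have hR := bs_run n
  have hC := cnt_cnt n
  obtain ⟨e, he⟩ := cnt_univ α.computable
  have hr1 : ∀ x, ∃ c, α.toFun x = (bs n).nu n (cnt n) c := by
    intro x
    have h1 : α.toFun x ∈ Set.range α.toFun := ⟨x, rfl⟩
    rw [α.range_eq.trans (NU n hn).range_eq.symm] at h1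
    obtain ⟨c, hc⟩ := h1
    exact ⟨c, hc.symm⟩
  have hr2 : ∀ c, ∃ x, (bs n).nu n (cnt n) c = α.toFun x := by
    intro c
    have h1 : (NU n hn).toFun c ∈ Set.range (NU n hn).toFun := ⟨c, rfl⟩
    rw [(NU n hn).range_eq.trans α.range_eq.symm] at h1
    obtain ⟨x, hx⟩ := h1
    exact ⟨x, hx.symm⟩
  have hagree : ∀ x c, α.toFun x = (bs n).nu n (cnt n) c → (bs n).Agree n (cnt n) e x c := by
    intro x c h1 z
    obtain ⟨v, hv⟩ := hO.ev_ctr hC hn c z
    have h2 : z ∈ (bs n).nu n (cnt n) c ↔ v % 2 = 1 := by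
      constructor
      · intro h3
        obtain ⟨s, hs, hs'⟩ := (hv.and h3).exists
        rw [← hs]
        exact hs'
      · intro h3
        change ∀ᶠ s in atTop, _
        filter_upwards [hv] with s hs
        rw [hs]
        exact h3
    filter_upwards [hv, he x z] with s h3 h4
    rw [h1, h2] at h4
    rw [h3]
    omega
  have hs : ∀ c, ∃ x, (bs n).Agree n (cnt n) e x c := by
    intro c
    obtain ⟨x, hx⟩ := hr2 c
    exact ⟨x, hagree x c hx.symm⟩
  have hP : PSq fun _ : ℕ × ℕ => bs n := psq_sq (pc_cnt n)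
  obtain ⟨g0, hg⟩ := hR.dich hC e
  obtain ⟨t0, ht0, ht0F⟩ := hT g0
  have hbound : ∀ t, (bs n).FL t → (bs n).G t < g0 → t ≤ t0 := by
    intro t h1 h2
    by_contra h3
    push Not at h3
    have := ht0F t h3
    omega
  have hu : Primrec fun p : ℕ × ℕ => p.2.unpair := Primrec.unpair.comp Primrec.snd
  rcases hg with hg | hg
  · -- all final lineages have the bit
    right
    obtain ⟨x0, hx0⟩ := hr2 0
    refine red_of_search (P := fun m w =>
      (m % 2 = 0 ∧ (bs n).mem (m / 2) (m / 2 / 2) ∧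
        (bs n).Rl n (cnt n) e (m / 2) w.unpair.1 w.unpair.2) ∨
      (m % 2 = 1 ∧ (bs n).exd (m / 2).unpair.2 (m / 2).unpair.1 ∧
        cnt n e w.unpair.1 (mkr 1 e (m / 2).unpair.1 w.unpair.1) w.unpair.2 = n) ∨
      (¬ (m % 2 = 0 ∧ (bs n).mem (m / 2) (m / 2 / 2)) ∧
        ¬ (m % 2 = 1 ∧ (bs n).exd (m / 2).unpair.2 (m / 2).unpair.1) ∧ w.unpair.1 = x0))
      ?_ ?_ (ans := fun w => w.unpair.1) (Computable.fst.comp Computable.unpair)
      (4 * t0 + 4) ?_ ?_
    · intro m
      obtain ⟨c, hc⟩ := hO.mu_range hT (n := n) (C := cnt n) m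
      obtain ⟨x, hx⟩ := hr2 c
      exact ⟨x, hc.trans hx⟩
    · have hm : Primrec fun p : ℕ × ℕ => p.1 := Primrec.fst
      have hm2 := Primrec.nat_div.comp hm (Primrec.const 2)
      have hmm := Primrec.nat_mod.comp hm (Primrec.const 2)
      have hreal := pr_mem hP hm2 (Primrec.nat_div.comp hm2 (Primrec.const 2))
      have hv : Primrec fun p : ℕ × ℕ => (p.1 / 2).unpair := Primrec.unpair.comp hm2
      have hex := pr_exd hP (Primrec.snd.comp hv) (Primrec.fst.comp hv)
      have h0 := Primrec.eq.comp hmm (Primrec.const 0)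
      have h1 := Primrec.eq.comp hmm (Primrec.const 1)
      refine PrimrecPred.computablePred ((h0.and (hreal.and ?_)).or ((h1.and (hex.and ?_)).or
        ((h0.and hreal).not.and ((h1.and hex).not.and ?_))))
      · exact pr_Rl hP (pc_cnt n) (Primrec.const e) hm2 (Primrec.fst.comp hu)
          (Primrec.snd.comp hu)
      · exact Primrec.eq.comp (pr_C (pc_cnt n) (Primrec.const e) (Primrec.fst.comp hu)
          (pr_mkr (Primrec.const 1) (Primrec.const e) (Primrec.fst.comp hv)
            (Primrec.fst.comp hu)) (Primrec.snd.comp hu)) (Primrec.const n)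
      · exact Primrec.eq.comp (Primrec.fst.comp hu) (Primrec.const x0)
    · intro m hm
      by_cases h1 : m % 2 = 0 ∧ (bs n).mem (m / 2) (m / 2 / 2)
      · obtain ⟨x, s, h2⟩ := hO.Rl_total hT hC hs (l := m / 2) h1.2 (by
          intro t h2 h3
          by_cases h4 : g0 ≤ (bs n).G t
          · exact hg t _ h2 h4 h3
          · exfalso
            push Not at h4
            have h5 := hbound t h2 h4
            have h6 := hO.half_le h3
            omega)
        exact ⟨Nat.pair x s, Or.inl ⟨h1.1, h1.2, by simpa using h2⟩⟩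
      · by_cases h2 : m % 2 = 1 ∧ (bs n).exd (m / 2).unpair.2 (m / 2).unpair.1
        · obtain ⟨x, hx⟩ := hs (m / 2).unpair.1
          obtain ⟨s, h3, h4⟩ := ((Org.K_S hC hx (m / 2).unpair.1).and
            (eventually_ge_atTop (m / 2).unpair.2)).exists
          exact ⟨Nat.pair x s, Or.inr (Or.inl ⟨h2.1, h2.2,
            by simpa using h3.1 ⟨h2.2.mono h4, rfl⟩⟩)⟩
        · exact ⟨Nat.pair x0 0, Or.inr (Or.inr ⟨h1, h2, by simp⟩)⟩
    · intro m w _ h1
      change (bs n).mu n (cnt n) m = _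
      obtain ⟨c0, hc0⟩ := hr1 w.unpair.1
      have hA := hagree _ _ hc0
      rcases h1 with ⟨h1, h2, h3⟩ | ⟨h1, h2, h3⟩ | ⟨h1, h2, h3⟩
      · have h4 := hO.Rl_ok hT hC hn h2 hA h3
        rw [show 2 * (m / 2) = m by omega] at h4
        rw [h4, hc0]
      · have h4 : (bs n).mu n (cnt n) m = (bs n).nu n (cnt n) (m / 2).unpair.1 := by
          refine mu_eq_nu (Eventually.of_forall fun s => ?_)
          unfold Sq.pth
          rw [if_pos h1, if_pos h2]
        rw [h4, hc0]
        refine nu_congr ?_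
        filter_upwards [Org.K_S hC hA (m / 2).unpair.1, eventually_ge_atTop w.unpair.2] with s h5 h6
        exact (h5.2 (hC.top h3 h6)).2
      · have h4 : (bs n).mu n (cnt n) m = (bs n).nu n (cnt n) 0 := by
          refine mu_eq_nu (Eventually.of_forall fun s => ?_)
          unfold Sq.pth
          by_cases h5 : m % 2 = 1
          · rw [if_pos h5, if_neg (fun h6 => h2 ⟨h5, h6⟩)]
          · have h6 : ¬ (bs n).real (m / 2) := fun h6 => h1 ⟨by omega, h6⟩
            rw [if_neg h5, if_neg h6]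
        rw [h4, hx0, h3]
  · -- no final lineage has the bit
    left
    refine red_of_search (P := fun x w => (bs n).Rh n (cnt n) e x w.unpair.1 w.unpair.2)
      hr1 ?_ (ans := fun w => w.unpair.1) (Computable.fst.comp Computable.unpair) t0 ?_ ?_
    · exact PrimrecPred.computablePred (pr_Rh hP (pc_cnt n) (Primrec.const e) Primrec.fst
        (Primrec.fst.comp hu) (Primrec.snd.comp hu))
    · intro x _
      obtain ⟨c0, hc0⟩ := hr1 x
      obtain ⟨c, s, h1⟩ := hO.Rh_total hT hC (hagree x c0 hc0)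
      exact ⟨Nat.pair c s, by simpa using h1⟩
    · intro x w hx h1
      obtain ⟨c0, hc0⟩ := hr1 x
      rcases hO.Rh_ok hT hC hn (hagree x c0 hc0) h1 with h2 | ⟨l, t, h2, h3, h4, h5⟩
      · rw [hc0, ← h2]
        rfl
      · exfalso
        by_cases h6 : g0 ≤ (bs n).G t
        · exact hg t l h2 h6 h3 h5
        · push Not at h6
          have := hbound t h2 h6
          omega

/-- **Main theorem.** -/
theorem main : ∃ A : Set (Set ℕ),
    (∀ X ∈ A, IsNCE n X) ∧
    (∃ ν : ErshovNumbering n A, IsPositive ν.toFun ∧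
      (∀ β : ErshovNumbering n A, IsPositive β.toFun → β ≤ ν ∧ ν ≤ β) ∧
      ¬ ∀ β : ErshovNumbering n A, ν ≤ β) ∧
    {c : Rogers n A | IsMin c}.ncard = 2 :=
  ⟨fam n, main_of (NU n hn) (MU n hn) (nu_positive n hn) (mu_not_positive n hn)
    (nu_not_le n hn) (dichotomy n hn)⟩

end

end Pool.Agent.MP5566
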