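import Pool.Agent.Lib.MP_5566a7_lc.Counter

/-!
Counters along the location of a lineage (MP_5566a7_lc).
-/

namespace Pool.Agent.MP5566

open Relation

namespace Sq

variable (B : Sq)

open Classical in
/-- counter for the set with index `2l`, `l` a real lineage -/
noncomputable def ctl (n : ℕ) (C : ℕ → ℕ → ℕ → ℕ → ℕ) (s l z : ℕ) : ℕ :=
  if s ≤ l / 2 then 0
  else if zi z = 2 ∧ B.mem l (zb z) then
    (if zb z < s then
      min (C (ze z) (zx z) (mkr 2 (ze z) (zb z) (zx z)) (B.ls s (zb z)) + 1) n else 0)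
  else B.ctr n C s (B.rt s (B.loc s l)) z

end Sq

namespace Org

open Sq

variable {B : Sq} {n : ℕ} {C : ℕ → ℕ → ℕ → ℕ → ℕ}

theorem ctl_le (hn : 2 ≤ n) (s l z : ℕ) : B.ctl n C s l z ≤ n := by
  unfold ctl
  split_ifs <;> first | exact ctr_le hn _ _ _ | omega

theorem ctl_zero (l z : ℕ) : B.ctl n C 0 l z = 0 := by
  unfold ctl
  rw [if_pos (Nat.zero_le _)]

/-- the location of a lineage moves along descendants -/
theorem loc_Desc (h : Org B) {s s' l : ℕ} (h1 : s ≤ s') (h2 : B.real l) (h3 : l / 2 < s) :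
    ReflTransGen B.Chd (B.loc s l) (B.loc s' l) := by
  obtain ⟨_, h5⟩ := loc_spec h3 h2
  obtain ⟨_, h7⟩ := loc_spec (h3.trans_le h1) h2
  exact chain_Desc (h.chain h5 h7 (loc_mono h1))

theorem rt_loc_De (h : Org B) {s s' l b : ℕ} (h1 : s ≤ s') (h2 : B.real l) (h3 : l / 2 < s)
    (h4 : B.De s b (B.rt s (B.loc s l))) : B.De s' b (B.rt s' (B.loc s' l)) := by
  obtain ⟨h7, _⟩ := loc_spec (h3.trans_le h1) h2
  by_cases h5 : B.ll s l
  · have h6 := h.loc_live h5
    rw [h.rt_of_live h6] at h4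
    exact h.De_mono h4 (h.loc_Desc h1 h2 h3) h7
  · rw [h.loc_dead h5 h2 h3 h1] at h7 ⊢
    have h8 := h.De_mono (s' := s') h4 ReflTransGen.refl (h4.1.trans_le h1)
    rwa [h.rt_mono h1] at h8

theorem ctl_mono (h : Org B) (hC : Cnt n C) (hn : 2 ≤ n) {s s' l : ℕ} (h1 : s ≤ s')
    (h2 : B.real l) (z : ℕ) : B.ctl n C s l z ≤ B.ctl n C s' l z := by
  unfold ctl
  by_cases h3 : s ≤ l / 2
  · rw [if_pos h3]; exact Nat.zero_le _
  push Not at h3
  rw [if_neg (show ¬ s ≤ l / 2 by omega), if_neg (show ¬ s' ≤ l / 2 by omega)]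
  by_cases h4 : zi z = 2 ∧ B.mem l (zb z)
  · rw [if_pos h4, if_pos h4]
    by_cases h5 : zb z < s
    · rw [if_pos h5, if_pos (h5.trans_le h1)]
      have := hC.mono (ze z) (zx z) (mkr 2 (ze z) (zb z) (zx z)) _ _
        (ls_mono (B := B) (b := zb z) h1)
      omega
    · rw [if_neg h5]; exact Nat.zero_le _
  rw [if_neg h4, if_neg h4]
  have hm : zi z = 2 → ¬ B.mem l (zb z) := fun h5 h6 => h4 ⟨h5, h6⟩
  obtain ⟨_, hmem⟩ := loc_spec h3 h2
  refine ctr_mono_aux hC hn h1 ?_ ?_ ?_ ?_ ?_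
  · intro b h5
    exact h.rt_loc_De h1 h2 h3 h5
  · intro b h5 h6
    have h7 : ¬ B.ll s l := by
      intro h7
      have h8 := h.loc_live h7
      rw [h.rt_of_live h8] at h6
      have h9 := h.eq_of_rt_live h8 h6
      rw [← h9] at h8
      obtain ⟨c, h10, h11⟩ := h5
      exact h.not_live_of_Chd h11 h10 h8
    rw [h.loc_dead h7 h2 h3 h1]
    exact h.rt_eq_mono h1 h6
  · intro h5 h6 h7 h8
    exfalso
    obtain ⟨h9, h10⟩ := h.rg_new h1 h8 h7 h6
    have h11 := h.eq_of_rt_live h10 h9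
    rw [h11] at hmem
    exact hm h5 hmem
  · intro h5 h6 _ h8
    have h9 : ¬ B.ll s l := by
      intro h9
      have h10 := h.loc_live h9
      rw [h.rt_of_live h10] at h8
      have h11 := h.eq_of_rt_live h10 h8
      rw [← h11] at hmem
      exact hm h5 hmem
    rw [h.loc_dead h9 h2 h3 h1]
    exact h.rt_eq_mono h1 h8
  · intro h5 h6 _ h7 h8 h9
    have h10 : B.loc s' l = B.rt s' (B.loc s' l) := h.eq_of_rt_live h9 rfl
    rw [← h10] at h9
    obtain ⟨_, hmem'⟩ := loc_spec (h3.trans_le h1) h2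
    have h11 : B.ll s l := h.ll_down ⟨_, h9, hmem'⟩ h3 h1
    have h12 := h.loc_live h11
    rw [h.rt_of_live h12] at h6 ⊢
    refine ⟨?_, h12⟩
    rcases ReflTransGen.cases_head h6.2 with h13 | ⟨d, h13, h14⟩
    · rw [← h13] at hmem
      exact (hm h5 hmem).elim
    · exact h.XL_down h8 h1 h13 ((Desc_le h14).trans_lt h6.1)

/-- the value of the counter along a lineage -/
theorem ctl_parity (h : Org B) (hn : 2 ≤ n) {s l : ℕ} (h2 : B.real l) (h3 : l / 2 < s) (z : ℕ) :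
    B.ctl n C s l z % 2 = B.ctr n C s (B.rt s (B.loc s l)) z % 2 := by
  obtain ⟨h8, h9⟩ := loc_spec h3 h2
  unfold ctl
  rw [if_neg (show ¬ s ≤ l / 2 by omega)]
  by_cases h4 : zi z = 2 ∧ B.mem l (zb z)
  swap
  · rw [if_neg h4]
  rw [if_pos h4]
  obtain ⟨h4, h5⟩ := h4
  unfold ctr
  rw [if_neg (show ¬ zi z = 0 by omega), if_neg (show ¬ zi z = 1 by omega), if_pos h4]
  unfold cM
  by_cases h6 : zb z < s
  swap
  · rw [if_neg h6, if_pos]
    rintro ⟨h7, h8⟩
    have := Desc_le h8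
    omega
  rw [if_pos h6]
  have h7 : zb z ≤ B.loc s l := le_loc h6 h5
  have h10 := h.chain h5 h9 h7
  have h11 : B.De s (zb z) (B.rt s (B.loc s l)) :=
    ⟨h.rt_lt h8, (chain_Desc h10).trans (h.rt_Desc s _)⟩
  rw [if_neg (not_not.2 h11)]
  by_cases h12 : B.rg n C s (ze z) (zb z) (zx z)
  swap
  · rw [if_pos h12]
  rw [if_neg (not_not.2 h12)]
  have h13 := h12.1
  rw [h13]
  by_cases h14 : B.rt s (zb z) = B.rt s (B.loc s l)
  · rw [if_pos h14]
    congr 1
    omega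
  rw [if_neg h14]
  rw [if_pos]
  · omega
  by_cases h15 : B.ll s l
  · have h16 := h.loc_live h15
    have h17 := h.rt_of_live h16
    rw [h17]
    refine ⟨XL_of_chain h10 (fun h18 => ?_) h8 h15, h16⟩
    rw [h18] at h14
    exact h14 rfl
  · exact (h14 (h.rt_eq_of_reach (h.chain_Mg h10 h15 h8))).elim

end Org

end Pool.Agent.MP5566
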