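import Pool.Agent.Lib.MP_5566a7_lc.Prim2
import Pool.Agent.Lib.MP_5566a7_lc.Abstract

/-!
The enumeration of all opponents (MP_5566a7_lc).
-/

namespace Pool.Agent.MP5566

open Nat.Partrec Filter

open Classical in
/-- number of changes made by the opponent `e` on `z ∈ α_e(x)` by stage `s` -/
noncomputable def cnt (n e x z s : ℕ) : ℕ :=
  Nat.findGreatest (fun k => ∀ j, j < k →
    (Code.evaln s (Denumerable.ofNat Code e) (Nat.pair (Nat.pair x z) j)).isSome = true) n

theorem evaln_isSome_mono {s s' : ℕ} {c : Code} {q : ℕ} (h : s ≤ s')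
    (h1 : (Code.evaln s c q).isSome = true) : (Code.evaln s' c q).isSome = true := by
  obtain ⟨y, hy⟩ := Option.isSome_iff_exists.1 h1
  exact Option.isSome_iff_exists.2 ⟨y, Code.evaln_mono h hy⟩

theorem cnt_spec {n e x z s : ℕ} : ∀ j, j < cnt n e x z s →
    (Code.evaln s (Denumerable.ofNat Code e) (Nat.pair (Nat.pair x z) j)).isSome = true := by
  classical
  exact Nat.findGreatest_spec (P := fun k => ∀ j, j < k →
    (Code.evaln s (Denumerable.ofNat Code e) (Nat.pair (Nat.pair x z) j)).isSome = true)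
    (Nat.zero_le n) (fun j hj => absurd hj (Nat.not_lt_zero j))

theorem le_cnt {n e x z s k : ℕ} (hk : k ≤ n) (h : ∀ j, j < k →
    (Code.evaln s (Denumerable.ofNat Code e) (Nat.pair (Nat.pair x z) j)).isSome = true) :
    k ≤ cnt n e x z s := by
  classical
  exact Nat.le_findGreatest hk h

theorem cnt_cnt (n : ℕ) : Cnt n (cnt n) where
  le e x z s := by
    classical
    exact Nat.findGreatest_le n
  mono e x z s s' h := by
    classical
    exact le_cnt (Nat.findGreatest_le n) fun j hj => evaln_isSome_mono h (cnt_spec j hj)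
  zero e x z := by
    by_contra h
    have h1 := cnt_spec (n := n) (e := e) (x := x) (z := z) (s := 0) 0 (Nat.pos_of_ne_zero h)
    simp [Code.evaln] at h1
  bd e x z s h := by
    have h1 := cnt_spec (n := n) (e := e) (x := x) (z := z) (s := s) 0 h
    obtain ⟨y, hy⟩ := Option.isSome_iff_exists.1 h1
    have h2 := Code.evaln_bound hy
    have h3 := Nat.left_le_pair (Nat.pair x z) 0
    have h4 := Nat.left_le_pair x z
    omega

theorem pc_cnt (n : ℕ) : PC (cnt n) := by
  unfold PC cnt
  refine pr_fg (γ := ℕ × ℕ × ℕ × ℕ) (b := fun _ => n) (p := fun q k => ∀ j, j < k →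
    (Code.evaln q.2.2.2 (Denumerable.ofNat Code q.1)
      (Nat.pair (Nat.pair q.2.1 q.2.2.1) j)).isSome = true) (Primrec.const n) ?_
  refine all_lt Primrec.snd ?_
  have e2 : Primrec fun q : ((ℕ × ℕ × ℕ × ℕ) × ℕ) × ℕ => q.1.1 := Primrec.fst.comp Primrec.fst
  have h1 := Primrec.fst.comp e2
  have h2 := Primrec.fst.comp (Primrec.snd.comp e2)
  have h3 := Primrec.fst.comp (Primrec.snd.comp (Primrec.snd.comp e2))
  have h4 := Primrec.snd.comp (Primrec.snd.comp (Primrec.snd.comp e2))
  exact Primrec.eq.comp (Primrec.option_isSome.comp (pr_evaln h4 h1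
    (Primrec₂.natPair.comp (Primrec₂.natPair.comp h2 h3) Primrec.snd))) (Primrec.const true)

/-- some opponent does nothing -/
theorem cnt_none (n : ℕ) : ∃ e, ∀ x z s, cnt n e x z s = 0 := by
  obtain ⟨c, hc⟩ := Code.exists_code.1 Nat.Partrec.none
  refine ⟨Encodable.encode c, fun x z s => ?_⟩
  by_contra h
  have h1 := cnt_spec (n := n) (e := Encodable.encode c) (x := x) (z := z) (s := s) 0
    (Nat.pos_of_ne_zero h)
  rw [Denumerable.ofNat_encode] at h1
  obtain ⟨y, hy⟩ := Option.isSome_iff_exists.1 h1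
  have h2 := Code.evaln_sound hy
  rw [hc] at h2
  exact Part.notMem_none _ h2

/-- number of changes of an approximation -/
def chg (f : ℕ → ℕ → Bool) (w : ℕ) : ℕ → ℕ
  | 0 => 0
  | s + 1 => chg f w s + (if f w (s + 1) = f w s then 0 else 1)

theorem chg_mono (f : ℕ → ℕ → Bool) (w : ℕ) {s s' : ℕ} (h : s ≤ s') :
    chg f w s ≤ chg f w s' := by
  induction s', h using Nat.le_induction with
  | base => exact le_rfl
  | succ k _ ih =>
    rw [chg]
    omega

theorem chg_parity {f : ℕ → ℕ → Bool} (h0 : ∀ z, f z 0 = false) (w s : ℕ) :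
    f w s = true ↔ chg f w s % 2 = 1 := by
  induction s with
  | zero => simp [h0, chg]
  | succ s ih =>
    rw [chg]
    by_cases h : f w (s + 1) = f w s
    · rw [if_pos h, h, ih, Nat.add_zero]
    · rw [if_neg h]
      cases h1 : f w (s + 1) <;> cases h2 : f w s
      · rw [h1, h2] at h; exact (h rfl).elim
      · rw [h2] at ih
        have := ih.1 rfl
        constructor
        · intro h3; exact absurd h3 (by decide)
        · intro h3; omega
      · rw [h2] at ih
        have : ¬ chg f w s % 2 = 1 := fun h3 => absurd (ih.2 h3) (by decide)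
        constructor
        · intro _; omega
        · intro _; rfl
      · rw [h1, h2] at h; exact (h rfl).elim

theorem chg_le {n : ℕ} {f : ℕ → ℕ → Bool} {w : ℕ}
    (h : {s | f w (s + 1) ≠ f w s}.encard ≤ n) (s : ℕ) : chg f w s ≤ n := by
  have h1 : chg f w s = ((Finset.range s).filter fun i => f w (i + 1) ≠ f w i).card := by
    induction s with
    | zero => simp [chg]
    | succ s ih =>
      rw [chg, Finset.range_add_one, Finset.filter_insert, ih]
      by_cases h2 : f w (s + 1) = f w s
      · rw [if_pos h2, if_neg (not_not.2 h2)]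
        rfl
      · rw [if_neg h2, if_pos h2, Finset.card_insert_of_notMem]
        simp
  rw [h1]
  have h2 : ((Finset.range s).filter fun i => f w (i + 1) ≠ f w i : Set ℕ).encard ≤
      {s | f w (s + 1) ≠ f w s}.encard := by
    apply Set.encard_le_encard
    intro i hi
    simp only [Finset.coe_filter, Set.mem_ofPred_eq] at hi
    exact hi.2
  rw [Set.encard_coe_eq_coe_finsetCard] at h2
  exact_mod_cast h2.trans h

theorem chg_comp {f : ℕ → ℕ → Bool} (hf : Computable₂ f) : Computable₂ (chg f) := by
  have h1 : Computable fun p : ℕ × ℕ => Nat.rec (motive := fun _ => ℕ) 0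
      (fun s ih => ih + (if f p.1 (s + 1) = f p.1 s then 0 else 1)) p.2 := by
    refine Computable.nat_rec (f := fun p : ℕ × ℕ => p.2) (g := fun _ => 0)
      (h := fun (p : ℕ × ℕ) (q : ℕ × ℕ) =>
        q.2 + (if f p.1 (q.1 + 1) = f p.1 q.1 then 0 else 1))
      Computable.snd (Computable.const 0) ?_
    have h2 : Computable fun a : (ℕ × ℕ) × (ℕ × ℕ) => f a.1.1 (a.2.1 + 1) :=
      hf.comp (Computable.fst.comp Computable.fst)
        (Computable.succ.comp (Computable.fst.comp Computable.snd))
    have h3 : Computable fun a : (ℕ × ℕ) × (ℕ × ℕ) => f a.1.1 a.2.1 :=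
      hf.comp (Computable.fst.comp Computable.fst) (Computable.fst.comp Computable.snd)
    have h4 : Computable fun a : (ℕ × ℕ) × (ℕ × ℕ) =>
        decide (f a.1.1 (a.2.1 + 1) = f a.1.1 a.2.1) :=
      (Primrec.eq (α := Bool)).decide.to_comp.comp h2 h3
    have h5 : Computable fun a : (ℕ × ℕ) × (ℕ × ℕ) =>
        (cond (decide (f a.1.1 (a.2.1 + 1) = f a.1.1 a.2.1)) 0 1 : ℕ) :=
      Computable.cond h4 (Computable.const 0) (Computable.const 1)
    refine (Primrec.nat_add.to_comp.comp (Computable.snd.comp Computable.snd) h5).of_eq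
      fun a => ?_
    rw [Bool.cond_decide]
  refine Computable.of_eq h1 fun p => ?_
  obtain ⟨w, s⟩ := p
  dsimp only
  induction s with
  | zero => rfl
  | succ s ih =>
    rw [chg, ← ih]

/-- the enumeration contains all `Σ⁻¹ₙ`-computable numberings -/
theorem cnt_univ {n : ℕ} {α : ℕ → Set ℕ} (h : IsNCE n {w | w.unpair.1 ∈ α w.unpair.2}) :
    ∃ e, ∀ x z, ∀ᶠ s in atTop, (z ∈ α x ↔ cnt n e x z s % 2 = 1) := by
  obtain ⟨f, h1, h2, h3, h4⟩ := h
  have hc := chg_comp h1
  -- the partial function
  have h5 : Partrec fun q : ℕ => Nat.rfind fun s =>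
      Part.some (decide (q.unpair.2 < chg f (Nat.pair q.unpair.1.unpair.2 q.unpair.1.unpair.1) s)) := by
    refine Partrec.rfind (Computable.partrec ?_)
    refine (Primrec.nat_lt.decide.to_comp.comp
      (Computable.snd.comp (Computable.unpair.comp Computable.fst)) (hc.comp ?_ Computable.snd))
    have h6 : Computable fun p : ℕ × ℕ => p.1.unpair.1.unpair :=
      Computable.unpair.comp (Computable.fst.comp (Computable.unpair.comp Computable.fst))
    exact Primrec₂.natPair.to_comp.comp (Computable.snd.comp h6) (Computable.fst.comp h6)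
  obtain ⟨c, hc'⟩ := Code.exists_code.1 (Partrec.nat_iff.1 h5)
  have key : ∀ x z j, (∃ s, (Code.evaln s c (Nat.pair (Nat.pair x z) j)).isSome = true) ↔
      ∃ s, j < chg f (Nat.pair z x) s := by
    intro x z j
    have h6 : (Code.eval c (Nat.pair (Nat.pair x z) j)).Dom ↔
        ∃ s, j < chg f (Nat.pair z x) s := by
      rw [hc', Nat.rfind_dom]
      simp
    rw [← h6, Part.dom_iff_mem]
    constructor
    · rintro ⟨s, hs⟩
      obtain ⟨y, hy⟩ := Option.isSome_iff_exists.1 hs
      exact ⟨y, Code.evaln_sound hy⟩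
    · rintro ⟨y, hy⟩
      obtain ⟨s, hs⟩ := Code.evaln_complete.1 hy
      exact ⟨s, Option.isSome_iff_exists.2 ⟨y, hs⟩⟩
  refine ⟨Encodable.encode c, fun x z => ?_⟩
  obtain ⟨v, hv⟩ := ev_const (u := chg f (Nat.pair z x)) (fun s s' h => chg_mono f _ h)
    (fun s => chg_le (h3 _) s)
  have hvn : v ≤ n := by
    obtain ⟨s, hs⟩ := hv.exists
    rw [← hs]
    exact chg_le (h3 _) s
  have hvle : ∀ s, chg f (Nat.pair z x) s ≤ v := by
    intro s
    obtain ⟨s', hs', hs''⟩ := (hv.and (eventually_ge_atTop s)).exists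
    rw [← hs']
    exact chg_mono f _ hs''
  -- the limit of the count
  have hle : ∀ s, cnt n (Encodable.encode c) x z s ≤ v := by
    intro s
    by_contra h6
    push Not at h6
    have h7 := cnt_spec v h6
    rw [Denumerable.ofNat_encode] at h7
    obtain ⟨s', h8⟩ := (key x z v).1 ⟨s, h7⟩
    have := hvle s'
    omega
  have hge : ∀ᶠ s in atTop, v ≤ cnt n (Encodable.encode c) x z s := by
    have h6 : ∀ᶠ s in atTop, ∀ j, j < v →
        (Code.evaln s c (Nat.pair (Nat.pair x z) j)).isSome = true := by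
      have h7 : ∀ j, j < v → ∀ᶠ s in atTop,
          (Code.evaln s c (Nat.pair (Nat.pair x z) j)).isSome = true := by
        intro j hj
        obtain ⟨s0, hs0⟩ := hv.exists
        obtain ⟨s, hs⟩ := (key x z j).2 ⟨s0, by rw [hs0]; exact hj⟩
        filter_upwards [eventually_ge_atTop s] with s' hs'
        exact evaln_isSome_mono hs' hs
      have h8 : ∀ m, m ≤ v → ∀ᶠ s in atTop, ∀ j, j < m →
          (Code.evaln s c (Nat.pair (Nat.pair x z) j)).isSome = true := by
        intro m
        induction m with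
        | zero => exact fun _ => Eventually.of_forall fun s j hj => absurd hj (Nat.not_lt_zero j)
        | succ m ih =>
          intro hm
          filter_upwards [ih (by omega), h7 m (by omega)] with s h9 h10 j hj
          rcases Nat.lt_succ_iff_lt_or_eq.1 hj with h11 | h11
          · exact h9 j h11
          · rw [h11]; exact h10
      exact h8 v le_rfl
    filter_upwards [h6] with s h7
    refine le_cnt hvn fun j hj => ?_
    rw [Denumerable.ofNat_encode]
    exact h7 j hj
  have h6 : z ∈ α x ↔ v % 2 = 1 := by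
    have h7 : z ∈ α x ↔ Nat.pair z x ∈ {w | w.unpair.1 ∈ α w.unpair.2} := by simp
    rw [h7, h4]
    constructor
    · rintro ⟨s0, hs0⟩
      obtain ⟨s, hs, hs'⟩ := (hv.and (eventually_ge_atTop s0)).exists
      rw [← hs, ← chg_parity h2]
      exact hs0 s hs'
    · intro h8
      obtain ⟨s0, hs0⟩ := eventually_atTop.1 hv
      refine ⟨s0, fun s hs => ?_⟩
      rw [chg_parity h2, hs0 s hs]
      exact h8
  filter_upwards [hge] with s h7
  rw [h6, le_antisymm (hle s) h7]

end Pool.Agent.MP5566
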