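import Pool.Agent.Lib.MP_5566a7_lc.Final

/-!
Analysis of the requirements (MP_5566a7_lc).
-/

namespace Pool.Agent.MP5566

open Relation Filter

namespace Sq

variable (B : Sq)

/-- search predicate for `α_e ≤ ν` -/
def Rh (n : ℕ) (C : ℕ → ℕ → ℕ → ℕ → ℕ) (e x c s : ℕ) : Prop :=
  B.rg n C s e c x ∨
  (c < s ∧ ¬ B.live s c ∧ ¬ B.exd s c ∧ C e x (mkr 0 e c x) s = n) ∨
  (B.exd s c ∧ C e x (mkr 1 e c x) s = n)

/-- search predicate for `μ ≤ α_e` -/
def Rl (n : ℕ) (C : ℕ → ℕ → ℕ → ℕ → ℕ) (e l x s : ℕ) : Prop :=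
  B.bond n C s l e x ∨
  (l / 2 < s ∧ ¬ B.ll s l ∧ B.exd s (B.loc s l) ∧ C e x (mkr 1 e (B.loc s l) x) s = n) ∨
  (l / 2 < s ∧ ¬ B.ll s l ∧ ¬ B.exd s (B.loc s l) ∧ C e x (mkr 0 e (B.loc s l) x) s = n)

end Sq

namespace Org

open Sq

variable {B : Sq} {n : ℕ} {C : ℕ → ℕ → ℕ → ℕ → ℕ}

theorem real_of_mem (h : Org B) {l t : ℕ} (h1 : B.mem l t) : B.real l := by
  induction t using Nat.strong_induction_on with
  | _ t ih =>
    rcases h.org t l h1 with h2 | ⟨t', h2, _, h3⟩
    · unfold real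
      rw [h2]
      exact h1
    · exact ih t' h2.1 h3

theorem no_child {c s : ℕ} (h1 : c < s) (h2 : ¬ B.live s c) (h3 : ¬ B.exd s c) (c1 : ℕ) :
    ¬ B.Chd c c1 := by
  intro h4
  rcases Nat.lt_or_ge c1 s with h5 | h5
  · exact h3 ⟨c1, h5, h4⟩
  · exact h2 (h4.1.down h1 h5)

theorem rt_of_no_child (h : Org B) {c : ℕ} (h1 : ∀ c1, ¬ B.Chd c c1) (s : ℕ) : B.rt s c = c :=
  h.rt_uniq ReflTransGen.refl fun c1 h2 => h1 c1 h2.2.1

theorem rt_of_XL (h : Org B) {c s : ℕ} (h1 : B.XL s c) : B.rt s c = c :=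
  h.rt_uniq ReflTransGen.refl fun _ h2 => h2.2.2 h1

theorem eq_of_no_child {b c : ℕ} (h1 : ∀ c1, ¬ B.Chd b c1)
    (h2 : ReflTransGen B.Chd b c) : c = b := by
  rcases ReflTransGen.cases_head h2 with h3 | ⟨d, h3, _⟩
  · exact h3.symm
  · exact (h1 d h3).elim

theorem mu_of_final (h : Org B) {l t : ℕ} (h1 : B.mem l t) (h2 : ∀ c, ¬ B.chl l t c) :
    B.mu n C (2 * l) = B.nu n C t := by
  refine mu_eq_nu ?_
  filter_upwards [eventually_gt_atTop t] with s hs
  unfold pth
  rw [if_neg (by omega), show 2 * l / 2 = l by omega, if_pos (h.real_of_mem h1)]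
  exact h.loc_final h1 h2 hs

theorem pth_even (h : Org B) {l t : ℕ} (h1 : B.mem l t) (s : ℕ) : B.pth (2 * l) s = B.loc s l := by
  unfold pth
  rw [if_neg (by omega), show 2 * l / 2 = l by omega, if_pos (h.real_of_mem h1)]

theorem mu_FL (h : Org B) {l t : ℕ} (h1 : B.mem l t) (h2 : B.FL t) :
    B.mu n C (2 * l) = B.nu n C t :=
  h.mu_of_final h1 fun _ h3 => h.FL_not_Chd h2 h3.Chd

/-- every set of `μ` is a set of `ν` -/
theorem mu_range (h : Org B) (hT : Conv B) (m : ℕ) : ∃ c, B.mu n C m = B.nu n C c := by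
  by_cases h1 : m % 2 = 1
  · refine ⟨B.pth m 0, mu_eq_nu (Eventually.of_forall fun s => ?_)⟩
    unfold pth
    rw [if_pos h1, if_pos h1]
  · by_cases h2 : B.real (m / 2)
    · obtain ⟨t, _, h3⟩ := h.ev_loc hT h2
      refine ⟨t, mu_eq_nu ?_⟩
      filter_upwards [h3] with s h4
      unfold pth
      rw [if_neg h1, if_pos h2, h4]
    · refine ⟨0, mu_eq_nu (Eventually.of_forall fun s => ?_)⟩
      unfold pth
      rw [if_neg h1, if_neg h2]

/-- every set of `ν` is a set of `μ` -/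
theorem nu_range (h : Org B) (c : ℕ) : ∃ m, B.nu n C c = B.mu n C m := by
  by_cases h1 : ∃ s, B.exd s c
  · obtain ⟨s, h1⟩ := h1
    refine ⟨2 * Nat.pair c s + 1, (mu_eq_nu (Eventually.of_forall fun s' => ?_)).symm⟩
    unfold pth
    rw [if_pos (by omega), show (2 * Nat.pair c s + 1) / 2 = Nat.pair c s by omega]
    simp [h1]
  · push Not at h1
    refine ⟨2 * B.J c, (h.mu_of_final (Or.inl rfl) fun c1 h2 => ?_).symm⟩
    exact h1 (c1 + 1) ⟨c1, Nat.lt_succ_self _, h2.Chd⟩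

/-- distinct final roots have distinct sets -/
theorem nu_eq_iff (h : Org B) (hT : Conv B) (hn : 2 ≤ n)
    (h0 : ∃ e, ∀ x z s, C e x z s = 0) {c c' : ℕ} :
    B.nu n C c = B.nu n C c' ↔ ∃ s, B.rt s c = B.rt s c' := by
  constructor
  · intro h1
    by_contra h2
    push Not at h2
    obtain ⟨r, hr⟩ := h.ev_rt hT c
    obtain ⟨r', hr'⟩ := h.ev_rt hT c'
    obtain ⟨e, he⟩ := h0
    have hne : r ≠ r' := by
      obtain ⟨s, h3, h4⟩ := (hr.and hr').exists
      rw [← h3, ← h4]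
      exact h2 s
    rcases ev_exd (B := B) r with h3 | h3
    · have h4 : mkr 1 e r 0 ∈ B.nu n C c := by
        change ∀ᶠ s in atTop, _
        filter_upwards [hr, h3] with s h4 h5
        rw [ctr_mkr1, he, cP, if_pos ⟨h5, by rw [← h4, h.rt_rt]⟩]
        omega
      rw [h1] at h4
      change ∀ᶠ s in atTop, _ at h4
      obtain ⟨s, ⟨h5, h6⟩, h7⟩ := ((h4.and hr).and hr').exists
      rw [ctr_mkr1, he, cP, if_neg, if_neg (by omega)] at h5
      · omega
      · rintro ⟨_, h8⟩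
        rw [h7, ← h6, h.rt_rt, h6] at h8
        exact hne h8
    · have h9 : ∀ c1, ¬ B.Chd r c1 := fun c1 h9 => h3 (c1 + 1) ⟨c1, Nat.lt_succ_self _, h9⟩
      have h4 : mkr 0 e r 0 ∈ B.nu n C c := by
        change ∀ᶠ s in atTop, _
        filter_upwards [hr, eventually_gt_atTop r] with s h4 h5
        rw [ctr_mkr0, he, cP, if_pos (by rw [h4]; exact ⟨h5, ReflTransGen.refl⟩)]
        omega
      rw [h1] at h4
      change ∀ᶠ s in atTop, _ at h4
      obtain ⟨s, h5, h7⟩ := (h4.and hr').exists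
      rw [ctr_mkr0, he, cP, if_neg, if_neg (by omega)] at h5
      · omega
      · rintro ⟨_, h8⟩
        rw [h7] at h8
        exact hne (eq_of_no_child h9 h8).symm
  · rintro ⟨s, h1⟩
    refine nu_congr ?_
    filter_upwards [eventually_ge_atTop s] with s' hs'
    exact h.rt_eq_mono hs' h1

/-- the only indices of the set of a block which is never removed are its lineages -/
theorem mu_eq_FL (h : Org B) (hT : Conv B) (hn : 2 ≤ n)
    (h0 : ∃ e, ∀ x z s, C e x z s = 0) {m t : ℕ} (ht : B.FL t) (ht0 : t ≠ 0)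
    (h1 : B.mu n C m = B.nu n C t) : ∃ l, m = 2 * l ∧ B.mem l t := by
  have key : ∀ c, B.nu n C c = B.nu n C t → c = t := by
    intro c h2
    obtain ⟨s, h3⟩ := (h.nu_eq_iff hT hn h0).1 h2
    have h4 := h.rt_eq_mono (le_max_left s (t + 1)) h3
    have h5 : B.live (max s (t + 1)) t := ht.live (lt_of_lt_of_le (Nat.lt_succ_self t)
      (le_max_right _ _))
    rw [h.rt_of_live h5] at h4
    exact h.eq_of_rt_live h5 h4
  by_cases h2 : m % 2 = 1
  · exfalso
    have h3 : B.mu n C m = B.nu n C (B.pth m 0) := mu_eq_nu (Eventually.of_forall fun s => by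
      unfold pth
      rw [if_pos h2, if_pos h2])
    have h4 := key _ (h3.symm.trans h1)
    unfold pth at h4
    rw [if_pos h2] at h4
    split_ifs at h4 with h5
    · rw [h4] at h5
      obtain ⟨c1, _, h6⟩ := h5
      exact h.FL_not_Chd ht h6
    · exact ht0 h4.symm
  · by_cases h3 : B.real (m / 2)
    · obtain ⟨t', h4, h5⟩ := h.ev_loc hT h3
      have h6 : B.mu n C m = B.nu n C t' := by
        refine mu_eq_nu ?_
        filter_upwards [h5] with s h4
        unfold pth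
        rw [if_neg h2, if_pos h3, h4]
      have h7 := key _ (h6.symm.trans h1)
      rw [h7] at h4
      exact ⟨m / 2, by omega, h4⟩
    · exfalso
      have h6 : B.mu n C m = B.nu n C 0 := by
        refine mu_eq_nu (Eventually.of_forall fun s => ?_)
        unfold pth
        rw [if_neg h2, if_neg h3]
      exact ht0 (key _ (h6.symm.trans h1)).symm

/-- a block whose child is never removed has a set different from it -/
theorem nu_ne_of_child (h : Org B) (hT : Conv B) (hn : 2 ≤ n)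
    (h0 : ∃ e, ∀ x z s, C e x z s = 0) {l t t' : ℕ} (h1 : B.chl l t t') (h2 : B.FL t') :
    B.nu n C t ≠ B.nu n C t' := by
  intro h3
  obtain ⟨s, h4⟩ := (h.nu_eq_iff hT hn h0).1 h3
  have h5 := h.rt_eq_mono (le_max_left s (t' + 1)) h4
  have h6 : t' < max s (t' + 1) := lt_of_lt_of_le (Nat.lt_succ_self t') (le_max_right _ _)
  have h7 := h2.live h6
  rw [h.rt_of_live h7] at h5
  rw [h.rt_of_XL ⟨t', h6, l, h1, t', h7, h1.2.2⟩] at h5
  have := h1.1.1
  omega

section E

variable {e : ℕ}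

theorem Rh_total (h : Org B) (hT : Conv B) (hC : Cnt n C) {x c0 : ℕ}
    (hA : B.Agree n C e x c0) : ∃ c s, B.Rh n C e x c s := by
  obtain ⟨r, hr⟩ := h.ev_rt hT c0
  by_cases h1 : B.FL r
  · obtain ⟨s, h2⟩ := K_M1 hC hA h1 hr
    exact ⟨r, s, Or.inl h2⟩
  have h2 : ∀ᶠ s in atTop, ¬ B.live s r := by
    rcases ev_live (B := B) (r := r) with h2 | h2
    · exact (h1 (FL_of_ev h2.frequently)).elim
    · exact h2
  rcases ev_exd (B := B) r with h3 | h3
  · obtain ⟨s, ⟨h4, h5⟩, h6⟩ := ((hr.and h3).and (K_S hC hA r)).exists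
    refine ⟨r, s, Or.inr (Or.inr ⟨h5, h6.1 ⟨h5, ?_⟩⟩)⟩
    rw [← h4, h.rt_rt]
  · obtain ⟨s, ⟨⟨h4, h5⟩, h6⟩, h7⟩ := (((hr.and h2).and (K_W hC hA r)).and
      (eventually_gt_atTop r)).exists
    refine ⟨r, s, Or.inr (Or.inl ⟨h7, h5, h3 s, h6.1 ?_⟩)⟩
    rw [h4]
    exact ⟨h7, ReflTransGen.refl⟩

/-- if the search answers wrongly then a final lineage gets its bit -/
theorem Rh_ok (h : Org B) (hT : Conv B) (hC : Cnt n C) (hn : 2 ≤ n) {x c0 c s : ℕ}
    (hA : B.Agree n C e x c0) (h1 : B.Rh n C e x c s) :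
    B.nu n C c = B.nu n C c0 ∨ ∃ l t, B.FL t ∧ B.mem l t ∧ x < t ∧ ∃ s', B.bt n C s' l e := by
  rcases h1 with h1 | ⟨h1, h2, h3, h4⟩ | ⟨h1, h2⟩
  · by_cases h2 : ∃ᶠ s in atTop, B.rt s c = B.rt s c0
    · left
      obtain ⟨s', h3⟩ := h2.exists
      refine nu_congr ?_
      filter_upwards [eventually_ge_atTop s'] with s'' hs'
      exact h.rt_eq_mono hs' h3
    · right
      rw [not_frequently] at h2
      have h3 := (K_M2 hC hn hA h1).and h2
      have h4 : ∀ᶠ s in atTop, B.De s c (B.rt s c0) ∧ B.XL s c ∧ B.live s (B.rt s c0) := by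
        filter_upwards [h3] with s h4
        exact ⟨h4.1.1, h4.1.2.resolve_left h4.2⟩
      obtain ⟨r, hr⟩ := h.ev_rt hT c0
      have hrF : B.FL r := FL_of_ev ((h4.and hr).frequently.mono fun s h5 => by
        rw [← h5.2]; exact h5.1.2.2)
      obtain ⟨s1, ⟨h5, h6⟩, h7⟩ := ((h4.and hr).and h2).exists
      obtain ⟨h5, ⟨c1, h8, l, h9, _⟩, _⟩ := h5
      rw [h6] at h5
      -- `c ≠ r`
      have h10 : c ≠ r := by
        intro h10
        rw [h10, h6] at h7
        exact h7 (h.rt_of_live (hrF.live h5.1))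
      have h11 : ReflTransGen B.Chd c1 r := by
        rcases ReflTransGen.cases_head h5.2 with h12 | ⟨d, h12, h13⟩
        · exact (h10 h12).elim
        · rwa [h.Chd_uniq h9.Chd h12]
      -- the lineage `l` is live for ever
      have h12 : ∃ᶠ s in atTop, B.ll s l := by
        refine h4.frequently.mono fun s h12 => ?_
        obtain ⟨c2, _, l2, h13, h14⟩ := h12.2.1
        obtain ⟨h15, _⟩ := h.shared_uniq h9 h13
        rw [h15]
        exact h14
      obtain ⟨t, h13, h14, h15⟩ := h.ll_final hT h9.2.2 h12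
      -- the bit
      obtain ⟨s2, ⟨⟨h16, h17⟩, h18⟩, h19⟩ := (((K_W hC hA c1).and hr).and
        (eventually_gt_atTop (max c1 r))).and (eventually_ge_atTop s) |>.exists
      have h20 : C e x (mkr 0 e c1 x) s2 = n := by
        refine h16.1 ?_
        rw [h17]
        exact ⟨lt_of_le_of_lt (le_max_right _ _) h18, h11⟩
      have h21 : c1 < s2 := lt_of_le_of_lt (le_max_left _ _) h18
      refine ⟨l, t, h13, h14, ?_, s2, x, hC.bd e x (mkr 0 e c1 x) s2 (by rw [h20]; omega), c,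
        h9.1.1.trans h21, c1, h21, h9, rg_mono hC h19 h1, h20⟩
      have h22 := hC.bd e x _ _ (by rw [h1.1]; omega : 0 < C e x (mkr 2 e c x) (B.ls s c))
      exact (h22.trans_le (h.Chd_ls h9.Chd)).trans_le h15
  · left
    have h5 := no_child h1 h2 h3
    refine nu_congr ?_
    filter_upwards [K_W hC hA c, eventually_ge_atTop s] with s' h6 h7
    have h8 := h6.2 (hC.top h4 h7)
    have h9 := eq_of_no_child h5 h8.2
    rw [h9, h.rt_of_no_child h5]
  · left
    refine nu_congr ?_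
    filter_upwards [K_S hC hA c, eventually_ge_atTop s] with s' h6 h7
    exact (h6.2 (hC.top h2 h7)).2

theorem Rl_total (h : Org B) (hT : Conv B) (hC : Cnt n C)
    (hs : ∀ c, ∃ x, B.Agree n C e x c) {l : ℕ} (hl : B.real l)
    (h1 : ∀ t, B.FL t → B.mem l t → ∃ s, B.bt n C s l e) : ∃ x s, B.Rl n C e l x s := by
  by_cases h2 : ∃ᶠ s in atTop, B.ll s l
  · obtain ⟨t, h3, h4, _⟩ := h.ll_final hT hl h2
    obtain ⟨s, x, _, h5⟩ := h1 t h3 h4
    exact ⟨x, s, Or.inl h5⟩
  · rw [not_frequently] at h2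
    obtain ⟨t, _, ht⟩ := h.ev_loc hT hl
    obtain ⟨x, hx⟩ := hs t
    rcases ev_exd (B := B) t with h3 | h3
    · obtain ⟨s, ⟨⟨h4, h5⟩, h6⟩, h7, h8⟩ := (((h2.and h3).and (K_S hC hx t)).and
        ((eventually_gt_atTop (l / 2)).and ht)).exists
      refine ⟨x, s, Or.inr (Or.inl ?_)⟩
      rw [h8]
      exact ⟨h7, h4, h5, h6.1 ⟨h5, rfl⟩⟩
    · obtain ⟨s, ⟨⟨h4, h9⟩, h6⟩, h7, h8⟩ := (((h2.and (eventually_gt_atTop t)).and
        (K_W hC hx t)).and ((eventually_gt_atTop (l / 2)).and ht)).exists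
      refine ⟨x, s, Or.inr (Or.inr ?_)⟩
      rw [h8]
      exact ⟨h7, h4, h3 s, h6.1 ⟨h.rt_lt h9, h.rt_Desc s t⟩⟩

theorem Rl_ok (h : Org B) (hT : Conv B) (hC : Cnt n C) (hn : 2 ≤ n) {l x s c0 : ℕ}
    (hl : B.real l) (hA : B.Agree n C e x c0) (h1 : B.Rl n C e l x s) :
    B.mu n C (2 * l) = B.nu n C c0 := by
  rcases h1 with ⟨b, _, c, _, h1, h2, h3⟩ | ⟨h1, h2, h3, h4⟩ | ⟨h1, h2, h3, h4⟩
  · obtain ⟨t, ht, ht'⟩ := h.ev_loc hT hl
    have hmu : B.mu n C (2 * l) = B.nu n C t := by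
      refine mu_eq_nu ?_
      filter_upwards [ht'] with s h4
      rw [h.pth_even ht, h4]
    rw [hmu]
    have hct : c ≤ t := by
      obtain ⟨s', h4, h5⟩ := (ht'.and (eventually_gt_atTop c)).exists
      rw [← h4]
      exact le_loc h5 h1.2.2
    have hbc := h1.1.1
    by_cases h4 : ∃ᶠ s in atTop, B.ll s l
    · obtain ⟨t', h5, h6, _⟩ := h.ll_final hT ht h4
      have h7 : t = t' := by
        obtain ⟨s', h7, h8⟩ := (ht'.and (eventually_gt_atTop t')).exists
        rw [← h7]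
        exact h.loc_of_live (h5.live h8) h6
      subst h7
      refine nu_congr ?_
      filter_upwards [K_M2 hC hn hA h2, K_W hC hA c, eventually_gt_atTop t,
        eventually_ge_atTop s] with s' h8 h9 h10 h11
      have h12 := h5.live h10
      have h13 := (h9.2 (hC.top h3 h11)).2
      have h14 := chain_Desc (h.chain h1.2.2 ht hct)
      have h15 : B.XL s' b := XL_of_chain (h.chain h1.2.1 ht (by omega)) (by omega) h10
        ⟨t, h12, ht⟩
      rw [h.rt_of_live h12]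
      rcases h8.2 with h16 | h16
      · exfalso
        rw [h.rt_of_XL h15] at h16
        rw [← h16] at h13
        have := Desc_le h13
        omega
      · rcases h.Desc_total h14 h13 with h17 | h17
        · exact (h.eq_of_Desc_live h17 h12 h16.2.1).symm
        · exact h.eq_of_Desc_live h17 h16.2 h10
    · rw [not_frequently] at h4
      refine nu_congr ?_
      filter_upwards [K_M2 hC hn hA h2, h4, eventually_gt_atTop t] with s' h8 h9 h10
      have h11 : ¬ B.XL s' b := by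
        rintro ⟨c1, _, l1, h12, h13⟩
        obtain ⟨h14, _⟩ := h.shared_uniq h1 h12
        rw [← h14] at h13
        exact h9 h13
      have h12 : B.rt s' b = B.rt s' t :=
        h.rt_eq_of_reach (h.chain_Mg (h.chain h1.2.1 ht (by omega)) h9 h10)
      rcases h8.2 with h16 | h16
      · rw [← h12, h16]
      · exact (h11 h16.1).elim
  · have hmu : B.mu n C (2 * l) = B.nu n C (B.loc s l) := by
      refine mu_eq_nu ?_
      filter_upwards [eventually_ge_atTop s] with s' h5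
      rw [h.pth_even hl, h.loc_dead h2 hl h1 h5]
    rw [hmu]
    refine nu_congr ?_
    filter_upwards [K_S hC hA (B.loc s l), eventually_ge_atTop s] with s' h6 h7
    exact (h6.2 (hC.top h4 h7)).2
  · have hmu : B.mu n C (2 * l) = B.nu n C (B.loc s l) := by
      refine mu_eq_nu ?_
      filter_upwards [eventually_ge_atTop s] with s' h5
      rw [h.pth_even hl, h.loc_dead h2 hl h1 h5]
    rw [hmu]
    obtain ⟨h5, h6⟩ := loc_spec h1 hl
    have h7 : ∀ c1, ¬ B.Chd (B.loc s l) c1 := no_child h5 (fun h7 => h2 ⟨_, h7, h6⟩) h3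
    refine nu_congr ?_
    filter_upwards [K_W hC hA (B.loc s l), eventually_ge_atTop s] with s' h8 h9
    have h10 := h8.2 (hC.top h4 h9)
    rw [eq_of_no_child h7 h10.2, h.rt_of_no_child h7]

end E

end Org

end Pool.Agent.MP5566
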