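import Pool.Agent.Lib.MP_5566a7_lc.Run
import Pool.Agent.Lib.MP_5566a7_lc.Req

/-!
Primitive recursiveness of the notions used in the construction (MP_5566a7_lc).
-/

namespace Pool.Agent.MP5566

open Relation

section closure

variable {γ : Type} [Primcodable γ]

theorem ex_lt {b : γ → ℕ} {p : γ → ℕ → Prop} (hb : Primrec b)
    (hp : PrimrecPred fun q : γ × ℕ => p q.1 q.2) : PrimrecPred fun a => ∃ x, x < b a ∧ p a x := by
  have h1 : PrimrecRel fun (x : ℕ) (a : γ) => p a x :=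
    hp.comp (Primrec.snd.pair Primrec.fst)
  have h2 := h1.exists_mem_list
  exact (h2.comp (Primrec.list_range.comp hb) Primrec.id).of_eq fun a => by simp

theorem all_lt {b : γ → ℕ} {p : γ → ℕ → Prop} (hb : Primrec b)
    (hp : PrimrecPred fun q : γ × ℕ => p q.1 q.2) : PrimrecPred fun a => ∀ x, x < b a → p a x := by
  have h1 : PrimrecRel fun (x : ℕ) (a : γ) => p a x :=
    hp.comp (Primrec.snd.pair Primrec.fst)
  have h2 := h1.forall_mem_list
  exact (h2.comp (Primrec.list_range.comp hb) Primrec.id).of_eq fun a => by simp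

theorem pp_imp {p q : γ → Prop} (hp : PrimrecPred p) (hq : PrimrecPred q) :
    PrimrecPred fun a => p a → q a :=
  (hp.not.or hq).of_eq fun a => by tauto

theorem pr_ite {p : γ → Prop} [DecidablePred p] {σ : Type} [Primcodable σ] {f g : γ → σ} (hp : PrimrecPred p)
    (hf : Primrec f) (hg : Primrec g) : Primrec fun a => if p a then f a else g a :=
  Primrec.ite hp hf hg

theorem pr_fg {b : γ → ℕ} {p : γ → ℕ → Prop} {inst : ∀ a, DecidablePred (p a)} (hb : Primrec b)
    (hp : PrimrecPred fun q : γ × ℕ => p q.1 q.2) :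
    Primrec fun a => @Nat.findGreatest (p a) (inst a) (b a) :=
  @Primrec.nat_findGreatest γ _ b p inst hb hp

end closure

/-- a primitive recursive family of sequences -/
structure PSq {γ : Type} [Primcodable γ] (B : γ → Sq) : Prop where
  G : Primrec fun q : γ × ℕ => (B q.1).G q.2
  J : Primrec fun q : γ × ℕ => (B q.1).J q.2
  K : Primrec fun q : γ × ℕ => (B q.1).K q.2
  F : Primrec fun q : γ × ℕ => (B q.1).F q.2

/-- the counter of the opponents is primitive recursive -/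
def PC (C : ℕ → ℕ → ℕ → ℕ → ℕ) : Prop :=
  Primrec fun q : ℕ × ℕ × ℕ × ℕ => C q.1 q.2.1 q.2.2.1 q.2.2.2

section

variable {γ : Type} [Primcodable γ] {B : γ → Sq}

theorem PSq.comp (hB : PSq B) {δ : Type} [Primcodable δ] {f : δ → γ} (hf : Primrec f) :
    PSq fun a => B (f a) where
  G := hB.G.comp ((hf.comp Primrec.fst).pair Primrec.snd)
  J := hB.J.comp ((hf.comp Primrec.fst).pair Primrec.snd)
  K := hB.K.comp ((hf.comp Primrec.fst).pair Primrec.snd)
  F := hB.F.comp ((hf.comp Primrec.fst).pair Primrec.snd)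

theorem PSq.up (hB : PSq B) : PSq fun q : γ × ℕ => B q.1 := hB.comp Primrec.fst

variable (hB : PSq B)
include hB

theorem pr_G {t : γ → ℕ} (ht : Primrec t) : Primrec fun a => (B a).G (t a) :=
  hB.G.comp (Primrec.id.pair ht)

theorem pr_J {t : γ → ℕ} (ht : Primrec t) : Primrec fun a => (B a).J (t a) :=
  hB.J.comp (Primrec.id.pair ht)

theorem pr_K {t : γ → ℕ} (ht : Primrec t) : Primrec fun a => (B a).K (t a) :=
  hB.K.comp (Primrec.id.pair ht)

theorem pr_F {t : γ → ℕ} (ht : Primrec t) : Primrec fun a => (B a).F (t a) :=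
  hB.F.comp (Primrec.id.pair ht)

theorem pr_live {s t : γ → ℕ} (hs : Primrec s) (ht : Primrec t) :
    PrimrecPred fun a => (B a).live (s a) (t a) := by
  unfold Sq.live
  refine (Primrec.nat_lt.comp ht hs).and (all_lt hs ?_)
  refine pp_imp (Primrec.nat_lt.comp (ht.comp Primrec.fst) Primrec.snd) ?_
  exact Primrec.nat_lt.comp (pr_G hB.up (ht.comp Primrec.fst)) (pr_G hB.up Primrec.snd)

theorem pr_mem {l t : γ → ℕ} (hl : Primrec l) (ht : Primrec t) :
    PrimrecPred fun a => (B a).mem (l a) (t a) := by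
  unfold Sq.mem
  exact (Primrec.eq.comp hl (pr_J hB ht)).or (Primrec.eq.comp hl (pr_K hB ht))

theorem pr_chl {l t c : γ → ℕ} (hl : Primrec l) (ht : Primrec t) (hc : Primrec c) :
    PrimrecPred fun a => (B a).chl (l a) (t a) (c a) := by
  unfold Sq.chl
  exact (pr_live hB hc ht).and ((pr_mem hB hl ht).and (pr_mem hB hl hc))

theorem pr_Chd {t c : γ → ℕ} (ht : Primrec t) (hc : Primrec c) :
    PrimrecPred fun a => (B a).Chd (t a) (c a) := by
  unfold Sq.Chd
  refine (pr_live hB hc ht).and ?_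
  refine ((pr_mem hB (pr_J hB ht) hc).or (pr_mem hB (pr_K hB ht) hc)).of_eq fun a => ?_
  constructor
  · rintro (h | h)
    · exact ⟨_, Or.inl rfl, h⟩
    · exact ⟨_, Or.inr rfl, h⟩
  · rintro ⟨l, rfl | rfl, h⟩
    · exact Or.inl h
    · exact Or.inr h

theorem pr_ll {s l : γ → ℕ} (hs : Primrec s) (hl : Primrec l) :
    PrimrecPred fun a => (B a).ll (s a) (l a) := by
  have h1 : PrimrecPred fun a => ∃ t, t < s a ∧ (B a).live (s a) t ∧ (B a).mem (l a) t :=
    ex_lt hs ((pr_live hB.up (hs.comp Primrec.fst) Primrec.snd).and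
      (pr_mem hB.up (hl.comp Primrec.fst) Primrec.snd))
  refine h1.of_eq fun a => ?_
  constructor
  · rintro ⟨t, _, h⟩
    exact ⟨t, h⟩
  · rintro ⟨t, h⟩
    exact ⟨t, h.1.1, h⟩

theorem pr_exd {s b : γ → ℕ} (hs : Primrec s) (hb : Primrec b) :
    PrimrecPred fun a => (B a).exd (s a) (b a) :=
  ex_lt hs (pr_Chd hB.up (hb.comp Primrec.fst) Primrec.snd)

theorem pr_XL {s b : γ → ℕ} (hs : Primrec s) (hb : Primrec b) :
    PrimrecPred fun a => (B a).XL (s a) (b a) := by
  have hs' := hs.comp (Primrec.fst (α := γ) (β := ℕ))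
  have hb' := hb.comp (Primrec.fst (α := γ) (β := ℕ))
  have h1 : ∀ f : γ × ℕ → ℕ, Primrec f → PrimrecPred fun q : γ × ℕ =>
      (B q.1).chl (f q) (b q.1) q.2 ∧ (B q.1).ll (s q.1) (f q) := fun f hf =>
    (pr_chl hB.up hf hb' Primrec.snd).and (pr_ll hB.up hs' hf)
  have h2 := ex_lt (p := fun a c => ((B a).chl ((B a).J (b a)) (b a) c ∧
      (B a).ll (s a) ((B a).J (b a))) ∨ ((B a).chl ((B a).K (b a)) (b a) c ∧
      (B a).ll (s a) ((B a).K (b a)))) hs
    ((h1 _ (pr_J hB.up hb')).or (h1 _ (pr_K hB.up hb')))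
  refine h2.of_eq fun a => ?_
  constructor
  · rintro ⟨c, h3, h4 | h4⟩
    · exact ⟨c, h3, _, h4⟩
    · exact ⟨c, h3, _, h4⟩
  · rintro ⟨c, h3, l, h4, h5⟩
    refine ⟨c, h3, ?_⟩
    rcases h4.2.1 with h6 | h6
    · left; rw [← h6]; exact ⟨h4, h5⟩
    · right; rw [← h6]; exact ⟨h4, h5⟩

theorem pr_Mg {s b c : γ → ℕ} (hs : Primrec s) (hb : Primrec b) (hc : Primrec c) :
    PrimrecPred fun a => (B a).Mg (s a) (b a) (c a) := by
  unfold Sq.Mg
  exact (Primrec.nat_lt.comp hc hs).and ((pr_Chd hB hb hc).and (pr_XL hB hs hb).not)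

omit hB in
theorem pr_nx {r : γ → ℕ → ℕ → Prop} (hr : PrimrecPred fun q : (γ × ℕ) × ℕ => r q.1.1 q.1.2 q.2)
    {s b : γ → ℕ} (hs : Primrec s) (hb : Primrec b) : Primrec fun a => nx (r a) (s a) (b a) := by
  unfold nx
  refine Primrec.nat_max.comp hb (pr_fg hs ?_)
  exact hr.comp ((Primrec.fst.pair (hb.comp Primrec.fst)).pair Primrec.snd)

omit hB in
theorem pr_nxi {r : γ → ℕ → ℕ → Prop} (hr : PrimrecPred fun q : (γ × ℕ) × ℕ => r q.1.1 q.1.2 q.2)
    {s b i : γ → ℕ} (hs : Primrec s) (hb : Primrec b) (hi : Primrec i) :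
    Primrec fun a => (nx (r a) (s a))^[i a] (b a) := by
  refine Primrec.nat_iterate (h := fun a x => nx (r a) (s a) x) hi hb ?_
  refine pr_nx (γ := γ × ℕ) (r := fun q => r q.1) ?_ (hs.comp Primrec.fst) Primrec.snd
  exact hr.comp (((Primrec.fst.comp (Primrec.fst.comp Primrec.fst)).pair
    (Primrec.snd.comp Primrec.fst)).pair Primrec.snd)

theorem pr_rt {s b : γ → ℕ} (hs : Primrec s) (hb : Primrec b) :
    Primrec fun a => (B a).rt (s a) (b a) := by
  unfold Sq.rt
  refine pr_nxi (r := fun a => (B a).Mg (s a)) ?_ hs hb hs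
  exact pr_Mg (hB.comp (Primrec.fst.comp Primrec.fst)) (hs.comp (Primrec.fst.comp Primrec.fst))
    (Primrec.snd.comp Primrec.fst) Primrec.snd

theorem pr_De (hO : ∀ a, Org (B a)) {s b r : γ → ℕ} (hs : Primrec s) (hb : Primrec b)
    (hr : Primrec r) : PrimrecPred fun a => (B a).De (s a) (b a) (r a) := by
  have h1 : PrimrecPred fun q : (γ × ℕ) × ℕ => q.2 < s q.1.1 ∧ (B q.1.1).Chd q.1.2 q.2 :=
    (Primrec.nat_lt.comp Primrec.snd (hs.comp (Primrec.fst.comp Primrec.fst))).and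
      (pr_Chd (hB.comp (Primrec.fst.comp Primrec.fst)) (Primrec.snd.comp Primrec.fst) Primrec.snd)
  have h2 : Primrec fun q : γ × ℕ => (nx (fun b c => c < s q.1 ∧ (B q.1).Chd b c) (s q.1))^[q.2]
      (b q.1) := by
    refine pr_nxi (γ := γ × ℕ) (r := fun q b c => c < s q.1 ∧ (B q.1).Chd b c) ?_
      (hs.comp Primrec.fst) (hb.comp Primrec.fst) Primrec.snd
    exact h1.comp (((Primrec.fst.comp (Primrec.fst.comp Primrec.fst)).pair
      (Primrec.snd.comp Primrec.fst)).pair Primrec.snd)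
  have h3 : PrimrecPred fun a => r a < s a ∧ ∃ i, i < r a + 1 ∧
      (nx (fun b c => c < s a ∧ (B a).Chd b c) (s a))^[i] (b a) = r a :=
    (Primrec.nat_lt.comp hr hs).and (ex_lt (Primrec.succ.comp hr)
      (Primrec.eq.comp h2 (hr.comp Primrec.fst)))
  refine h3.of_eq fun a => ?_
  have hf : ∀ b c c', (c < s a ∧ (B a).Chd b c) → (c' < s a ∧ (B a).Chd b c') → c = c' :=
    fun b c c' h4 h5 => (hO a).Chd_uniq h4.2 h5.2
  have hi : ∀ b c, (c < s a ∧ (B a).Chd b c) → b < c := fun b c h4 => h4.2.lt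
  have hs' : ∀ b c, (c < s a ∧ (B a).Chd b c) → c < s a := fun b c h4 => h4.1
  constructor
  · rintro ⟨h4, i, _, h5⟩
    refine ⟨h4, ?_⟩
    have h6 := nx_reach hf hi hs' (b a) i
    rw [h5] at h6
    exact rtg_mono (fun _ _ h => h.2) h6
  · rintro ⟨h4, h5⟩
    refine ⟨h4, ?_⟩
    have h6 : ∀ c, ReflTransGen (B a).Chd (b a) c → c < s a →
        ReflTransGen (fun b c => c < s a ∧ (B a).Chd b c) (b a) c := by
      intro c h6
      induction h6 with
      | refl => exact fun _ => ReflTransGen.refl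
      | tail _ h7 h8 => exact fun h9 => (h8 (h7.lt.trans h9)).tail ⟨h9, h7⟩
    obtain ⟨i, h7, h8⟩ := nx_surj hf hi hs' (h6 _ h5 h4)
    exact ⟨i, Nat.lt_succ_of_le h7, h8⟩

theorem pr_ls {s b : γ → ℕ} (hs : Primrec s) (hb : Primrec b) :
    Primrec fun a => (B a).ls (s a) (b a) := by
  unfold Sq.ls
  exact pr_fg hs (pr_live hB.up Primrec.snd (hb.comp Primrec.fst))

theorem pr_loc {s l : γ → ℕ} (hs : Primrec s) (hl : Primrec l) :
    Primrec fun a => (B a).loc (s a) (l a) := by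
  unfold Sq.loc
  exact pr_fg (p := fun a t => t < s a ∧ (B a).mem (l a) t) hs
    ((Primrec.nat_lt.comp Primrec.snd (hs.comp Primrec.fst)).and
      (pr_mem hB.up (hl.comp Primrec.fst) Primrec.snd))

omit hB in
theorem pr_mkr {i e b x : γ → ℕ} (hi : Primrec i) (he : Primrec e) (hb : Primrec b)
    (hx : Primrec x) : Primrec fun a => mkr (i a) (e a) (b a) (x a) :=
  Primrec₂.natPair.comp (Primrec₂.natPair.comp hi he) (Primrec₂.natPair.comp hb hx)

omit hB in
theorem pr_C {C : ℕ → ℕ → ℕ → ℕ → ℕ} (hC : PC C) {e x z s : γ → ℕ} (he : Primrec e)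
    (hx : Primrec x) (hz : Primrec z) (hs : Primrec s) :
    Primrec fun a => C (e a) (x a) (z a) (s a) :=
  hC.comp (he.pair (hx.pair (hz.pair hs)))

variable {n : ℕ} {C : ℕ → ℕ → ℕ → ℕ → ℕ} (hC : PC C)
include hC

theorem pr_rg {s e b x : γ → ℕ} (hs : Primrec s) (he : Primrec e) (hb : Primrec b)
    (hx : Primrec x) : PrimrecPred fun a => (B a).rg n C (s a) (e a) (b a) (x a) := by
  unfold Sq.rg
  have h1 := pr_ls hB hs hb
  exact (Primrec.eq.comp (pr_C hC he hx (pr_mkr (Primrec.const 2) he hb hx) h1)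
    (Primrec.const n)).and
    (Primrec.eq.comp (pr_C hC he hx (pr_mkr (Primrec.const 0) he hb hx) h1) (Primrec.const n))

theorem pr_bond {s l e x : γ → ℕ} (hs : Primrec s) (hl : Primrec l) (he : Primrec e)
    (hx : Primrec x) : PrimrecPred fun a => (B a).bond n C (s a) (l a) (e a) (x a) := by
  unfold Sq.bond
  have e1 : Primrec fun q : γ × ℕ => q.1 := Primrec.fst
  have e2 : Primrec fun q : (γ × ℕ) × ℕ => q.1.1 := Primrec.fst.comp Primrec.fst
  have b2 : Primrec fun q : (γ × ℕ) × ℕ => q.1.2 := Primrec.snd.comp Primrec.fst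
  have hB2 := hB.comp e2
  refine ex_lt hs (ex_lt (hs.comp e1) ?_)
  refine (pr_chl hB2 (hl.comp e2) b2 Primrec.snd).and
    ((pr_rg hB2 hC (hs.comp e2) (he.comp e2) b2 (hx.comp e2)).and ?_)
  exact Primrec.eq.comp (pr_C hC (he.comp e2) (hx.comp e2)
    (pr_mkr (Primrec.const 0) (he.comp e2) Primrec.snd (hx.comp e2)) (hs.comp e2))
    (Primrec.const n)

theorem pr_bt {s l e : γ → ℕ} (hs : Primrec s) (hl : Primrec l) (he : Primrec e) :
    PrimrecPred fun a => (B a).bt n C (s a) (l a) (e a) := by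
  unfold Sq.bt
  exact ex_lt hs (pr_bond hB.up hC (hs.comp Primrec.fst) (hl.comp Primrec.fst)
    (he.comp Primrec.fst) Primrec.snd)

theorem pr_sc {s l g : γ → ℕ} (hs : Primrec s) (hl : Primrec l) (hg : Primrec g) :
    Primrec fun a => (B a).sc n C (s a) (l a) (g a) := by
  classical
  have h1 : Primrec fun a => Nat.rec (motive := fun _ => ℕ) 0
      (fun g x => 2 * x + (if (B a).bt n C (s a) (l a) g then 1 else 0)) (g a) := by
    refine Primrec.nat_rec' (f := g) (g := fun _ => 0)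
      (h := fun a p => 2 * p.2 + (if (B a).bt n C (s a) (l a) p.1 then 1 else 0)) hg
      (Primrec.const 0) ?_
    refine Primrec.nat_add.comp (Primrec.nat_mul.comp (Primrec.const 2)
      (Primrec.snd.comp Primrec.snd)) (Primrec.ite ?_ (Primrec.const 1) (Primrec.const 0))
    exact pr_bt (hB.comp Primrec.fst) hC (hs.comp Primrec.fst) (hl.comp Primrec.fst)
      (Primrec.fst.comp Primrec.snd)
  refine h1.of_eq fun a => ?_
  induction g a with
  | zero => rfl
  | succ k ih =>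
    rw [Sq.sc, ← ih]

theorem pr_best {s g t : γ → ℕ} (hs : Primrec s) (hg : Primrec g) (ht : Primrec t) :
    Primrec fun a => (B a).best n C (s a) (g a) (t a) := by
  unfold Sq.best
  exact Primrec.ite (Primrec.nat_le.comp (pr_sc hB hC hs (pr_K hB ht) hg)
    (pr_sc hB hC hs (pr_J hB ht) hg)) (pr_J hB ht) (pr_K hB ht)

theorem pr_wU' {s t t' : γ → ℕ} (hs : Primrec s) (ht : Primrec t) (ht' : Primrec t') :
    PrimrecPred fun a => (B a).wU' n C (s a) (t a) (t' a) := by
  unfold Sq.wU' Sq.lo Sq.hi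
  have hg := pr_G hB ht
  exact (pr_live hB hs ht').and ((Primrec.nat_lt.comp hg (pr_G hB ht')).and
    (Primrec.nat_lt.comp
      (Primrec.nat_min.comp (pr_sc hB hC hs (pr_J hB ht) hg) (pr_sc hB hC hs (pr_K hB ht) hg))
      (Primrec.nat_max.comp (pr_sc hB hC hs (pr_J hB ht') hg) (pr_sc hB hC hs (pr_K hB ht') hg))))

theorem pr_wU {s t : γ → ℕ} (hs : Primrec s) (ht : Primrec t) :
    PrimrecPred fun a => (B a).wU n C (s a) (t a) := by
  have h1 := ex_lt (p := fun a t' => (B a).wU' n C (s a) (t a) t') hs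
    (pr_wU' (n := n) hB.up hC (hs.comp Primrec.fst) (ht.comp Primrec.fst) Primrec.snd)
  refine h1.of_eq fun a => ?_
  constructor
  · rintro ⟨t', _, h⟩
    exact ⟨t', h⟩
  · rintro ⟨t', h⟩
    exact ⟨t', h.1.1, h⟩

end

end Pool.Agent.MP5566
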