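import Pool.Agent.Lib.MP_5566a7_lc.Build

/-!
Primitive recursiveness of the construction (MP_5566a7_lc).
-/

namespace Pool.Agent.MP5566

open Relation Nat.Partrec

section

variable {γ : Type} [Primcodable γ]

theorem pr_evaln {s c x : γ → ℕ} (hs : Primrec s) (hc : Primrec c) (hx : Primrec x) :
    Primrec fun a => Code.evaln (s a) (Denumerable.ofNat Code (c a)) (x a) :=
  Code.primrec_evaln.comp ((hs.pair ((Primrec.ofNat Code).comp hc)).pair hx)

variable {B : γ → Sq} (hB : PSq B)
include hB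

theorem pr_wD {s t : γ → ℕ} (hs : Primrec s) (ht : Primrec t) :
    PrimrecPred fun a => (B a).wD (s a) (t a) := by
  unfold Sq.wD
  have hG := pr_G hB ht
  have hG2 := Primrec.nat_div.comp hG (Primrec.const 2)
  have h2J := Primrec.nat_mul.comp (Primrec.const 2) (pr_J hB ht)
  have h2K := Primrec.nat_mul.comp (Primrec.const 2) (pr_K hB ht)
  have hpar := Primrec.eq.comp (Primrec.nat_mod.comp hG (Primrec.const 2)) (Primrec.const 0)
  refine (hpar.and ?_).or (hpar.not.and ?_)
  · exact Primrec.eq.comp (pr_evaln hs (Primrec.nat_sub.comp hG2 (Primrec.const 1)) ht)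
      (Primrec.option_some.comp h2J)
  · exact Primrec.eq.comp (Primrec.option_isSome.comp
      (pr_evaln hs hG2 (Primrec₂.natPair.comp h2J h2K))) (Primrec.const true)

theorem pr_occ {s g : γ → ℕ} (hs : Primrec s) (hg : Primrec g) :
    PrimrecPred fun a => (B a).occ (s a) (g a) := by
  unfold Sq.occ
  exact ex_lt hs ((pr_live hB.up (hs.comp Primrec.fst) Primrec.snd).and
    (Primrec.eq.comp (pr_G hB.up Primrec.snd) (hg.comp Primrec.fst)))

theorem pr_blg {s g : γ → ℕ} (hs : Primrec s) (hg : Primrec g) :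
    Primrec fun a => (B a).blg (s a) (g a) := by
  unfold Sq.blg
  exact pr_fg (p := fun a t => t < s a ∧ (B a).live (s a) t ∧ (B a).G t = g a) hs
    ((Primrec.nat_lt.comp Primrec.snd (hs.comp Primrec.fst)).and
      ((pr_live hB.up (hs.comp Primrec.fst) Primrec.snd).and
        (Primrec.eq.comp (pr_G hB.up Primrec.snd) (hg.comp Primrec.fst))))

variable {n : ℕ} {C : ℕ → ℕ → ℕ → ℕ → ℕ} (hC : PC C)
include hC

theorem pr_wnt {s g : γ → ℕ} (hs : Primrec s) (hg : Primrec g) :
    PrimrecPred fun a => (B a).wnt n C (s a) (g a) := by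
  unfold Sq.wnt
  have hs' : Primrec fun q : γ × ℕ => s q.1 := hs.comp Primrec.fst
  refine ex_lt hs ((pr_live hB.up hs' Primrec.snd).and
    ((Primrec.eq.comp (pr_G hB.up Primrec.snd) (hg.comp Primrec.fst)).and
      (((Primrec.eq.comp (pr_F hB.up Primrec.snd) (Primrec.const false)).and
        (pr_wD hB.up hs' Primrec.snd)).or (pr_wU hB.up hC hs' Primrec.snd))))

theorem pr_tgt {s t : γ → ℕ} (hs : Primrec s) (ht : Primrec t) :
    Primrec fun a => (B a).tgt n C (s a) (t a) := by
  unfold Sq.tgt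
  exact pr_fg (p := fun a t' => t' < s a ∧ (B a).wU' n C (s a) (t a) t') hs
    ((Primrec.nat_lt.comp Primrec.snd (hs.comp Primrec.fst)).and
      (pr_wU' hB.up hC (hs.comp Primrec.fst) (ht.comp Primrec.fst) Primrec.snd))

theorem pr_ngr {s : γ → ℕ} (hs : Primrec s) : Primrec fun a => (B a).ngr n C (s a) := by
  unfold Sq.ngr
  refine pr_fg (p := fun a g => ∀ g', g' < g → ¬ (¬ (B a).occ (s a) g' ∨ (B a).wnt n C (s a) g'))
    hs ?_
  have e2 : Primrec fun q : (γ × ℕ) × ℕ => q.1.1 := Primrec.fst.comp Primrec.fst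
  refine all_lt Primrec.snd ?_
  exact ((pr_occ (hB.comp e2) (hs.comp e2) Primrec.snd).not.or
    (pr_wnt (hB.comp e2) hC (hs.comp e2) Primrec.snd)).not

theorem pr_nxa {s g t : γ → ℕ} (hs : Primrec s) (hg : Primrec g) (ht : Primrec t) :
    Primrec fun a => (B a).nxa n C (s a) (g a) (t a) := by
  classical
  unfold Sq.nxa
  have hpar := Primrec.eq.comp (Primrec.nat_mod.comp hg (Primrec.const 2)) (Primrec.const 0)
  have h2s := Primrec.nat_mul.comp (Primrec.const 2) hs
  have hb := pr_best (n := n) hB hC hs hg ht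
  have hb' := pr_best (n := n) hB hC hs hg (pr_tgt (n := n) hB hC hs ht)
  refine Primrec.ite (pr_occ hB hs hg).not ?_ (Primrec.ite ?_ ?_ ?_)
  · exact hg.pair (h2s.pair ((Primrec.ite hpar h2s (Primrec.succ.comp h2s)).pair
      (Primrec.const false)))
  · exact (Primrec.eq.comp (pr_F hB ht) (Primrec.const false)).and (pr_wD hB hs ht)
  · exact hg.pair (hb.pair (hb.pair (Primrec.const true)))
  · exact hg.pair (hb'.pair ((Primrec.ite hpar hb' hb).pair (Primrec.const false)))

theorem pr_nxt {s : γ → ℕ} (hs : Primrec s) : Primrec fun a => (B a).nxt n C (s a) := by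
  unfold Sq.nxt
  exact pr_nxa hB hC hs (pr_ngr hB hC hs) (pr_blg hB hs (pr_ngr hB hC hs))

end

theorem psq_ofL : PSq ofL where
  G := by
    unfold ofL
    exact Primrec.fst.comp ((Primrec.list_getD _).comp Primrec.fst Primrec.snd)
  J := by
    unfold ofL
    exact Primrec.fst.comp (Primrec.snd.comp ((Primrec.list_getD _).comp Primrec.fst Primrec.snd))
  K := by
    unfold ofL
    exact Primrec.fst.comp (Primrec.snd.comp
      (Primrec.snd.comp ((Primrec.list_getD _).comp Primrec.fst Primrec.snd)))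
  F := by
    unfold ofL
    exact Primrec.snd.comp (Primrec.snd.comp
      (Primrec.snd.comp ((Primrec.list_getD _).comp Primrec.fst Primrec.snd)))

variable {n : ℕ} {C : ℕ → ℕ → ℕ → ℕ → ℕ}

theorem pr_hist (hC : PC C) : Primrec (hist n C) := by
  have h1 : Primrec fun l : List (ℕ × ℕ × ℕ × Bool) => (ofL l).nxt n C l.length :=
    pr_nxt (psq_ofL.comp Primrec.id) hC Primrec.list_length
  have h2 : Primrec (Nat.rec (motive := fun _ => List (ℕ × ℕ × ℕ × Bool)) []
      fun _ l => l ++ [(ofL l).nxt n C l.length]) := by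
    refine Primrec.nat_rec₁ [] ?_
    exact Primrec.list_concat.comp Primrec.snd (h1.comp Primrec.snd)
  refine h2.of_eq fun s => ?_
  induction s with
  | zero => rfl
  | succ s ih =>
    rw [hist, ← ih]

theorem pr_blk (hC : PC C) : Primrec (blk n C) := by
  unfold blk
  exact pr_nxt (psq_ofL.comp (pr_hist hC)) hC Primrec.id

theorem psq_sq (hC : PC C) {γ : Type} [Primcodable γ] : PSq fun _ : γ => sq n C where
  G := Primrec.fst.comp ((pr_blk hC).comp Primrec.snd)
  J := Primrec.fst.comp (Primrec.snd.comp ((pr_blk hC).comp Primrec.snd))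
  K := Primrec.fst.comp (Primrec.snd.comp (Primrec.snd.comp ((pr_blk hC).comp Primrec.snd)))
  F := Primrec.snd.comp (Primrec.snd.comp (Primrec.snd.comp ((pr_blk hC).comp Primrec.snd)))

section ctr

variable {γ : Type} [Primcodable γ] {B : γ → Sq}

theorem pr_zi : Primrec zi :=
  Primrec.fst.comp (Primrec.unpair.comp (Primrec.fst.comp Primrec.unpair))
theorem pr_ze : Primrec ze :=
  Primrec.snd.comp (Primrec.unpair.comp (Primrec.fst.comp Primrec.unpair))
theorem pr_zb : Primrec zb :=
  Primrec.fst.comp (Primrec.unpair.comp (Primrec.snd.comp Primrec.unpair))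
theorem pr_zx : Primrec zx :=
  Primrec.snd.comp (Primrec.unpair.comp (Primrec.snd.comp Primrec.unpair))

theorem pr_cP {P : γ → Prop} {k : γ → ℕ} (hP : PrimrecPred P) (hk : Primrec k) :
    Primrec fun a => cP n (P a) (k a) := by
  classical
  unfold cP
  refine Primrec.ite hP (Primrec.nat_min.comp (Primrec.succ.comp hk) (Primrec.const n))
    (Primrec.ite ?_ (Primrec.const 1) (Primrec.const 0))
  exact (Primrec.eq.comp hk (Primrec.const n)).and (Primrec.eq.comp (Primrec.const (n % 2))
    (Primrec.const 0))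

variable (hB : PSq B) (hC : PC C) (hO : ∀ a, Org (B a))
include hB hC hO

theorem pr_cM {s r e b x : γ → ℕ} (hs : Primrec s) (hr : Primrec r) (he : Primrec e)
    (hb : Primrec b) (hx : Primrec x) :
    Primrec fun a => (B a).cM n C (s a) (r a) (e a) (b a) (x a) := by
  classical
  unfold Sq.cM
  refine Primrec.ite (pr_De hB hO hs hb hr).not (Primrec.const 0)
    (Primrec.ite (pr_rg hB hC hs he hb hx).not ?_
      (Primrec.ite ?_ (Primrec.const n) (Primrec.ite ?_ (Primrec.const (n - 2))
        (Primrec.const (n - 1)))))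
  · exact Primrec.nat_min.comp (Primrec.succ.comp
      (pr_C hC he hx (pr_mkr (Primrec.const 2) he hb hx) (pr_ls hB hs hb))) (Primrec.const n)
  · exact Primrec.eq.comp (pr_rt hB hs hb) hr
  · exact (pr_XL hB hs hb).and (pr_live hB hs hr)

theorem pr_ctr {s r z : γ → ℕ} (hs : Primrec s) (hr : Primrec r) (hz : Primrec z) :
    Primrec fun a => (B a).ctr n C (s a) (r a) (z a) := by
  unfold Sq.ctr
  have hi := pr_zi.comp hz
  have he := pr_ze.comp hz
  have hb := pr_zb.comp hz
  have hx := pr_zx.comp hz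
  have hc := pr_C hC he hx hz hs
  refine Primrec.ite (Primrec.eq.comp hi (Primrec.const 0)) (pr_cP (pr_De hB hO hs hb hr) hc)
    (Primrec.ite (Primrec.eq.comp hi (Primrec.const 1)) (pr_cP ?_ hc)
      (Primrec.ite (Primrec.eq.comp hi (Primrec.const 2)) (pr_cM hB hC hO hs hr he hb hx)
        (Primrec.const 0)))
  exact (pr_exd hB hs hb).and (Primrec.eq.comp (pr_rt hB hs hb) hr)

theorem pr_ctl {s l z : γ → ℕ} (hs : Primrec s) (hl : Primrec l) (hz : Primrec z) :
    Primrec fun a => (B a).ctl n C (s a) (l a) (z a) := by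
  classical
  unfold Sq.ctl
  have hi := pr_zi.comp hz
  have he := pr_ze.comp hz
  have hb := pr_zb.comp hz
  have hx := pr_zx.comp hz
  have hl2 := Primrec.nat_div.comp hl (Primrec.const 2)
  refine Primrec.ite (Primrec.nat_le.comp hs hl2) (Primrec.const 0)
    (Primrec.ite ((Primrec.eq.comp hi (Primrec.const 2)).and (pr_mem hB hl hb))
      (Primrec.ite (Primrec.nat_lt.comp hb hs) ?_ (Primrec.const 0)) ?_)
  · exact Primrec.nat_min.comp (Primrec.succ.comp
      (pr_C hC he hx (pr_mkr (Primrec.const 2) he hb hx) (pr_ls hB hs hb))) (Primrec.const n)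
  · exact pr_ctr hB hC hO hs (pr_rt hB hs (pr_loc hB hs hl)) hz

omit hO in
theorem pr_Rh {e x c s : γ → ℕ} (he : Primrec e) (hx : Primrec x) (hc : Primrec c)
    (hs : Primrec s) : PrimrecPred fun a => (B a).Rh n C (e a) (x a) (c a) (s a) := by
  unfold Sq.Rh
  refine (pr_rg hB hC hs he hc hx).or (((Primrec.nat_lt.comp hc hs).and
    ((pr_live hB hs hc).not.and ((pr_exd hB hs hc).not.and ?_))).or ((pr_exd hB hs hc).and ?_))
  · exact Primrec.eq.comp (pr_C hC he hx (pr_mkr (Primrec.const 0) he hc hx) hs)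
      (Primrec.const n)
  · exact Primrec.eq.comp (pr_C hC he hx (pr_mkr (Primrec.const 1) he hc hx) hs)
      (Primrec.const n)

omit hO in
theorem pr_Rl {e l x s : γ → ℕ} (he : Primrec e) (hl : Primrec l) (hx : Primrec x)
    (hs : Primrec s) : PrimrecPred fun a => (B a).Rl n C (e a) (l a) (x a) (s a) := by
  unfold Sq.Rl
  have h1 := Primrec.nat_lt.comp (Primrec.nat_div.comp hl (Primrec.const 2)) hs
  have h2 := (pr_ll hB hs hl).not
  have h3 := pr_loc hB hs hl
  have h4 := pr_exd hB hs h3
  refine (pr_bond hB hC hs hl he hx).or ((h1.and (h2.and (h4.and ?_))).or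
    (h1.and (h2.and (h4.not.and ?_))))
  · exact Primrec.eq.comp (pr_C hC he hx (pr_mkr (Primrec.const 1) he h3 hx) hs)
      (Primrec.const n)
  · exact Primrec.eq.comp (pr_C hC he hx (pr_mkr (Primrec.const 0) he h3 hx) hs)
      (Primrec.const n)

end ctr

end Pool.Agent.MP5566
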