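import Pool.Agent.Lib.MP_5566a7_lc.Seq

/-!
Following a functional relation; the root of a block at a stage (MP_5566a7_lc).
-/

namespace Pool.Agent.MP5566

open Relation

open Classical in
/-- one step along the relation `r` -/
noncomputable def nx (r : ℕ → ℕ → Prop) (s b : ℕ) : ℕ := max b (Nat.findGreatest (r b) s)

section nx

variable {r : ℕ → ℕ → Prop} {s : ℕ}

theorem nx_of_rel (hf : ∀ b c c', r b c → r b c' → c = c') (hi : ∀ b c, r b c → b < c)
    (hs : ∀ b c, r b c → c < s) {b c : ℕ} (h : r b c) : nx r s b = c := by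
  classical
  unfold nx
  have h1 : Nat.findGreatest (r b) s = c := by
    have h2 := Nat.findGreatest_spec (P := r b) (hs b c h).le h
    exact hf b _ _ h2 h
  have h3 := hi b c h
  rw [show Nat.findGreatest (r b) s = c by convert h1]
  omega

theorem nx_of_not {b : ℕ} (h : ∀ c, ¬ r b c) : nx r s b = b := by
  classical
  unfold nx
  rw [Nat.findGreatest_eq_zero_iff.2 (fun k _ _ => h k)]
  exact max_eq_left (Nat.zero_le b)

theorem nx_reach (hf : ∀ b c c', r b c → r b c' → c = c') (hi : ∀ b c, r b c → b < c)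
    (hs : ∀ b c, r b c → c < s) (b i : ℕ) : ReflTransGen r b ((nx r s)^[i] b) := by
  induction i with
  | zero => exact ReflTransGen.refl
  | succ i ih =>
    rw [Function.iterate_succ_apply']
    by_cases h : ∃ c, r ((nx r s)^[i] b) c
    · obtain ⟨c, h⟩ := h
      rw [nx_of_rel hf hi hs h]
      exact ih.tail h
    · push Not at h
      rw [nx_of_not h]
      exact ih

theorem nx_stop (hf : ∀ b c c', r b c → r b c' → c = c') (hi : ∀ b c, r b c → b < c)
    (hs : ∀ b c, r b c → c < s) (b c : ℕ) : ¬ r ((nx r s)^[s] b) c := by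
  have key : ∀ i, (∀ c, ¬ r ((nx r s)^[i] b) c) ∨ i ≤ (nx r s)^[i] b := by
    intro i
    induction i with
    | zero => exact Or.inr (Nat.zero_le _)
    | succ i ih =>
      by_cases h : ∃ c, r ((nx r s)^[i] b) c
      · obtain ⟨c, h⟩ := h
        right
        rw [Function.iterate_succ_apply', nx_of_rel hf hi hs h]
        rcases ih with h1 | h1
        · exact (h1 c h).elim
        · have := hi _ _ h
          omega
      · push Not at h
        left
        rw [Function.iterate_succ_apply', nx_of_not h]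
        exact h
  rcases key s with h | h
  · exact h c
  · intro h1
    have := hi _ _ h1
    have := hs _ _ h1
    omega

theorem nx_surj (hf : ∀ b c c', r b c → r b c' → c = c') (hi : ∀ b c, r b c → b < c)
    (hs : ∀ b c, r b c → c < s) {b c : ℕ} (h : ReflTransGen r b c) :
    ∃ i, i ≤ c ∧ (nx r s)^[i] b = c := by
  induction h with
  | refl => exact ⟨0, Nat.zero_le _, rfl⟩
  | tail _ h1 h2 =>
    obtain ⟨i, h3, h4⟩ := h2
    refine ⟨i + 1, ?_, ?_⟩
    · have := hi _ _ h1
      omega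
    · rw [Function.iterate_succ_apply', h4, nx_of_rel hf hi hs h1]

end nx

namespace Sq

variable (B : Sq)

/-- the root of `b` at stage `s` -/
noncomputable def rt (s b : ℕ) : ℕ := (nx (B.Mg s) s)^[s] b

/-- `r` is a descendant of `b`, and `r` has been created by stage `s` -/
def De (s b r : ℕ) : Prop := r < s ∧ ReflTransGen B.Chd b r

end Sq

namespace Org

open Sq

variable {B : Sq}

theorem rt_reach (h : Org B) (s b : ℕ) : ReflTransGen (B.Mg s) b (B.rt s b) :=
  nx_reach (r := B.Mg s) (fun _ _ _ h1 h2 => h.Mg_uniq h1 h2) (fun _ _ h1 => h1.2.1.lt)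
    (fun _ _ h1 => h1.1) b s

theorem rt_stop (h : Org B) (s b c : ℕ) : ¬ B.Mg s (B.rt s b) c :=
  nx_stop (r := B.Mg s) (fun _ _ _ h1 h2 => h.Mg_uniq h1 h2) (fun _ _ h1 => h1.2.1.lt)
    (fun _ _ h1 => h1.1) b c

theorem rt_uniq (h : Org B) {s b r : ℕ} (h1 : ReflTransGen (B.Mg s) b r)
    (h2 : ∀ c, ¬ B.Mg s r c) : B.rt s b = r := by
  rcases ReflTransGen.total_of_right_unique (r := B.Mg s) (fun _ _ _ h3 h4 => h.Mg_uniq h3 h4) h1
    (h.rt_reach s b) with h3 | h3
  · rcases ReflTransGen.cases_head h3 with h4 | ⟨c, h4, _⟩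
    · exact h4.symm
    · exact (h2 c h4).elim
  · rcases ReflTransGen.cases_head h3 with h4 | ⟨c, h4, _⟩
    · exact h4
    · exact (h.rt_stop s b c h4).elim

theorem rt_eq_of_reach (h : Org B) {s b c : ℕ} (h1 : ReflTransGen (B.Mg s) b c) :
    B.rt s b = B.rt s c :=
  h.rt_uniq (h1.trans (h.rt_reach s c)) (h.rt_stop s c)

theorem rt_rt (h : Org B) (s b : ℕ) : B.rt s (B.rt s b) = B.rt s b :=
  (h.rt_eq_of_reach (h.rt_reach s b)).symm

theorem rt_mono (h : Org B) {s s' : ℕ} (h1 : s ≤ s') (b : ℕ) : B.rt s' (B.rt s b) = B.rt s' b :=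
  (h.rt_eq_of_reach (rtg_mono (fun _ _ h2 => h.Mg_mono h2 h1) (h.rt_reach s b))).symm

theorem rt_eq_mono (h : Org B) {s s' b c : ℕ} (h1 : s ≤ s') (h2 : B.rt s b = B.rt s c) :
    B.rt s' b = B.rt s' c := by
  rw [← h.rt_mono h1 b, h2, h.rt_mono h1]

theorem rt_Desc (h : Org B) (s b : ℕ) : ReflTransGen B.Chd b (B.rt s b) :=
  rtg_mono (fun _ _ h2 => h2.2.1) (h.rt_reach s b)

theorem rt_lt (h : Org B) {s b : ℕ} (h1 : b < s) : B.rt s b < s := by
  rcases ReflTransGen.cases_tail (h.rt_reach s b) with h2 | ⟨c, _, h3⟩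
  · rw [h2]; exact h1
  · exact h3.1

theorem le_rt (h : Org B) (s b : ℕ) : b ≤ B.rt s b := Desc_le (h.rt_Desc s b)

theorem le_rt_mono (h : Org B) {s s' : ℕ} (h1 : s ≤ s') (b : ℕ) : B.rt s b ≤ B.rt s' b := by
  rw [← h.rt_mono h1 b]
  exact h.le_rt _ _

theorem rt_of_live (h : Org B) {s b : ℕ} (h1 : B.live s b) : B.rt s b = b :=
  h.rt_uniq ReflTransGen.refl (fun _ h2 => h.not_live_of_Chd h2.2.1 h2.1 h1)

theorem eq_of_rt_live (h : Org B) {s b r : ℕ} (h1 : B.live s r) (h2 : B.rt s b = r) : b = r := by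
  rcases ReflTransGen.cases_tail (h.rt_reach s b) with h3 | ⟨c, _, h3⟩
  · rw [← h2, h3]
  · rw [h2] at h3
    exact (no_Mg_live h1 h3).elim

theorem De_mono (h : Org B) {s s' b c c' : ℕ} (h2 : B.De s b c)
    (h3 : ReflTransGen B.Chd c c') (h4 : c' < s') : B.De s' b (B.rt s' c') :=
  ⟨h.rt_lt h4, h2.2.trans (h3.trans (h.rt_Desc s' c'))⟩

/-- if a descendant of `b` exists while `b` is live then it is `b` -/
theorem eq_of_De_live (h : Org B) {s s' b c : ℕ} (h1 : B.De s b c) (h2 : B.live s' b)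
    (h3 : s ≤ s') : c = b :=
  h.eq_of_Desc_live h1.2 h2 (h1.1.trans_le h3)

end Org

end Pool.Agent.MP5566
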