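import Pool.Agent.Lib.MP_5566a7_lc.Final

/-!
Runs of the construction, and their convergence (MP_5566a7_lc).
-/

namespace Pool.Agent.MP5566

open Relation Filter

namespace Sq

variable (B : Sq) (n : ℕ) (C : ℕ → ℕ → ℕ → ℕ → ℕ)

open Classical in
/-- score of the lineage `l` with respect to the first `g` columns -/
noncomputable def sc (s l : ℕ) : ℕ → ℕ
  | 0 => 0
  | g + 1 => 2 * sc s l g + (if B.bt n C s l g then 1 else 0)

open Classical in
/-- final score -/
noncomputable def scf (l : ℕ) : ℕ → ℕ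
  | 0 => 0
  | g + 1 => 2 * scf l g + (if ∃ s, B.bt n C s l g then 1 else 0)

/-- the lineage of `t` with the higher score -/
noncomputable def best (s g t : ℕ) : ℕ :=
  if B.sc n C s (B.K t) g ≤ B.sc n C s (B.J t) g then B.J t else B.K t

/-- the higher score of the lineages of `t` -/
noncomputable def hi (s g t : ℕ) : ℕ := max (B.sc n C s (B.J t) g) (B.sc n C s (B.K t) g)

/-- the lower score of the lineages of `t` -/
noncomputable def lo (s g t : ℕ) : ℕ := min (B.sc n C s (B.J t) g) (B.sc n C s (B.K t) g)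

/-- the block `t` wants a lineage of the block `t'` -/
def wU' (s t t' : ℕ) : Prop :=
  B.live s t' ∧ B.G t < B.G t' ∧ B.lo n C s (B.G t) t < B.hi n C s (B.G t) t'

/-- the block `t` wants a lineage of a later group -/
def wU (s t : ℕ) : Prop := ∃ t', B.wU' n C s t t'

/-- block `s` is new -/
def fresh (s : ℕ) : Prop :=
  (∀ t, B.live s t → B.G t ≠ B.G s) ∧ B.J s = 2 * s ∧
    B.K s = (if B.G s % 2 = 0 then 2 * s else 2 * s + 1) ∧ B.F s = false

/-- block `s` diagonalises -/
def actD (wD : ℕ → ℕ → Prop) (s : ℕ) : Prop :=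
  ∃ t, B.live s t ∧ B.G t = B.G s ∧ B.F t = false ∧ wD s t ∧
    B.J s = B.best n C s (B.G s) t ∧ B.K s = B.best n C s (B.G s) t ∧ B.F s = true

/-- block `s` takes over a lineage of a later group -/
def actU (s : ℕ) : Prop :=
  ∃ t t', B.live s t ∧ B.G t = B.G s ∧ B.wU' n C s t t' ∧
    B.J s = B.best n C s (B.G s) t' ∧
    B.K s = (if B.G s % 2 = 0 then B.best n C s (B.G s) t' else B.best n C s (B.G s) t) ∧
    B.F s = false

/-- a run of the construction -/
structure Run (wD : ℕ → ℕ → Prop) : Prop where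
  r1 : ∀ s g, g < B.G s → ∃ t, B.live s t ∧ B.G t = g ∧ ¬ (B.F t = false ∧ wD s t) ∧
    ¬ B.wU n C s t
  r2 : ∀ s, B.fresh s ∨ B.actD n C wD s ∨ B.actU n C s

variable {B n C}

theorem best_mem (s g t : ℕ) : B.mem (B.best n C s g t) t := by
  unfold best mem
  split_ifs
  · exact Or.inl rfl
  · exact Or.inr rfl

theorem best_sc (s g t : ℕ) : B.sc n C s (B.best n C s g t) g = B.hi n C s g t := by
  unfold best hi
  split_ifs <;> omega

theorem sc_lt (s l g : ℕ) : B.sc n C s l g < 2 ^ g := by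
  induction g with
  | zero => simp [sc]
  | succ g ih =>
    rw [sc, pow_succ]
    split_ifs <;> omega

theorem sc_mono (hC : Cnt n C) {s s' : ℕ} (h : s ≤ s') (l g : ℕ) :
    B.sc n C s l g ≤ B.sc n C s' l g := by
  induction g with
  | zero => simp [sc]
  | succ g ih =>
    rw [sc, sc]
    by_cases h1 : B.bt n C s l g
    · rw [if_pos h1, if_pos (bt_mono hC h h1)]
      omega
    · rw [if_neg h1]
      omega

theorem ev_sc (hC : Cnt n C) (l g : ℕ) : ∀ᶠ s in atTop, B.sc n C s l g = B.scf n C l g := by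
  induction g with
  | zero => exact Eventually.of_forall fun _ => rfl
  | succ g ih =>
    by_cases h1 : ∃ s, B.bt n C s l g
    · have h1' := h1
      obtain ⟨s, h2⟩ := h1
      filter_upwards [ih, eventually_ge_atTop s] with s' h3 h4
      rw [sc, scf, h3, if_pos h1', if_pos (bt_mono hC h4 h2)]
    · filter_upwards [ih] with s' h3
      rw [sc, scf, h3, if_neg h1, if_neg (fun h4 => h1 ⟨s', h4⟩)]

theorem scf_prev {l a : ℕ} {m g : ℕ} (h : B.scf n C l g ≤ B.scf n C a g) (h1 : m ≤ g) :
    B.scf n C l m ≤ B.scf n C a m := by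
  induction g, h1 using Nat.le_induction with
  | base => exact h
  | succ g _ ih =>
    refine ih ?_
    rw [scf, scf] at h
    split_ifs at h <;> omega

/-- the measure -/
noncomputable def ms (B : Sq) (n : ℕ) (C : ℕ → ℕ → ℕ → ℕ → ℕ) (s t : ℕ) : ℕ :=
  B.hi n C s (B.G t) t * (2 * 2 ^ B.G t + 2) +
    (if B.F t = true then 2 * 2 ^ B.G t + 1
      else B.sc n C s (B.J t) (B.G t) + B.sc n C s (B.K t) (B.G t))

theorem ms_mono (hC : Cnt n C) {s s' : ℕ} (h : s ≤ s') (t : ℕ) :
    B.ms n C s t ≤ B.ms n C s' t := by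
  unfold ms hi
  have h1 := sc_mono (B := B) hC h (B.J t) (B.G t)
  have h2 := sc_mono (B := B) hC h (B.K t) (B.G t)
  refine Nat.add_le_add (Nat.mul_le_mul_right _ (by omega)) ?_
  split_ifs <;> omega

theorem ms_lt (s t : ℕ) : B.ms n C s t < 2 ^ B.G t * (2 * 2 ^ B.G t + 2) := by
  unfold ms hi
  have h1 := sc_lt (B := B) (n := n) (C := C) s (B.J t) (B.G t)
  have h2 := sc_lt (B := B) (n := n) (C := C) s (B.K t) (B.G t)
  have h3 : max (B.sc n C s (B.J t) (B.G t)) (B.sc n C s (B.K t) (B.G t)) + 1 ≤ 2 ^ B.G t := by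
    omega
  have h4 := Nat.mul_le_mul_right (2 * 2 ^ B.G t + 2) h3
  rw [Nat.add_mul, one_mul] at h4
  split_ifs <;> omega

namespace Run

variable {wD : ℕ → ℕ → Prop}

theorem org (hR : B.Run n C wD) : ∀ s l, B.mem l s →
    l / 2 = s ∨ ∃ t, B.live s t ∧ B.G s ≤ B.G t ∧ B.mem l t := by
  intro s l hl
  rcases hR.r2 s with h | h | h
  · left
    obtain ⟨_, h1, h2, _⟩ := h
    rcases hl with hl | hl
    · rw [hl, h1]; omega
    · rw [hl, h2]; split_ifs <;> omega
  · right
    obtain ⟨t, h1, h2, _, _, h3, h4, _⟩ := h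
    refine ⟨t, h1, h2.ge, ?_⟩
    rcases hl with hl | hl
    · rw [hl, h3]; exact best_mem _ _ _
    · rw [hl, h4]; exact best_mem _ _ _
  · right
    obtain ⟨t, t', h1, h2, h3, h4, h5, _⟩ := h
    have h6 : B.G s ≤ B.G t' := by
      rw [← h2]
      exact h3.2.1.le
    rcases hl with hl | hl
    · exact ⟨t', h3.1, h6, by rw [hl, h4]; exact best_mem _ _ _⟩
    · rw [h5] at hl
      split_ifs at hl
      · exact ⟨t', h3.1, h6, by rw [hl]; exact best_mem _ _ _⟩
      · exact ⟨t, h1, h2.ge, by rw [hl]; exact best_mem _ _ _⟩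

theorem toOrg (hR : B.Run n C wD) : Org B where
  org := hR.org
  uni := by
    intro s t l l' h1 h2 h3 h4 h5
    rcases hR.r2 s with h | h | h
    · obtain ⟨_, h6, h7, _⟩ := h
      exfalso
      have h8 := half_le_of hR.org h4
      have h9 := h1.1
      rcases h2 with h2 | h2
      · rw [h2, h6] at h8; omega
      · rw [h2, h7] at h8
        split_ifs at h8 <;> omega
    · obtain ⟨t, _, _, _, _, h6, h7, _⟩ := h
      rcases h2 with h2 | h2 <;> rcases h3 with h3 | h3 <;> rw [h2, h3]
      · rw [h6, h7]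
      · rw [h6, h7]
    · obtain ⟨t1, t2, h6, h7, h8, h9, h10, _⟩ := h
      by_cases h11 : B.G s % 2 = 0
      · rw [if_pos h11] at h10
        rcases h2 with h2 | h2 <;> rcases h3 with h3 | h3 <;> rw [h2, h3]
        · rw [h9, h10]
        · rw [h9, h10]
      · rw [if_neg h11] at h10
        have key : ¬ (B.mem (B.J s) t ∧ B.mem (B.K s) t) := by
          rintro ⟨h12, h13⟩
          have h14 : t = t2 := loc_uniq_of hR.org h1 h8.1 h12 (by rw [h9]; exact best_mem _ _ _)
          have h15 : t = t1 := loc_uniq_of hR.org h1 h6 h13 (by rw [h10]; exact best_mem _ _ _)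
          have h16 := h8.2.1
          rw [← h14, ← h15] at h16
          exact lt_irrefl _ h16
        rcases h2 with h2 | h2 <;> rcases h3 with h3 | h3
        · rw [h2, h3]
        · exact (key ⟨by rwa [← h2], by rwa [← h3]⟩).elim
        · exact (key ⟨by rwa [← h3], by rwa [← h2]⟩).elim
        · rw [h2, h3]

theorem even (hR : B.Run n C wD) {s : ℕ} (h0 : B.G s % 2 = 0) : B.J s = B.K s := by
  rcases hR.r2 s with h | h | h
  · obtain ⟨_, h1, h2, _⟩ := h
    rw [h1, h2, if_pos h0]
  · obtain ⟨t, _, _, _, _, h3, h4, _⟩ := h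
    rw [h3, h4]
  · obtain ⟨t, t', _, _, _, h4, h5, _⟩ := h
    rw [h4, h5, if_pos h0]

theorem flag (hR : B.Run n C wD) {s : ℕ} (h0 : B.F s = true) : B.J s = B.K s := by
  rcases hR.r2 s with h | h | h
  · obtain ⟨_, _, _, h3⟩ := h
    rw [h0] at h3
    exact absurd h3 (by decide)
  · obtain ⟨t, _, _, _, _, h3, h4, _⟩ := h
    rw [h3, h4]
  · obtain ⟨t, t', _, _, _, _, _, h5⟩ := h
    rw [h0] at h5
    exact absurd h5 (by decide)

theorem odd (hR : B.Run n C wD) {s : ℕ} (h0 : B.G s % 2 ≠ 0) (h1 : B.F s = false) :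
    B.J s ≠ B.K s := by
  rcases hR.r2 s with h | h | h
  · obtain ⟨_, h2, h3, _⟩ := h
    rw [h2, h3, if_neg h0]
    omega
  · obtain ⟨t, _, _, _, _, _, _, h3⟩ := h
    rw [h1] at h3
    exact absurd h3 (by decide)
  · obtain ⟨t, t', h2, h3, h4, h5, h6, _⟩ := h
    rw [if_neg h0] at h6
    intro h7
    have h8 : t = t' := loc_uniq_of hR.org (l := B.J s) h2 h4.1
      (by rw [h7, h6]; exact best_mem _ _ _) (by rw [h5]; exact best_mem _ _ _)
    have h9 := h4.2.1
    rw [h8] at h9
    exact lt_irrefl _ h9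

/-- the measure increases with every action -/
theorem ms_act (hR : B.Run n C wD) {s t : ℕ} (h0 : B.live s t) (h1 : B.G t = B.G s) :
    B.ms n C s t < B.ms n C s s := by
  have hJ := sc_lt (B := B) (n := n) (C := C) s (B.J t) (B.G s)
  have hK := sc_lt (B := B) (n := n) (C := C) s (B.K t) (B.G s)
  unfold ms
  rw [h1]
  rcases hR.r2 s with h | h | h
  · exact (h.1 t h0 h1).elim
  · obtain ⟨t1, h2, h3, h4, _, h5, h6, h7⟩ := h
    have h8 : t1 = t := h2.G_inj h0 (h3.trans h1.symm)
    subst h8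
    have h9 := best_sc (B := B) (n := n) (C := C) s (B.G s) t1
    rw [h7, h4]
    have h10 : B.hi n C s (B.G s) s = B.hi n C s (B.G s) t1 := by
      conv_lhs => rw [hi, h5, h6, h9]
      simp
    rw [h10]
    simp only [Bool.false_eq_true, if_false, if_true]
    omega
  · obtain ⟨t1, t2, h2, h3, h4, h5, h6, h7⟩ := h
    have h8 : t1 = t := h2.G_inj h0 (h3.trans h1.symm)
    subst h8
    have h9 := best_sc (B := B) (n := n) (C := C) s (B.G s) t1
    have h10 := best_sc (B := B) (n := n) (C := C) s (B.G s) t2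
    rw [h7]
    simp only [Bool.false_eq_true, if_false]
    have h11 := h4.2.2
    rw [h1] at h11
    have h12 : B.sc n C s (B.J s) (B.G s) = B.hi n C s (B.G s) t2 := by rw [h5, h10]
    -- a strict increase of the maximum suffices
    have big : B.hi n C s (B.G s) t1 + 1 ≤ B.hi n C s (B.G s) s →
        B.hi n C s (B.G s) t1 * (2 * 2 ^ B.G s + 2) +
        (if B.F t1 = true then 2 * 2 ^ B.G s + 1
          else B.sc n C s (B.J t1) (B.G s) + B.sc n C s (B.K t1) (B.G s)) <
        B.hi n C s (B.G s) s * (2 * 2 ^ B.G s + 2) +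
          (B.sc n C s (B.J s) (B.G s) + B.sc n C s (B.K s) (B.G s)) := by
      intro h13
      have h14 := Nat.mul_le_mul_right (2 * 2 ^ B.G s + 2) h13
      rw [Nat.add_mul, one_mul] at h14
      split_ifs <;> omega
    by_cases h13 : B.J t1 = B.K t1
    · apply big
      have h14 : B.lo n C s (B.G s) t1 = B.hi n C s (B.G s) t1 := by
        rw [lo, hi, h13]; simp
      rw [h14] at h11
      have h15 : B.sc n C s (B.J s) (B.G s) ≤ B.hi n C s (B.G s) s := le_max_left _ _
      omega
    · have h14 : B.F t1 ≠ true := fun h14 => h13 (hR.flag h14)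
      have h15 : B.G s % 2 ≠ 0 := fun h15 => h13 (hR.even (by rw [h1]; exact h15))
      rw [if_neg h15] at h6
      have h16 : B.sc n C s (B.K s) (B.G s) = B.hi n C s (B.G s) t1 := by rw [h6, h9]
      have h17 : B.hi n C s (B.G s) t1 ≤ B.hi n C s (B.G s) s := by
        rw [← h16]; exact le_max_right _ _
      rcases h17.eq_or_lt with h18 | h18
      · rw [h18, if_neg h14, h12, h16, ← h18]
        have h19 : B.sc n C s (B.J t1) (B.G s) + B.sc n C s (B.K t1) (B.G s) =
            B.lo n C s (B.G s) t1 + B.hi n C s (B.G s) t1 := by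
          unfold lo hi; omega
        rw [h19]
        omega
      · exact big h18

/-- every group converges -/
theorem conv (hR : B.Run n C wD) (hC : Cnt n C) : Conv B := by
  have key : ∀ g s0, B.G s0 = g → (∀ t', s0 ≤ t' → g ≤ B.G t') → ∃ t, B.G t = g ∧ B.FL t := by
    intro g s0 h1 h2
    have h3 : ∀ k s, s0 ≤ s → B.G s = g →
        2 ^ g * (2 * 2 ^ g + 2) - B.ms n C s s ≤ k → ∃ t, B.G t = g ∧ B.FL t := by
      intro k
      induction k with
      | zero =>
        intro s _ h4 h5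
        have := ms_lt (B := B) (n := n) (C := C) s s
        rw [h4] at this
        omega
      | succ k ih =>
        intro s h3 h4 h5
        by_cases h6 : B.FL s
        · exact ⟨s, h4, h6⟩
        · unfold FL at h6
          push Not at h6
          classical
          have h7 := Nat.find_spec h6
          have h8 := fun m => Nat.find_min (H := h6) (m := m)
          obtain ⟨h9, h10⟩ := h7
          have h11 : B.G (Nat.find h6) = g :=
            le_antisymm (h10.trans h4.le) (h2 _ (by omega))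
          have h12 : B.live (Nat.find h6) s := by
            refine ⟨h9, fun t' h13 h14 => ?_⟩
            have := h8 t' h13
            push Not at this
            exact this h14
          have h13 := hR.ms_act h12 (by rw [h11, h4])
          have h14 := ms_mono (B := B) hC h9.le s
          exact ih (Nat.find h6) (by omega) h11 (by omega)
    exact h3 _ s0 le_rfl h1 le_rfl
  have start : ∀ g, ∃ s0, B.G s0 = g ∧ ∀ t', s0 ≤ t' → g ≤ B.G t' := by
    intro g
    induction g with
    | zero =>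
      refine ⟨0, ?_, fun _ _ => Nat.zero_le _⟩
      by_contra h1
      obtain ⟨t, h2, _⟩ := hR.r1 0 0 (Nat.pos_of_ne_zero h1)
      exact Nat.not_lt_zero _ h2.1
    | succ g ih =>
      obtain ⟨s0, h1, h2⟩ := ih
      obtain ⟨t, h3, h4⟩ := key g s0 h1 h2
      have h5 : ∀ t', t + 1 ≤ t' → g + 1 ≤ B.G t' := by
        intro t' h5
        have := h4 t' h5
        omega
      refine ⟨t + 1, ?_, h5⟩
      by_contra h6
      have h7 := h5 (t + 1) le_rfl
      obtain ⟨t', h8, h9, _⟩ := hR.r1 (t + 1) (g + 1) (by omega)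
      rcases live_succ.1 h8 with h10 | ⟨_, h10⟩
      · rw [h10] at h9; omega
      · omega
  intro g
  obtain ⟨s0, h1, h2⟩ := start g
  exact key g s0 h1 h2

/-- a block which is never removed has no wishes -/
theorem no_want (hR : B.Run n C wD) {s t : ℕ} (h : B.FL t) (h1 : t < s) :
    ¬ (B.F t = false ∧ wD s t) ∧ ¬ B.wU n C s t := by
  obtain ⟨t', h2, h3, h4⟩ := hR.r1 s (B.G t) (h s h1)
  have h5 := h2.G_inj (h.live h1) h3
  rw [h5] at h4
  exact h4

/-- the origin of a flagged block -/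
theorem of_flag (hR : B.Run n C wD) {t : ℕ} (h : B.F t = true) :
    ∃ t0, B.live t t0 ∧ B.G t0 = B.G t ∧ B.F t0 = false ∧ wD t t0 ∧
      B.J t = B.K t ∧ B.mem (B.J t) t0 := by
  rcases hR.r2 t with h1 | h1 | h1
  · rw [h1.2.2.2] at h
    exact absurd h (by decide)
  · obtain ⟨t0, h2, h3, h4, h5, h6, h7, _⟩ := h1
    exact ⟨t0, h2, h3, h4, h5, by rw [h6, h7], by rw [h6]; exact best_mem _ _ _⟩
  · obtain ⟨t0, t1, _, _, _, _, _, h2⟩ := h1
    rw [h2] at h
    exact absurd h (by decide)

theorem scf_le (hR : B.Run n C wD) (hC : Cnt n C) {t t' l a : ℕ} (h1 : B.FL t) (h2 : B.FL t')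
    (h3 : B.G t < B.G t') (h4 : B.mem a t) (h5 : B.mem l t') :
    B.scf n C l (B.G t) ≤ B.scf n C a (B.G t) := by
  obtain ⟨s, ⟨h6, h7⟩, h8⟩ := (((ev_sc (B := B) hC l (B.G t)).and
    (ev_sc (B := B) hC a (B.G t))).and (eventually_gt_atTop (max t t'))).exists
  have h9 := (hR.no_want h1 ((le_max_left t t').trans_lt h8)).2
  rw [← h6, ← h7]
  by_contra h10
  push Not at h10
  refine h9 ⟨t', h2.live ((le_max_right t t').trans_lt h8), h3, ?_⟩
  have h11 : B.lo n C s (B.G t) t ≤ B.sc n C s a (B.G t) := by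
    unfold lo
    rcases h4 with h4 | h4 <;> rw [h4] <;> omega
  have h12 : B.sc n C s l (B.G t) ≤ B.hi n C s (B.G t) t' := by
    unfold hi
    rcases h5 with h5 | h5 <;> rw [h5] <;> omega
  omega

/-- the bits of the final lineages are eventually constant -/
theorem dich (hR : B.Run n C wD) (hC : Cnt n C) (e : ℕ) :
    ∃ g0, (∀ t l, B.FL t → g0 ≤ B.G t → B.mem l t → ∃ s, B.bt n C s l e) ∨
      (∀ t l, B.FL t → g0 ≤ B.G t → B.mem l t → ¬ ∃ s, B.bt n C s l e) := by
  classical
  have hT := hR.conv hC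
  have h0 : ∃ v, ∃ t l, B.FL t ∧ e + 1 ≤ B.G t ∧ B.mem l t ∧ B.scf n C l (e + 1) = v := by
    obtain ⟨t, h1, h2⟩ := hT (e + 1)
    exact ⟨_, t, B.J t, h2, h1.ge, Or.inl rfl, rfl⟩
  obtain ⟨t0, l0, h1, h2, h3, h4⟩ := Nat.find_spec h0
  have h5 := fun v => Nat.find_min' h0 (m := v)
  have h6 : ∀ t l, B.FL t → B.G t0 + 1 ≤ B.G t → B.mem l t →
      B.scf n C l (e + 1) = Nat.find h0 := by
    intro t l h6 h7 h8
    refine le_antisymm ?_ (h5 _ ⟨t, l, h6, by omega, h8, rfl⟩)
    rw [← h4]
    exact scf_prev (hR.scf_le hC h1 h6 h7 h3 h8) h2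
  refine ⟨B.G t0 + 1, ?_⟩
  rcases Nat.mod_two_eq_zero_or_one (Nat.find h0) with h7 | h7
  · right
    intro t l h8 h9 h10 h11
    have h12 := h6 t l h8 h9 h10
    rw [scf, if_pos h11] at h12
    omega
  · left
    intro t l h8 h9 h10
    by_contra h11
    have h12 := h6 t l h8 h9 h10
    rw [scf, if_neg h11] at h12
    omega

end Run

end Sq

end Pool.Agent.MP5566
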