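import Mathlib

/-!
Combinatorics of the sequence of blocks used for MP_5566a7_lc.
One block is created at every stage; block `s` lies in group `G s`, and carries the lineages
`J s`, `K s` (possibly equal).
-/

namespace Pool.Agent.MP5566

open Relation

theorem rtg_mono {α : Type*} {r p : α → α → Prop} {a b : α} (h : ∀ x y, r x y → p x y)
    (h1 : ReflTransGen r a b) : ReflTransGen p a b := by
  induction h1 with
  | refl => exact ReflTransGen.refl
  | tail _ h2 h3 => exact h3.tail (h _ _ h2)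

/-- The sequence of blocks. -/
structure Sq where
  /-- group of a block -/
  G : ℕ → ℕ
  /-- first lineage -/
  J : ℕ → ℕ
  /-- second lineage -/
  K : ℕ → ℕ
  /-- flag -/
  F : ℕ → Bool

namespace Sq

variable (B : Sq)

/-- block `t` is live at stage `s` -/
def live (s t : ℕ) : Prop := t < s ∧ ∀ t', t' < s → t < t' → B.G t < B.G t'

/-- lineage `l` belongs to block `t` -/
def mem (l t : ℕ) : Prop := l = B.J t ∨ l = B.K t

/-- block `c` inherits lineage `l` from `t` -/
def chl (l t c : ℕ) : Prop := B.live c t ∧ B.mem l t ∧ B.mem l c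

/-- `c` is the child of `t` -/
def Chd (t c : ℕ) : Prop := B.live c t ∧ ∃ l, B.mem l t ∧ B.mem l c

/-- lineage `l` is live at stage `s` -/
def ll (s l : ℕ) : Prop := ∃ t, B.live s t ∧ B.mem l t

/-- block `b` has a child by stage `s` -/
def exd (s b : ℕ) : Prop := ∃ c, c < s ∧ B.Chd b c

/-- block `b` has a child by stage `s`, and the shared lineage is live at `s` -/
def XL (s b : ℕ) : Prop := ∃ c, c < s ∧ ∃ l, B.chl l b c ∧ B.ll s l

/-- `b` is merged into its child `c` -/
def Mg (s b c : ℕ) : Prop := c < s ∧ B.Chd b c ∧ ¬ B.XL s b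

variable {B}

theorem live.lt {s t : ℕ} (h : B.live s t) : t < s := h.1

theorem live.down {s s' t : ℕ} (h : B.live s t) (h1 : t < s') (h2 : s' ≤ s) : B.live s' t :=
  ⟨h1, fun t' h3 h4 => h.2 t' (h3.trans_le h2) h4⟩

theorem live_self (t : ℕ) : B.live (t + 1) t :=
  ⟨Nat.lt_succ_self t, fun t' h1 h2 => by omega⟩

theorem live_succ {s t : ℕ} : B.live (s + 1) t ↔ t = s ∨ (B.live s t ∧ B.G t < B.G s) := by
  constructor
  · intro h
    rcases Nat.lt_succ_iff_lt_or_eq.1 h.1 with h1 | h1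
    · exact Or.inr ⟨h.down h1 (Nat.le_succ s), h.2 s (Nat.lt_succ_self s) h1⟩
    · exact Or.inl h1
  · rintro (rfl | ⟨h1, h2⟩)
    · exact live_self t
    · refine ⟨h1.1.trans (Nat.lt_succ_self s), fun t' h3 h4 => ?_⟩
      rcases Nat.lt_succ_iff_lt_or_eq.1 h3 with h5 | h5
      · exact h1.2 t' h5 h4
      · rw [h5]; exact h2

theorem live.G_lt {s t t' : ℕ} (h : B.live s t) (h' : B.live s t') (h1 : t < t') :
    B.G t < B.G t' := h.2 t' h'.1 h1

theorem live.G_inj {s t t' : ℕ} (h : B.live s t) (h' : B.live s t') (h1 : B.G t = B.G t') :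
    t = t' := by
  rcases lt_trichotomy t t' with h2 | h2 | h2
  · have := h.G_lt h' h2; omega
  · exact h2
  · have := h'.G_lt h h2; omega

theorem chl.Chd {l t c : ℕ} (h : B.chl l t c) : B.Chd t c := ⟨h.1, l, h.2⟩

theorem Chd.lt {t c : ℕ} (h : B.Chd t c) : t < c := h.1.1

theorem exd.mono {s s' b : ℕ} (h : B.exd s b) (h1 : s ≤ s') : B.exd s' b := by
  obtain ⟨c, hc, h2⟩ := h
  exact ⟨c, hc.trans_le h1, h2⟩

theorem Desc_le {b c : ℕ} (h : ReflTransGen B.Chd b c) : b ≤ c := by
  induction h with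
  | refl => exact le_rfl
  | tail _ h1 h2 => exact h2.trans h1.lt.le

end Sq

section org

variable {B : Sq}
  (org : ∀ s l, B.mem l s → l / 2 = s ∨ ∃ t, B.live s t ∧ B.G s ≤ B.G t ∧ B.mem l t)

include org

theorem half_le_of : ∀ {s l : ℕ}, B.mem l s → l / 2 ≤ s := by
  intro s
  induction s using Nat.strong_induction_on with
  | _ s ih =>
    intro l hl
    rcases org s l hl with h1 | ⟨t, h1, _, h3⟩
    · exact h1.le
    · exact (ih t h1.1 h3).trans h1.1.le

/-- a lineage is located in at most one live block -/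
theorem loc_uniq_of : ∀ {s l t t' : ℕ}, B.live s t → B.live s t' → B.mem l t →
    B.mem l t' → t = t' := by
  intro s
  induction s with
  | zero => intro l t t' h1; exact absurd h1.1 (Nat.not_lt_zero _)
  | succ s ih =>
    have key : ∀ l t', B.live s t' → B.G t' < B.G s → B.mem l s → B.mem l t' → False := by
      intro l t' h1 h2 h3 h4
      rcases org s l h3 with h5 | ⟨t'', h5, h6, h7⟩
      · have := half_le_of org h4
        have := h1.1
        omega
      · have := ih h1 h5 h4 h7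
        subst this
        omega
    intro l t t' h1 h2 h3 h4
    rcases Sq.live_succ.1 h1 with rfl | ⟨h1, h1'⟩
    · rcases Sq.live_succ.1 h2 with rfl | ⟨h2, h2'⟩
      · rfl
      · exact (key l t' h2 h2' h3 h4).elim
    · rcases Sq.live_succ.1 h2 with rfl | ⟨h2, h2'⟩
      · exact (key l t h1 h1' h4 h3).elim
      · exact ih h1 h2 h3 h4

end org

/-- The origin properties of the sequence. -/
structure Org (B : Sq) : Prop where
  org : ∀ s l, B.mem l s → l / 2 = s ∨ ∃ t, B.live s t ∧ B.G s ≤ B.G t ∧ B.mem l t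
  uni : ∀ s t l l', B.live s t → B.mem l s → B.mem l' s → B.mem l t → B.mem l' t → l = l'

namespace Org

open Sq

variable {B : Sq}

theorem half_le (h : Org B) {s l : ℕ} : B.mem l s → l / 2 ≤ s := half_le_of h.org

/-- a lineage is located in at most one live block -/
theorem loc_uniq (h : Org B) {s l t t' : ℕ} : B.live s t → B.live s t' → B.mem l t →
    B.mem l t' → t = t' := loc_uniq_of h.org

/-- the origin of an old lineage -/
theorem org' (h : Org B) {s l : ℕ} (h1 : B.mem l s) (h2 : l / 2 < s) :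
    ∃ t, B.live s t ∧ B.G s ≤ B.G t ∧ B.mem l t := by
  rcases h.org s l h1 with h3 | h3
  · omega
  · exact h3

theorem ll_succ (h : Org B) {s l : ℕ} (h1 : B.ll (s + 1) l) (h2 : l / 2 < s) : B.ll s l := by
  obtain ⟨t, h3, h4⟩ := h1
  rcases live_succ.1 h3 with rfl | ⟨h3, _⟩
  · obtain ⟨t', h5, _, h6⟩ := h.org' h4 h2
    exact ⟨t', h5, h6⟩
  · exact ⟨t, h3, h4⟩

/-- a dead lineage stays dead -/
theorem ll_down (h : Org B) {s s' l : ℕ} (h1 : B.ll s' l) (h2 : l / 2 < s) (h3 : s ≤ s') :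
    B.ll s l := by
  induction s', h3 using Nat.le_induction with
  | base => exact h1
  | succ k hk ih => exact ih (h.ll_succ h1 (h2.trans_le hk))

theorem chd_G (h : Org B) {t c l : ℕ} (h1 : B.chl l t c) : B.G c ≤ B.G t := by
  obtain ⟨t', h2, h3, h4⟩ := h.org' h1.2.2 ((h.half_le h1.2.1).trans_lt h1.1.1)
  have := h.loc_uniq h1.1 h2 h1.2.1 h4
  rw [this]
  exact h3

theorem Chd_G (h : Org B) {t c : ℕ} (h1 : B.Chd t c) : B.G c ≤ B.G t := by
  obtain ⟨h2, l, h3⟩ := h1
  exact h.chd_G ⟨h2, h3⟩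

theorem Chd_uniq (h : Org B) {t c c' : ℕ} (h1 : B.Chd t c) (h2 : B.Chd t c') : c = c' := by
  have key : ∀ c c', B.Chd t c → B.Chd t c' → ¬ c < c' := by
    intro c c' h1 h2 h3
    have := h2.1.2 c h3 h1.lt
    have := h.Chd_G h1
    omega
  rcases lt_trichotomy c c' with h3 | h3 | h3
  · exact (key c c' h1 h2 h3).elim
  · exact h3
  · exact (key c' c h2 h1 h3).elim

theorem not_live_of_Chd (h : Org B) {s t c : ℕ} (h1 : B.Chd t c) (h2 : c < s) : ¬ B.live s t := by
  intro h3
  have := h3.2 c h2 h1.lt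
  have := h.Chd_G h1
  omega

theorem shared_uniq (h : Org B) {t c l c' l' : ℕ} (h1 : B.chl l t c) (h2 : B.chl l' t c') :
    l = l' ∧ c = c' := by
  have h3 : c = c' := h.Chd_uniq h1.Chd h2.Chd
  subst h3
  exact ⟨h.uni c t l l' h1.1 h1.2.2 h2.2.2 h1.2.1 h2.2.1, rfl⟩

/-- no block between a live location and the present contains the lineage -/
theorem no_mem_of_live (h : Org B) {s t t' l : ℕ} (h1 : B.live s t) (h2 : B.mem l t)
    (h3 : t < t') (h4 : t' < s) : ¬ B.mem l t' := by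
  intro h5
  have h6 : B.live t' t := h1.down h3 h4.le
  have := h.chd_G ⟨h6, h2, h5⟩
  have := h1.2 t' h4 h3
  omega

/-- all blocks containing a lineage form a chain -/
theorem chain (h : Org B) {l t : ℕ} (h1 : B.mem l t) :
    ∀ {t' : ℕ}, B.mem l t' → t ≤ t' → ReflTransGen (B.chl l) t t' := by
  intro t'
  induction t' using Nat.strong_induction_on with
  | _ t' ih =>
    intro h2 h3
    rcases h3.eq_or_lt with rfl | h3
    · exact ReflTransGen.refl
    · obtain ⟨t'', h4, _, h5⟩ := h.org' h2 ((h.half_le h1).trans_lt h3)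
      have h6 : t ≤ t'' := by
        by_contra h7
        push Not at h7
        exact h.no_mem_of_live h4 h5 h7 h3 h1
      exact (ih t'' h4.1 h5 h6).tail ⟨h4, h5, h2⟩

theorem Desc_G (h : Org B) {b c : ℕ} (h1 : ReflTransGen B.Chd b c) : B.G c ≤ B.G b := by
  induction h1 with
  | refl => exact le_rfl
  | tail _ h2 h3 => exact (h.Chd_G h2).trans h3

theorem chain_Desc {l b c : ℕ} (h1 : ReflTransGen (B.chl l) b c) : ReflTransGen B.Chd b c :=
  rtg_mono (fun _ _ h => Sq.chl.Chd h) h1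

/-- descendants of a block form a chain -/
theorem Desc_total (h : Org B) {b c c' : ℕ} (h1 : ReflTransGen B.Chd b c)
    (h2 : ReflTransGen B.Chd b c') : ReflTransGen B.Chd c c' ∨ ReflTransGen B.Chd c' c :=
  ReflTransGen.total_of_right_unique (fun _ _ _ h3 h4 => h.Chd_uniq h3 h4) h1 h2

theorem eq_of_Desc_live (h : Org B) {s b c : ℕ} (h1 : ReflTransGen B.Chd b c) (h2 : B.live s b)
    (h3 : c < s) : c = b := by
  rcases ReflTransGen.cases_head h1 with h4 | ⟨d, h4, h5⟩
  · exact h4.symm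
  · exact (h.not_live_of_Chd h4 ((Desc_le h5).trans_lt h3) h2).elim

theorem XL_down (h : Org B) {s s' b c : ℕ} (h1 : B.XL s' b) (h2 : s ≤ s') (h3 : B.Chd b c)
    (h4 : c < s) : B.XL s b := by
  obtain ⟨c', h5, l, h6, h7⟩ := h1
  have h8 : c' = c := h.Chd_uniq h6.Chd h3
  subst h8
  exact ⟨c', h4, l, h6, h.ll_down h7 (((h.half_le h6.2.1).trans_lt h6.1.1).trans h4) h2⟩

theorem Mg_mono (h : Org B) {s s' b c : ℕ} (h1 : B.Mg s b c) (h2 : s ≤ s') : B.Mg s' b c :=
  ⟨h1.1.trans_le h2, h1.2.1, fun h3 => h1.2.2 (h.XL_down h3 h2 h1.2.1 h1.1)⟩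

theorem Mg_uniq (h : Org B) {s b c c' : ℕ} (h1 : B.Mg s b c) (h2 : B.Mg s b c') : c = c' :=
  h.Chd_uniq h1.2.1 h2.2.1

/-- along a dead lineage all blocks merge -/
theorem chain_Mg (h : Org B) {s l t t' : ℕ} (h1 : ReflTransGen (B.chl l) t t') (h2 : ¬ B.ll s l)
    (h3 : t' < s) : ReflTransGen (B.Mg s) t t' := by
  induction h1 with
  | refl => exact ReflTransGen.refl
  | tail h4 h5 h6 =>
    refine (h6 (h5.1.1.trans h3)).tail ⟨h3, h5.Chd, ?_⟩
    rintro ⟨c, _, l', h7, h8⟩
    obtain ⟨h9, _⟩ := h.shared_uniq h5 h7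
    subst h9
    exact h2 h8

theorem no_Mg_live {s b c : ℕ} (h1 : B.live s c) : ¬ B.Mg s b c := by
  rintro ⟨h2, ⟨h3, l, h4, h5⟩, h6⟩
  exact h6 ⟨c, h2, l, ⟨h3, h4, h5⟩, c, h1, h5⟩

end Org

end Pool.Agent.MP5566
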